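import Pool.Agent.Helper24.ES.Avg1

set_option autoImplicit false

open Finset
open Pool.Agent.Helper84.SP

namespace Pool.Agent.Helper24.ES

variable {ι G Q : Type*} [AddCommGroup G] [DecidableEq G] [AddCommGroup Q] [DecidableEq Q]

/-- rare splittings; only half of the dilates have to separate `D₀` from `D₁` -/
theorem FI_rare [DecidableEq ι] {M : ℕ} (hM : 1 ≤ M) (π : G →+ Q) {α : ι → G} {X : Finset G}
    {D D₁ D₀ : Finset ι} (hX : X.Nonempty)
    (hdis : Disjoint D₁ D₀) (hD : D = D₁ ∪ D₀) (h₁ : D₁.Nonempty) (h₀ : D₀.Nonempty) {a : Q}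
    (ha1 : ∀ y ∈ D₁, π (α y) = a) (B : Finset ℕ) (hB : B ⊆ Icc 1 M) (hB2 : M ≤ 2 * B.card)
    (ha0 : ∀ m ∈ B, ∀ y ∈ D₀, m • (π (α y) - a) ≠ 0) {g R lam w : ℝ} (hR : 1 ≤ R)
    (hlam : 0 < lam) (hg : lam * R = g) (hw : 12 * g ≤ w)
    (hθ : (D₀.card / D.card : ℝ) ≤ 1 / (576 * R ^ 2)) :
    (D₁.card / D.card : ℝ) * (w * FI M α X D₁) + (D₀.card / D.card : ℝ) * (w * FI M α X D₀) +
      g * hh (D₁.card / D.card) (D₀.card / D.card) ≤
      w * FI M α X D + lam * (D₁.card / D.card) * (Ent π X / X.card) := by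
  classical
  have hMp : (0 : ℝ) < M := by exact_mod_cast hM
  have hBN : 0 < B.card := by omega
  have hBp : (0 : ℝ) < B.card := by exact_mod_cast hBN
  have hB2' : (M : ℝ) ≤ 2 * B.card := by exact_mod_cast hB2
  have hR0 : 0 < R := by linarith
  have hg0 : 0 < g := by rw [← hg]; positivity
  have hw0 : 0 < w := by linarith
  obtain ⟨t, ht⟩ : ∃ t : ℝ, t = lam * M / (w * B.card) := ⟨_, rfl⟩
  have ht0 : 0 < t := by rw [ht]; positivity
  have htR : t * R ≤ 1 / 6 := by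
    rw [ht, div_mul_eq_mul_div, div_le_div_iff₀ (by positivity) (by norm_num)]
    have h1 : lam * M * R * 6 = 6 * g * M := by rw [← hg]; ring
    rw [h1]
    have h2 : 6 * g * M ≤ 6 * g * (2 * B.card) :=
      mul_le_mul_of_nonneg_left hB2' (by positivity)
    have h3 : 12 * g * B.card ≤ w * B.card := mul_le_mul_of_nonneg_right hw hBp.le
    linarith
  obtain ⟨η, hη⟩ : ∃ η : ℝ, η = D₁.card / D.card := ⟨_, rfl⟩
  obtain ⟨θ, hθd⟩ : ∃ θ : ℝ, θ = D₀.card / D.card := ⟨_, rfl⟩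
  obtain ⟨e, he⟩ : ∃ e : ℝ, e = Ent π X / X.card := ⟨_, rfl⟩
  have hterm : ∀ m ∈ Icc 1 M, η * I (dil m α) X D₁ + θ * I (dil m α) X D₀ +
      (if m ∈ B then t * R * hh η θ else 0) ≤
      I (dil m α) X D + (if m ∈ B then t * η * e else 0) := by
    intro m _
    by_cases hmB : m ∈ B
    · rw [if_pos hmB, if_pos hmB, hη, hθd, he]
      apply side_rare π (α := dil m α) hX hdis hD h₁ h₀ (a := m • a) _ _ hR ht0 htR hθ
      · intro y hy
        unfold dil
        rw [map_nsmul, ha1 y hy]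
      · intro y hy hcon
        unfold dil at hcon
        rw [map_nsmul] at hcon
        apply ha0 m hmB y hy
        rw [nsmul_sub, hcon, sub_self]
    · rw [if_neg hmB, if_neg hmB, hη, hθd, add_zero, add_zero]
      exact I_super (α := dil m α) hX hdis hD h₁ h₀
  have hsum := sum_le_sum hterm
  simp only [sum_add_distrib, ← mul_sum] at hsum
  have hite : ∀ c : ℝ, ∑ m ∈ Icc 1 M, (if m ∈ B then c else 0) = B.card * c := by
    intro c
    rw [sum_ite_mem, inter_eq_right.2 hB, sum_const, nsmul_eq_mul]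
  rw [hite, hite] at hsum
  rw [← hη, ← hθd, ← he]
  unfold FI
  have h2 := mul_le_mul_of_nonneg_left hsum (div_nonneg hw0.le hMp.le)
  have e1 : w / M * (η * ∑ m ∈ Icc 1 M, I (dil m α) X D₁ + θ * ∑ m ∈ Icc 1 M, I (dil m α) X D₀ +
      B.card * (t * R * hh η θ)) =
      η * (w * ((∑ m ∈ Icc 1 M, I (dil m α) X D₁) / M)) +
        θ * (w * ((∑ m ∈ Icc 1 M, I (dil m α) X D₀) / M)) + g * hh η θ := by
    rw [ht, ← hg]
    field_simp
  have e2 : w / M * (∑ m ∈ Icc 1 M, I (dil m α) X D + B.card * (t * η * e)) =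
      w * ((∑ m ∈ Icc 1 M, I (dil m α) X D) / M) + lam * η * e := by
    rw [ht]
    field_simp
  rw [e1, e2] at h2
  exact h2

end Pool.Agent.Helper24.ES
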