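import Pool.Agent.Helper24.ES.Defs

set_option autoImplicit false

open Finset
open Pool.Agent.Helper84.SP

namespace Pool.Agent.Helper24.ES

variable {ι G Q : Type*} [AddCommGroup G] [DecidableEq G] [AddCommGroup Q] [DecidableEq Q]

theorem FI_nonneg (M : ℕ) (α : ι → G) (X : Finset G) (D : Finset ι) : 0 ≤ FI M α X D :=
  div_nonneg (sum_nonneg fun _ _ => I_nonneg _ _ _) (Nat.cast_nonneg M)

/-- superadditivity -/
theorem FI_super [DecidableEq ι] {M : ℕ} {α : ι → G} {X : Finset G} {D D₁ D₀ : Finset ι}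
    (hX : X.Nonempty) (hdis : Disjoint D₁ D₀) (hD : D = D₁ ∪ D₀) (h₁ : D₁.Nonempty)
    (h₀ : D₀.Nonempty) :
    (D₁.card / D.card : ℝ) * FI M α X D₁ + (D₀.card / D.card : ℝ) * FI M α X D₀ ≤
      FI M α X D := by
  unfold FI
  have e1 : (D₁.card / D.card : ℝ) * ((∑ m ∈ Icc 1 M, I (dil m α) X D₁) / M) +
      (D₀.card / D.card : ℝ) * ((∑ m ∈ Icc 1 M, I (dil m α) X D₀) / M) =
      (∑ m ∈ Icc 1 M, ((D₁.card / D.card : ℝ) * I (dil m α) X D₁ +
        (D₀.card / D.card : ℝ) * I (dil m α) X D₀)) / M := by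
    rw [sum_add_distrib, ← mul_sum, ← mul_sum]
    ring
  rw [e1]
  apply div_le_div_of_nonneg_right _ (Nat.cast_nonneg M)
  exact sum_le_sum fun m _ => I_super hX hdis hD h₁ h₀

theorem Avg1_gen (π : G →+ Q) {X : Finset G} {F : Finset G → ℝ}
    (hF : F X = ∑ c ∈ X.image π, F (cl π X c)) {u μ : ℝ}
    (h : ∀ X' : Finset G, X' ⊆ X → X'.Nonempty →
      X'.card * (u - μ * Real.log X'.card) ≤ F X') :
    X.card * (u - μ * Real.log X.card) + μ * Ent π X ≤ F X := by
  rw [hF]
  have h1 : ∀ c ∈ X.image π, (cl π X c).card * (u - μ * Real.log (cl π X c).card) ≤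
      F (cl π X c) := by
    intro c hc
    obtain ⟨x, hx, rfl⟩ := mem_image.1 hc
    exact h _ (cl_subset _ _ _) ⟨x, mem_cl.2 ⟨hx, rfl⟩⟩
  refine le_trans (le_of_eq ?_) (sum_le_sum h1)
  have h2 : ∀ f : Q → ℝ, ∑ x ∈ X, f (π x) = ∑ c ∈ X.image π, (cl π X c).card * f c := by
    intro f
    rw [← sum_fiberwise_of_maps_to (s := X) (t := X.image π) (g := π)
      (fun x hx => mem_image_of_mem _ hx)]
    apply sum_congr rfl
    intro c _
    have h3 : X.filter (fun x => π x = c) = cl π X c := rfl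
    rw [h3]
    have h4 : ∀ x ∈ cl π X c, f (π x) = f c := fun x hx => by rw [(mem_cl.1 hx).2]
    rw [sum_congr rfl h4, sum_const, nsmul_eq_mul]
  have h5 : ∑ c ∈ X.image π, (cl π X c).card * (u - μ * Real.log (cl π X c).card) =
      ∑ x ∈ X, (u - μ * Real.log (cl π X (π x)).card) :=
    (h2 (fun c => u - μ * Real.log (cl π X c).card)).symm
  have h6 : Ent π X = ∑ x ∈ X, (Real.log X.card - Real.log (cl π X (π x)).card) := by
    unfold Ent
    apply sum_congr rfl
    intro x hx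
    have hXp : (0 : ℝ) < X.card := by exact_mod_cast card_pos.2 ⟨x, hx⟩
    rw [Real.log_div hXp.ne' (cl_pos hx).ne']
  rw [h5, h6, sum_sub_distrib, sum_sub_distrib, sum_const, sum_const, nsmul_eq_mul,
    nsmul_eq_mul, ← mul_sum]
  ring

/-- passing to classes -/
theorem classes_FI {M : ℕ} (hM : 1 ≤ M) {α : ι → G} (π : G →+ Q) {X : Finset G}
    (hX : X.Nonempty) {D : Finset ι} (hDne : D.Nonempty) {a : Q} (hD : ∀ y ∈ D, π (α y) = a)
    {w lam : ℝ}
    (h : ∀ X' : Finset G, X' ⊆ X → X'.Nonempty → w - lam * Real.log X'.card ≤ FI M α X' D) :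
    w - lam * Real.log X.card + lam * (Ent π X / X.card) ≤ FI M α X D := by
  have hXp : (0 : ℝ) < X.card := by exact_mod_cast card_pos.2 hX
  have hDp : (0 : ℝ) < D.card := by exact_mod_cast card_pos.2 hDne
  have hMp : (0 : ℝ) < M := by exact_mod_cast (by omega : 0 < M)
  have key : ∀ X' : Finset G, FI M α X' D =
      (∑ m ∈ Icc 1 M, J (dil m α) X' D) / (X'.card * D.card) / M := by
    intro X'
    unfold FI I
    rw [← sum_div]
  have hF : (∑ m ∈ Icc 1 M, J (dil m α) X D) =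
      ∑ c ∈ X.image π, (∑ m ∈ Icc 1 M, J (dil m α) (cl π X c) D) := by
    rw [sum_comm]
    apply sum_congr rfl
    intro m _
    apply J_classes π X (a := m • a)
    intro y hy
    unfold dil
    rw [map_nsmul, hD y hy]
  have h1 := Avg1_gen π (X := X) (F := fun X' => ∑ m ∈ Icc 1 M, J (dil m α) X' D) hF
    (u := D.card * M * w) (μ := D.card * M * lam)
    (by
      intro X' hX' hne
      have hXp' : (0 : ℝ) < X'.card := by exact_mod_cast card_pos.2 hne
      have h2 := h X' hX' hne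
      rw [key, div_div, le_div_iff₀ (by positivity)] at h2
      refine le_trans (le_of_eq ?_) h2
      ring)
  rw [key, div_div, le_div_iff₀ (by positivity)]
  refine le_trans (le_of_eq ?_) h1
  field_simp

end Pool.Agent.Helper24.ES
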