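import Pool.Agent.Helper24.ES.Defs

set_option autoImplicit false

/-!
MP_120218_co, squad ES: dilates and iterated sumsets (Ruzsa triangle inequality, digits).
-/

open Finset
open scoped Pointwise
open Pool.Agent.Helper84.SP

namespace Pool.Agent.Helper24.ES

theorem Digits_al_inj : Function.Injective al := by
  intro a b h
  unfold al at h
  exact_mod_cast h

theorem Digits_it (A : Finset ℕ) (n : ℕ) : it al A n = n • (A.image al) := by
  induction n with
  | zero =>
    rw [zero_nsmul]
    rfl
  | succ n ih =>
    rw [succ_nsmul, ← ih]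
    ext s
    constructor
    · intro hs
      unfold it sset at hs
      rw [mem_image] at hs
      obtain ⟨⟨x, y⟩, hxy, rfl⟩ := hs
      rw [mem_product] at hxy
      exact add_mem_add hxy.1 (mem_image_of_mem _ hxy.2)
    · intro hs
      rw [mem_add] at hs
      obtain ⟨x, hx, z, hz, rfl⟩ := hs
      rw [mem_image] at hz
      obtain ⟨y, hy, rfl⟩ := hz
      exact mem_sset hx hy

theorem Digits_sset (A : Finset ℕ) (m : ℕ) :
    sset (dil m al) (it al A 1) A = A.image al + (A.image al).image (fun z => (m : ℤ) * z) := by
  rw [Digits_it, one_nsmul]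
  ext s
  constructor
  · intro hs
    unfold sset dil at hs
    rw [mem_image] at hs
    obtain ⟨⟨x, y⟩, hxy, rfl⟩ := hs
    rw [mem_product] at hxy
    refine add_mem_add hxy.1 ?_
    rw [mem_image]
    refine ⟨al y, mem_image_of_mem _ hxy.2, ?_⟩
    simp
  · intro hs
    rw [mem_add] at hs
    obtain ⟨x, hx, z, hz, rfl⟩ := hs
    rw [mem_image] at hz
    obtain ⟨w, hw, rfl⟩ := hz
    rw [mem_image] at hw
    obtain ⟨y, hy, rfl⟩ := hw
    have h := mem_sset (α := dil m al) hx hy
    unfold dil at h
    rw [nsmul_eq_mul] at h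
    exact h

/-- one digit -/
theorem Digits_step {B : Finset ℤ} {b : ℕ} (hb : 2 ≤ b) (m : ℕ) :
    (B + B.image (fun z => (m : ℤ) * z)).card * B.card ≤
      ((1 + m % b + b) • B).card * (B + B.image (fun z => ((m / b : ℕ) : ℤ) * z)).card := by
  set r := m % b with hr
  set m' := m / b with hm'
  have hm : m = b * m' + r := (Nat.div_add_mod m b).symm
  have hb0 : (b : ℤ) ≠ 0 := by
    have : b ≠ 0 := by omega
    exact_mod_cast this
  have hinj : Function.Injective (fun z : ℤ => (b : ℤ) * z) := mul_right_injective₀ hb0
  set U : Finset ℤ := B + B.image (fun z => (r : ℤ) * z) with hU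
  set W : Finset ℤ := B.image (fun z => (b : ℤ) * ((m' : ℤ) * z)) with hW
  set Y : Finset ℤ := B.image (fun z => (b : ℤ) * z) with hY
  have h1 : B + B.image (fun z => (m : ℤ) * z) ⊆ U + W := by
    intro s hs
    rw [mem_add] at hs
    obtain ⟨x, hx, z, hz, rfl⟩ := hs
    rw [mem_image] at hz
    obtain ⟨a, ha, rfl⟩ := hz
    rw [mem_add]
    refine ⟨x + (r : ℤ) * a, add_mem_add hx (mem_image_of_mem (fun z => (r : ℤ) * z) ha),
      (b : ℤ) * ((m' : ℤ) * a), mem_image_of_mem (fun z => (b : ℤ) * ((m' : ℤ) * z)) ha, ?_⟩
    have : (m : ℤ) = b * m' + r := by exact_mod_cast hm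
    rw [this]
    ring
  have h2 : Y.card = B.card := card_image_of_injective _ hinj
  have h3 : (Y + W).card = (B + B.image (fun z => (m' : ℤ) * z)).card := by
    have : Y + W = (B + B.image (fun z => (m' : ℤ) * z)).image (fun z => (b : ℤ) * z) := by
      ext s
      constructor
      · intro hs
        rw [mem_add] at hs
        obtain ⟨y, hy, w, hw, rfl⟩ := hs
        rw [hY, mem_image] at hy
        rw [hW, mem_image] at hw
        obtain ⟨a, ha, rfl⟩ := hy
        obtain ⟨c, hc, rfl⟩ := hw
        rw [mem_image]
        exact ⟨a + (m' : ℤ) * c, add_mem_add ha (mem_image_of_mem (fun z => (m' : ℤ) * z) hc),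
          by ring⟩
      · intro hs
        rw [mem_image] at hs
        obtain ⟨t, ht, rfl⟩ := hs
        rw [mem_add] at ht
        obtain ⟨a, ha, w, hw, rfl⟩ := ht
        rw [mem_image] at hw
        obtain ⟨c, hc, rfl⟩ := hw
        rw [mem_add]
        exact ⟨(b : ℤ) * a, mem_image_of_mem (fun z => (b : ℤ) * z) ha,
          (b : ℤ) * ((m' : ℤ) * c), mem_image_of_mem (fun z => (b : ℤ) * ((m' : ℤ) * z)) hc,
          by ring⟩
    rw [this]
    exact card_image_of_injective _ hinj
  have h4 : U + Y ⊆ (1 + r + b) • B := by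
    have e1 : ∀ n : ℕ, B.image (fun z => (n : ℤ) * z) ⊆ n • B := by
      intro n s hs
      rw [mem_image] at hs
      obtain ⟨a, ha, rfl⟩ := hs
      have := nsmul_mem_nsmul ha (n := n)
      rwa [nsmul_eq_mul] at this
    rw [add_nsmul, add_nsmul, one_nsmul]
    exact add_subset_add (add_subset_add (Subset.refl _) (e1 r)) (e1 b)
  calc (B + B.image (fun z => (m : ℤ) * z)).card * B.card
      ≤ (U + W).card * Y.card := by
        rw [h2]
        exact Nat.mul_le_mul_right _ (card_le_card h1)
    _ ≤ (U + Y).card * (Y + W).card := ruzsa_triangle_inequality_add_add_add U Y W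
    _ ≤ ((1 + r + b) • B).card * (B + B.image (fun z => (m' : ℤ) * z)).card := by
        rw [h3]
        exact Nat.mul_le_mul_right _ (card_le_card h4)

/-- expansion of `m` in base `b` -/
theorem dil_digits {A : Finset ℕ} (hA : A.Nonempty) {b : ℕ} (hb : 2 ≤ b) :
    ∀ d m : ℕ, m < b ^ d →
      Real.log (sset (dil m al) (it al A 1) A).card ≤ Real.log A.card +
        d * (Real.log (it al A (2 * b)).card - Real.log A.card) := by
  have hAp : 0 < A.card := card_pos.2 hA
  have hcB : (A.image al).card = A.card := card_image_of_injective _ Digits_al_inj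
  have hBne : (A.image al).Nonempty := hA.image _
  intro d
  induction d with
  | zero =>
    intro m hm
    have hm0 : m = 0 := by
      rw [pow_zero] at hm
      omega
    subst hm0
    have : (sset (dil 0 al) (it al A 1) A).card = A.card := by
      rw [Digits_sset, ← hcB]
      have e : (A.image al).image (fun z => ((0 : ℕ) : ℤ) * z) = 0 := by
        have e2 : (fun z : ℤ => ((0 : ℕ) : ℤ) * z) = fun _ => 0 := by
          funext z
          simp
        rw [e2, image_const hBne]
        rfl
      rw [e, add_zero]
    rw [this]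
    simp
  | succ d ih =>
    intro m hm
    have hm' : m / b < b ^ d := by
      rw [pow_succ] at hm
      exact Nat.div_lt_of_lt_mul (by rwa [mul_comm] at hm)
    have hi := ih (m / b) hm'
    have hs := Digits_step (B := A.image al) hb m
    rw [← Digits_sset A m, ← Digits_sset A (m / b), hcB, ← Digits_it] at hs
    have hr : m % b < b := Nat.mod_lt _ (by omega)
    have hmono : (it al A (1 + m % b + b)).card ≤ (it al A (2 * b)).card :=
      it_mono (α := al) hA (by omega)
    have hne : ∀ k, (sset (dil k al) (it al A 1) A).Nonempty := by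
      intro k
      obtain ⟨x, hx⟩ := it_nonempty (α := al) hA 1
      obtain ⟨y, hy⟩ := hA
      exact ⟨_, mem_sset hx hy⟩
    have p1 : (0 : ℝ) < (sset (dil m al) (it al A 1) A).card := by
      exact_mod_cast card_pos.2 (hne m)
    have p2 : (0 : ℝ) < (sset (dil (m / b) al) (it al A 1) A).card := by
      exact_mod_cast card_pos.2 (hne (m / b))
    have p3 : (0 : ℝ) < (it al A (2 * b)).card := by
      exact_mod_cast card_pos.2 (it_nonempty (α := al) hA _)
    have p4 : (0 : ℝ) < A.card := by exact_mod_cast hAp
    have hs2 : ((sset (dil m al) (it al A 1) A).card : ℝ) * A.card ≤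
        (it al A (2 * b)).card * (sset (dil (m / b) al) (it al A 1) A).card := by
      exact_mod_cast hs.trans (Nat.mul_le_mul_right _ hmono)
    have hl := Real.log_le_log (by positivity) hs2
    rw [Real.log_mul p1.ne' p4.ne', Real.log_mul p3.ne' p2.ne'] at hl
    push_cast
    nlinarith [hl, hi]

/-- Pluennecke -/
theorem pluen {A : Finset ℕ} (hA : A.Nonempty) (n : ℕ) :
    Real.log (it al A n).card ≤ Real.log A.card +
      n * (Real.log (it al A 2).card - Real.log A.card) := by
  have hcB : (A.image al).card = A.card := card_image_of_injective _ Digits_al_inj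
  have hBne : (A.image al).Nonempty := hA.image _
  have h := pluennecke_ruzsa_inequality_nsmul_add hBne (A.image al) n
  rw [← Digits_it, ← two_nsmul, ← Digits_it, hcB] at h
  have p1 : (0 : ℝ) < (it al A n).card := by
    exact_mod_cast card_pos.2 (it_nonempty (α := al) hA _)
  have p3 : (0 : ℝ) < (it al A 2).card := by
    exact_mod_cast card_pos.2 (it_nonempty (α := al) hA _)
  have p4 : (0 : ℝ) < A.card := by exact_mod_cast card_pos.2 hA
  have h2 : ((it al A n).card : ℝ) ≤ ((it al A 2).card / A.card) ^ n * A.card := by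
    have h3 := (NNRat.cast_le (K := ℝ)).2 h
    push_cast at h3
    exact h3
  have hl := Real.log_le_log p1 h2
  rw [Real.log_mul (by positivity) p4.ne', Real.log_pow, Real.log_div p3.ne' p4.ne'] at hl
  linarith

end Pool.Agent.Helper24.ES
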