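import Pool.Agent.Helper24.ES.Defs

set_option autoImplicit false

/-!
MP_120218_co, squad ES: iterated sumsets and dilates.
-/

open Finset
open Pool.Agent.Helper84.SP

namespace Pool.Agent.Helper24.ES

variable {ι G : Type*} [AddCommGroup G] [DecidableEq G]

private theorem Iter_add_smul_mem {α : ι → G} {A : Finset ι} {j : ℕ} {x : G} {y : ι}
    (hx : x ∈ it α A j) (hy : y ∈ A) (m : ℕ) : x + m • α y ∈ it α A (j + m) := by
  induction m with
  | zero => simpa using hx
  | succ m ih =>
    have h1 : x + (m + 1) • α y = (x + m • α y) + α y := by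
      rw [succ_nsmul, add_assoc]
    rw [h1]
    exact mem_sset ih hy

/-- `X + m α y` is a sum of `m` more elements -/
theorem sset_dil_subset {α : ι → G} {A : Finset ι} (hA : A.Nonempty) (j m : ℕ) :
    sset (dil m α) (it α A j) A ⊆ it α A (j + m) := by
  intro z hz
  unfold sset at hz
  rw [mem_image] at hz
  obtain ⟨p, hp, rfl⟩ := hz
  rw [mem_product] at hp
  exact Iter_add_smul_mem hp.1 hp.2 m

/-- the averaged information is bounded by the growth over `M` more summands -/
theorem FI_it_le {α : ι → G} {A : Finset ι} (hA : A.Nonempty) {M : ℕ} (hM : 1 ≤ M) (j : ℕ) :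
    FI M α (it α A j) A ≤
      Real.log (it α A (j + M)).card - Real.log (it α A j).card := by
  have hMp : (0 : ℝ) < M := by exact_mod_cast hM
  unfold FI
  rw [div_le_iff₀ hMp]
  have hstep : ∀ m ∈ Icc 1 M, I (dil m α) (it α A j) A ≤
      Real.log (it α A (j + M)).card - Real.log (it α A j).card := by
    intro m hm
    refine (I_le (it_nonempty hA j) hA).trans ?_
    have h1 : (sset (dil m α) (it α A j) A).card ≤ (it α A (j + M)).card :=
      (card_le_card (sset_dil_subset hA j m)).trans
        (it_mono hA (Nat.add_le_add_left (mem_Icc.1 hm).2 j))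
    have h2 : 0 < (sset (dil m α) (it α A j) A).card :=
      lt_of_lt_of_le (card_pos.2 (it_nonempty hA j)) (sset_card_ge hA)
    have h3 : Real.log (sset (dil m α) (it α A j) A).card ≤
        Real.log (it α A (j + M)).card :=
      Real.log_le_log (by exact_mod_cast h2) (by exact_mod_cast h1)
    linarith
  refine (sum_le_card_nsmul _ _ _ hstep).trans (le_of_eq ?_)
  rw [Nat.card_Icc, nsmul_eq_mul, Nat.add_sub_cancel]
  ring

/-- pigeonhole over blocks of `M` summands -/
theorem it_pigeonM {α : ι → G} {A : Finset ι} (hA : A.Nonempty) {h M J : ℕ} (hM : 1 ≤ M)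
    (hJ : 1 ≤ J) (hJM : J * M ≤ h) {b : ℝ}
    (hlt : Real.log (it α A h).card ≤ b * Real.log A.card) :
    ∃ X : Finset G, X.Nonempty ∧ Real.log X.card ≤ b * Real.log A.card ∧
      FI M α X A ≤ b / J * Real.log A.card := by
  have hJp : (0 : ℝ) < J := by exact_mod_cast hJ
  have hsum : ∑ i ∈ range J, (Real.log (it α A ((i + 1) * M)).card -
      Real.log (it α A (i * M)).card) =
      Real.log (it α A (J * M)).card - Real.log (it α A (0 * M)).card :=
    sum_range_sub (fun i => Real.log (it α A (i * M)).card) J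
  have h0 : Real.log (it α A (0 * M)).card = 0 := by simp [it]
  have hJh : Real.log (it α A (J * M)).card ≤ b * Real.log A.card := by
    refine le_trans ?_ hlt
    apply Real.log_le_log
    · exact_mod_cast card_pos.2 (it_nonempty hA _)
    · exact_mod_cast it_mono hA hJM
  have h2 : ∑ i ∈ range J, (Real.log (it α A ((i + 1) * M)).card -
      Real.log (it α A (i * M)).card) ≤
      ∑ i ∈ range J, (b / J * Real.log A.card) := by
    rw [hsum, h0, sum_const, card_range, nsmul_eq_mul, sub_zero]
    refine hJh.trans (le_of_eq ?_)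
    field_simp
  obtain ⟨i, hi, hle⟩ := exists_le_of_sum_le (nonempty_range_iff.2 (by omega)) h2
  refine ⟨it α A (i * M), it_nonempty hA _, ?_, ?_⟩
  · refine le_trans ?_ hJh
    apply Real.log_le_log
    · exact_mod_cast card_pos.2 (it_nonempty hA _)
    · exact_mod_cast it_mono hA (Nat.mul_le_mul_right M (mem_range.1 hi).le)
  · refine (FI_it_le hA hM (i * M)).trans ?_
    have h3 : i * M + M = (i + 1) * M := by ring
    rw [h3]
    exact hle

/-- some dilate grows -/
theorem exists_dil {α : ι → G} {X : Finset G} {A : Finset ι} (hX : X.Nonempty)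
    (hA : A.Nonempty) {M : ℕ} (hM : 1 ≤ M) :
    ∃ m ∈ Icc 1 M, FI M α X A ≤
      Real.log (sset (dil m α) X A).card - Real.log X.card := by
  have hMp : (0 : ℝ) < M := by exact_mod_cast hM
  have h1 : ∑ m ∈ Icc 1 M, FI M α X A ≤ ∑ m ∈ Icc 1 M, I (dil m α) X A := by
    rw [sum_const, Nat.card_Icc, nsmul_eq_mul, Nat.add_sub_cancel]
    unfold FI
    exact le_of_eq (by field_simp)
  obtain ⟨m, hm, hle⟩ := exists_le_of_sum_le (nonempty_Icc.2 hM) h1
  exact ⟨m, hm, hle.trans (I_le hX hA)⟩

end Pool.Agent.Helper24.ES
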