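import Pool.Agent.Helper24.ES.ParamT
import Pool.Agent.Helper24.ES.Iter

set_option autoImplicit false

open Finset
open Pool.Agent.Helper84.SP

namespace Pool.Agent.Helper24.ES

theorem KeyT_nsM_le (M : ℕ) (D : Finset ℕ) : nsM M D ≤ M + 1 := by
  unfold nsM
  exact (card_filter_le _ _).trans (le_of_eq (card_range _))

/-- few products: every set grows under some dilate -/
theorem keyT : ∃ c₁ C₁ : ℝ, 0 < c₁ ∧ 0 < C₁ ∧ ∀ (k : ℕ) (ε b : ℝ), 2 ≤ k → 0 < ε → ε ≤ 1 →
    1 ≤ b → ∃ (M : ℕ) (L : ℝ), 1 ≤ M ∧ Real.log M ≤ C₁ * (b / ε) * Real.log (k / ε) ∧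
      ∀ A : Finset ℕ, A.Nonempty → (∀ y ∈ A, 0 < y) → L ≤ Real.log A.card →
        Real.log (it be A k).card ≤ (1 - ε) * k * Real.log A.card →
        ∀ X : Finset ℤ, X.Nonempty → Real.log X.card ≤ b * Real.log A.card →
          c₁ * ε * Real.log A.card ≤ FI M al X A := by
  obtain ⟨C, hC, hpar⟩ := paramT
  refine ⟨1 / 2000, 20 * C, by norm_num, by positivity, ?_⟩
  intro k ε b hk hε0 hε1 hb
  have hk2 : (2 : ℝ) ≤ k := by exact_mod_cast hk
  have hk0 : (0 : ℝ) < k := by linarith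
  obtain ⟨g, lam₁, lam₂, R₁, R₂, Lam, K, T, M, P, hl1, hl2, hlM⟩ :=
    hpar k (ε / 5) b hk (by positivity) (by linarith) hb
  have hT := P.hT
  have hK0 := P.hK0
  have hTM := P.hTM
  have hexpK : 1 ≤ Real.exp K := Real.one_le_exp hK0
  have hTM8 : 8 * T ≤ M := by
    refine le_trans ?_ hTM
    exact le_mul_of_one_le_right (by linarith) hexpK
  have hM1 : 1 ≤ M := by
    have : (1 : ℝ) < M := by linarith
    exact_mod_cast this.le
  have hg : g = 1 - ε / 5 := P.hg
  have hg0 : 0 < g := by rw [hg]; linarith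
  have hR1 := P.hR1
  obtain ⟨G, hG⟩ : ∃ G : ℝ, G = g * (576 * R₁ ^ 2) * (M + 1) := ⟨_, rfl⟩
  refine ⟨M, 5 * G / ε, hM1, ?_, ?_⟩
  · refine hlM.trans ?_
    have hx : 2 ≤ (k : ℝ) / ε := by
      rw [le_div_iff₀ hε0]
      nlinarith
    have hx0 : 0 < (k : ℝ) / ε := by linarith
    have h1 : (k : ℝ) / (ε / 5) = 5 * (k / ε) := by field_simp
    have h2 : Real.log (5 * (k / ε)) ≤ 4 * Real.log (k / ε) := by
      have h3 : Real.log ((k / ε : ℝ) ^ 4) = 4 * Real.log (k / ε) := by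
        rw [Real.log_pow]
        norm_num
      rw [← h3]
      apply Real.log_le_log (by positivity)
      have h4 : (2 : ℝ) ^ 3 ≤ (k / ε) ^ 3 := pow_le_pow_left₀ (by norm_num) hx 3
      have h5 : (k / ε : ℝ) ^ 4 = (k / ε) ^ 3 * (k / ε) := by ring
      rw [h5]
      exact mul_le_mul_of_nonneg_right (by linarith) hx0.le
    have h6 : b / (ε / 5) = 5 * (b / ε) := by field_simp
    rw [h1, h6]
    have h7 : 0 ≤ C * (5 * (b / ε)) := by positivity
    calc C * (5 * (b / ε)) * Real.log (5 * (k / ε))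
        ≤ C * (5 * (b / ε)) * (4 * Real.log (k / ε)) := mul_le_mul_of_nonneg_left h2 h7
      _ = 20 * C * (b / ε) * Real.log (k / ε) := by ring
  · intro A hA hpos hL hprod X hX hlX
    obtain ⟨Z, hZ, hZ1, hZ2⟩ := it_pigeon hA (le_trans (by norm_num) hk) hprod
    have hmain := mainT P A.card A rfl hA hpos X hX Z hZ
    obtain ⟨l, hl⟩ : ∃ l : ℝ, l = Real.log A.card := ⟨_, rfl⟩
    have hl0 : 0 ≤ l := by rw [hl]; exact Real.log_natCast_nonneg _
    rw [← hl] at hmain hL hlX hZ1 hZ2 ⊢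
    have e1 : lam₁ * Real.log X.card ≤ ε / 5 * l := by
      calc lam₁ * Real.log X.card ≤ lam₁ * (b * l) :=
            mul_le_mul_of_nonneg_left hlX P.hlam1.le
        _ = lam₁ * b * l := by ring
        _ = _ := by rw [hl1]
    have e2 : lam₂ * Real.log Z.card ≤ ε / 5 * l := by
      calc lam₂ * Real.log Z.card ≤ lam₂ * ((1 - ε) * k * l) :=
            mul_le_mul_of_nonneg_left hZ1 P.hlam2.le
        _ = (1 - ε) * (lam₂ * k * l) := by ring
        _ = (1 - ε) * (ε / 5 * l) := by rw [hl2]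
        _ ≤ 1 * (ε / 5 * l) := mul_le_mul_of_nonneg_right (by linarith) (by positivity)
        _ = _ := one_mul _
    have e3 : I be Z A ≤ (1 - ε) * l := by
      refine hZ2.trans (le_of_eq ?_)
      field_simp
    have e4 : g * (576 * R₁ ^ 2) * nsM M A ≤ G := by
      rw [hG]
      apply mul_le_mul_of_nonneg_left _ (by positivity)
      exact_mod_cast KeyT_nsM_le M A
    have e5 : 5 * G ≤ l * ε := by rwa [div_le_iff₀ hε0] at hL
    have e6 : g * l = l - ε / 5 * l := by rw [hg]; ring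
    have e7 : (1 - ε) * l = l - ε * l := by ring
    nlinarith

end Pool.Agent.Helper24.ES
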