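import Pool.Agent.Helper24.ES.SideB

set_option autoImplicit false

/-!
MP_120218_co, squad ES: the main induction for the trade-off theorem B.
-/

open Finset
open Pool.Agent.Helper84.SP

namespace Pool.Agent.Helper24.ES

/-- the number of primes `q ≤ M` whose valuation is not constant on `D` -/
def nsM (M : ℕ) (D : Finset ℕ) : ℕ :=
  ((range (M + 1)).filter (fun q => q.Prime ∧
    ∃ y ∈ D, ∃ y' ∈ D, y.factorization q ≠ y'.factorization q)).card

theorem nsM_mono {M : ℕ} {D D' : Finset ℕ} (h : D' ⊆ D) : nsM M D' ≤ nsM M D := by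
  unfold nsM
  apply card_le_card
  apply monotone_filter_right
  rintro q _ ⟨hq, y, hy, y', hy', hne⟩
  exact ⟨hq, y, h hy, y', h hy', hne⟩

theorem nsM_lt {M : ℕ} {D D' : Finset ℕ} (h : D' ⊆ D) {q : ℕ} (hq : q.Prime) (hqM : q ≤ M)
    (h1 : ∃ y ∈ D, ∃ y' ∈ D, y.factorization q ≠ y'.factorization q) {l : ℕ}
    (h2 : ∀ y ∈ D', y.factorization q = l) : nsM M D' + 1 ≤ nsM M D := by
  unfold nsM
  apply Nat.succ_le_of_lt
  apply card_lt_card
  refine ⟨?_, ?_⟩
  · apply monotone_filter_right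
    rintro q _ ⟨hq, y, hy, y', hy', hne⟩
    exact ⟨hq, y, h hy, y', h hy', hne⟩
  · intro hsub
    have h3 : q ∈ (range (M + 1)).filter (fun q => q.Prime ∧
        ∃ y ∈ D, ∃ y' ∈ D, y.factorization q ≠ y'.factorization q) :=
      mem_filter.2 ⟨mem_range.2 (by omega), hq, h1⟩
    obtain ⟨_, _, y, hy, y', hy', hne⟩ := mem_filter.1 (hsub h3)
    exact hne ((h2 y hy).trans (h2 y' hy').symm)

/-- global parameters -/
structure PB (ε g α β κ : ℝ) : Prop where
  hε0 : 0 < ε
  hε1 : ε < 1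
  hg : g = 1 - ε
  hα : 0 < α
  hβ : 0 < β
  hab : Real.exp (-α) + Real.exp (-β) ≤ 1
  hκ0 : 0 < κ
  hκ1 : κ ≤ 1 / 2
  h1 : ∀ η θ : ℝ, 0 < η → 0 < θ → η + θ = 1 → η ≤ κ → hh η θ ≤ β * θ
  h2 : ∀ η θ : ℝ, 0 < η → 0 < θ → η + θ = 1 → θ ≤ κ → hh η θ ≤ α * η

/-- parameters of one side -/
structure SB (ε g κ α lam R w : ℝ) (M : ℕ) : Prop where
  hM : 4 < ε * M
  hlam : lam * Real.log (ε * M / 4) = α
  hlam0 : 0 < lam
  hR : 1 ≤ R
  hg : lam * R = g
  hw1 : 32 * g ≤ w * κ * ε
  hw2 : 32 * g * (576 * R ^ 2) ≤ w * ε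
  hw3 : 12 * g ≤ w

theorem mainB_half {M q : ℕ} (hq : 2 ≤ q) :
    M ≤ 2 * ((Icc 1 M).filter (fun m => ¬ q ∣ m)).card := by
  have h1 : (Icc 1 M).filter (fun m => q ∣ m) = (Ioc 0 M).filter (fun m => q ∣ m) := by
    ext m
    simp only [mem_filter, mem_Icc, mem_Ioc]
    constructor
    · rintro ⟨⟨h1, h2⟩, h3⟩
      exact ⟨⟨by omega, h2⟩, h3⟩
    · rintro ⟨⟨h1, h2⟩, h3⟩
      exact ⟨⟨by omega, h2⟩, h3⟩
  have h2 : ((Icc 1 M).filter (fun m => q ∣ m)).card = M / q := by
    rw [h1, Nat.Ioc_filter_dvd_card_eq_div]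
  have h3 := card_filter_add_card_filter_not (s := Icc 1 M) (fun m => q ∣ m)
  rw [h2, Nat.card_Icc] at h3
  have h4 : M / q ≤ M / 2 := Nat.div_le_div_left hq (by norm_num)
  omega

theorem SB.hg0 {ε g κ α lam R w : ℝ} {M : ℕ} (S : SB ε g κ α lam R w M) : 0 < g := by
  rw [← S.hg]
  have := S.hR
  have := S.hlam0
  positivity

theorem SB.hw {ε g κ α lam R w : ℝ} {M : ℕ} (S : SB ε g κ α lam R w M) : 0 < w := by
  have := S.hg0
  have := S.hw3
  linarith

theorem SB.hM1 {ε g κ α lam R w : ℝ} {M : ℕ} (S : SB ε g κ α lam R w M) : 1 ≤ M := by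
  by_contra h
  have h0 : M = 0 := by omega
  have := S.hM
  rw [h0] at this
  norm_num at this

/-- a splitting with small class entropy, weighted -/
theorem SB.mid {ε g κ β lam R w : ℝ} {M : ℕ} (S : SB ε g κ β lam R w M) (hε0 : 0 < ε)
    (hε1 : ε < 1) {ι G Q : Type*}
    [AddCommGroup G] [DecidableEq G] [AddCommGroup Q] [DecidableEq Q] [DecidableEq ι]
    (π : G →+ Q) {α : ι → G} {X : Finset G} {D D₁ D₀ : Finset ι} (hX : X.Nonempty)
    (hdis : Disjoint D₁ D₀) (hD : D = D₁ ∪ D₀) (h₁ : D₁.Nonempty) (h₀ : D₀.Nonempty) {a : Q}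
    (ha1 : ∀ y ∈ D₁, π (α y) = a)
    (ha0 : ∀ y ∈ D₀, ∀ j : ℕ, 1 ≤ j → j < M → j • (π (α y) - a) ≠ 0)
    (hE : Ent π X / X.card ≤ (1 - ε) * Real.log (ε * M / 4)) {t : ℝ}
    (hg : 16 * g ≤ w * t * ε)
    (hθ : t ≤ (D₁.card / D.card : ℝ) * (D₀.card / D.card : ℝ)) :
    (D₁.card / D.card : ℝ) * (w * FI M α X D₁) + (D₀.card / D.card : ℝ) * (w * FI M α X D₀) + g ≤
      w * FI M α X D := by
  have hw := S.hw
  have h := FI_mid π (α := α) hX hdis hD h₁ h₀ ha1 S.hM1 ha0 hε0 hε1.le S.hM hE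
  have h2 := mul_le_mul_of_nonneg_left h hw.le
  have h3 : g ≤ w * ((D₁.card / D.card : ℝ) * (D₀.card / D.card : ℝ) * (ε / 16)) := by
    have h4 : w * (t * (ε / 16)) ≤
        w * ((D₁.card / D.card : ℝ) * (D₀.card / D.card : ℝ) * (ε / 16)) := by
      apply mul_le_mul_of_nonneg_left _ hw.le
      exact mul_le_mul_of_nonneg_right hθ (by positivity)
    have h5 : w * (t * (ε / 16)) = w * t * ε / 16 := by ring
    rw [h5] at h4
    linarith
  rw [mul_add, mul_add] at h2
  linarith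

theorem mainB {ε g α β κ lam₁ R₁ w₁ lam₂ R₂ w₂ : ℝ} {M₁ M₂ : ℕ} (P : PB ε g α β κ)
    (S₁ : SB ε g κ α lam₁ R₁ w₁ M₁) (S₂ : SB ε g κ β lam₂ R₂ w₂ M₂) :
    ∀ n : ℕ, ∀ D : Finset ℕ, D.card = n → D.Nonempty → (∀ y ∈ D, 0 < y) →
      ∀ X : Finset ℤ, X.Nonempty → ∀ Z : Finset (ℕ →₀ ℤ), Z.Nonempty →
        g * Real.log D.card - lam₁ * Real.log X.card - lam₂ * Real.log Z.card -
          g * (576 * R₁ ^ 2) * nsM M₁ D ≤ w₁ * FI M₁ al X D + w₂ * FI M₂ be Z D := by
  classical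
  intro n
  induction n using Nat.strong_induction_on with
  | _ n ih =>
  intro D hcard hDne hpos X hX Z hZ
  have hR1 := S₁.hR
  have hR2 := S₂.hR
  have hR10 : 0 < R₁ := by linarith
  have hR20 : 0 < R₂ := by linarith
  have hg0 := S₁.hg0
  have hw1 := S₁.hw
  have hw2 := S₂.hw
  have hlam1 := S₁.hlam0
  have hlam2 := S₂.hlam0
  have hε0 := P.hε0
  have hε1 := P.hε1
  have hX1 : (1 : ℝ) ≤ X.card := by exact_mod_cast card_pos.2 hX
  have hZ1 : (1 : ℝ) ≤ Z.card := by exact_mod_cast card_pos.2 hZ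
  have hlX : 0 ≤ Real.log X.card := Real.log_nonneg hX1
  have hlZ : 0 ≤ Real.log Z.card := Real.log_nonneg hZ1
  by_cases h1 : D.card = 1
  · -- base
    rw [h1]
    have h2 := mul_nonneg hw1.le (FI_nonneg M₁ al X D)
    have h3 := mul_nonneg hw2.le (FI_nonneg M₂ be Z D)
    have h4 : 0 ≤ lam₁ * Real.log X.card := mul_nonneg hlam1.le hlX
    have h4' : 0 ≤ lam₂ * Real.log Z.card := mul_nonneg hlam2.le hlZ
    have h5 : 0 ≤ g * (576 * R₁ ^ 2) * (nsM M₁ D : ℝ) := by positivity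
    simp only [Nat.cast_one, Real.log_one, mul_zero]
    linarith
  · have h2 : 1 < D.card := by
      have := card_pos.2 hDne
      omega
    -- a prime whose valuation is not constant
    obtain ⟨y₁, hy₁, y₂, hy₂, hne⟩ := one_lt_card.1 h2
    obtain ⟨q, hq⟩ : ∃ q, y₁.factorization q ≠ y₂.factorization q := by
      by_contra hcon
      push Not at hcon
      exact hne (Nat.eq_of_factorization_eq (hpos _ hy₁).ne' (hpos _ hy₂).ne' hcon)
    have hqp : q.Prime := by
      by_contra hqp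
      rw [Nat.factorization_eq_zero_of_not_prime _ hqp,
        Nat.factorization_eq_zero_of_not_prime _ hqp] at hq
      exact hq rfl
    obtain ⟨ym, hym, hmin⟩ := exists_min_image D (fun y => y.factorization q) hDne
    set l := ym.factorization q with hl
    set D₀ := D.filter (fun y => y.factorization q = l) with hD₀
    set D₁ := D.filter (fun y => ¬ y.factorization q = l) with hD₁
    have hdis : Disjoint D₁ D₀ := (disjoint_filter_filter_not D D _).symm
    have hun : D = D₁ ∪ D₀ := by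
      rw [union_comm]; exact (filter_union_filter_not_eq _ D).symm
    have hun' : D = D₀ ∪ D₁ := (filter_union_filter_not_eq _ D).symm
    have h₀ : D₀.Nonempty := ⟨ym, mem_filter.2 ⟨hym, rfl⟩⟩
    have h₁ : D₁.Nonempty := by
      by_contra hcon
      rw [not_nonempty_iff_eq_empty] at hcon
      have hall : ∀ y ∈ D, y.factorization q = l := by
        intro y hy
        by_contra hy'
        have : y ∈ D₁ := mem_filter.2 ⟨hy, hy'⟩
        rw [hcon] at this
        exact notMem_empty _ this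
      exact hq ((hall y₁ hy₁).trans (hall y₂ hy₂).symm)
    have hD₀v : ∀ y ∈ D₀, y.factorization q = l := fun y hy => (mem_filter.1 hy).2
    have hD₁v : ∀ y ∈ D₁, l < y.factorization q := fun y hy =>
      lt_of_le_of_ne (hmin y (mem_filter.1 hy).1) (Ne.symm (mem_filter.1 hy).2)
    have hsub0 : D₀ ⊆ D := filter_subset _ _
    have hsub1 : D₁ ⊆ D := filter_subset _ _
    have hp1 : (0 : ℝ) < D₁.card := by exact_mod_cast card_pos.2 h₁
    have hp0 : (0 : ℝ) < D₀.card := by exact_mod_cast card_pos.2 h₀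
    have hsumN : D.card = D₁.card + D₀.card := by
      rw [hun, card_union_of_disjoint hdis]
    have hsum : (D.card : ℝ) = D₁.card + D₀.card := by exact_mod_cast hsumN
    have hpD : (0 : ℝ) < D.card := by linarith
    have hlt1 : D₁.card < n := by
      have := card_pos.2 h₀
      omega
    have hlt0 : D₀.card < n := by
      have := card_pos.2 h₁
      omega
    -- arithmetic of the two homomorphisms
    have hA1 : ∀ y ∈ D₁, piA q l (al y) = 0 := by
      intro y hy
      rw [piA_al, ZMod.natCast_eq_zero_iff]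
      exact (hqp.pow_dvd_iff_le_factorization (hpos y (hsub1 hy)).ne').2 (hD₁v y hy)
    have hA0m : ∀ y ∈ D₀, ∀ j : ℕ, 1 ≤ j → ¬ q ∣ j → j • (piA q l (al y) - 0) ≠ 0 := by
      intro y hy j hj1 hj2 h
      rw [sub_zero, piA_al, nsmul_eq_mul, ← Nat.cast_mul, ZMod.natCast_eq_zero_iff] at h
      have hy0 : y ≠ 0 := (hpos y (hsub0 hy)).ne'
      have h3 := (hqp.pow_dvd_iff_le_factorization (mul_ne_zero (by omega) hy0)).1 h
      rw [Nat.factorization_mul (by omega) hy0] at h3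
      simp only [Finsupp.coe_add, Pi.add_apply] at h3
      rw [hD₀v y hy, Nat.factorization_eq_zero_of_not_dvd (n := j) (p := q) hj2] at h3
      omega
    have hA0 : ∀ y ∈ D₀, ∀ j : ℕ, 1 ≤ j → (j < q) → j • (piA q l (al y) - 0) ≠ 0 := by
      intro y hy j hj1 hj2
      exact hA0m y hy j hj1 (fun hd => absurd (Nat.le_of_dvd (by omega) hd) (by omega))
    have hB0 : ∀ y ∈ D₀, piB q (be y) = (l : ℤ) := by
      intro y hy
      rw [piB_be, hD₀v y hy]
    have hB1 : ∀ y ∈ D₁, ∀ j : ℕ, 1 ≤ j → j • (piB q (be y) - (l : ℤ)) ≠ 0 := by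
      intro y hy j hj1 h
      rw [piB_be, nsmul_eq_mul, mul_eq_zero] at h
      have := hD₁v y hy
      rcases h with h | h
      · have : j = 0 := by exact_mod_cast h
        omega
      · omega
    -- induction hypotheses
    have ih1 : g * Real.log D₁.card - lam₁ * Real.log X.card - lam₂ * Real.log Z.card -
          g * (576 * R₁ ^ 2) * nsM M₁ D₁ + lam₁ * (Ent (piA q l) X / X.card) ≤
        w₁ * FI M₁ al X D₁ + w₂ * FI M₂ be Z D₁ := by
      have h3 := classes_FI S₁.hM1 (α := al) (piA q l) hX h₁ hA1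
        (w := (g * Real.log D₁.card - lam₂ * Real.log Z.card -
          g * (576 * R₁ ^ 2) * nsM M₁ D₁ - w₂ * FI M₂ be Z D₁) / w₁) (lam := lam₁ / w₁) (by
          intro X' _ hne
          have h4 := ih D₁.card hlt1 D₁ rfl h₁ (fun y hy => hpos y (hsub1 hy)) X' hne Z hZ
          rw [div_mul_eq_mul_div, ← sub_div, div_le_iff₀ hw1]
          linarith)
      rw [div_mul_eq_mul_div, div_mul_eq_mul_div, ← sub_div, ← add_div, div_le_iff₀ hw1] at h3
      linarith
    have ih0 : g * Real.log D₀.card - lam₁ * Real.log X.card - lam₂ * Real.log Z.card -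
          g * (576 * R₁ ^ 2) * nsM M₁ D₀ + lam₂ * (Ent (piB q) Z / Z.card) ≤
        w₁ * FI M₁ al X D₀ + w₂ * FI M₂ be Z D₀ := by
      have h3 := classes_FI S₂.hM1 (α := be) (piB q) hZ h₀ hB0
        (w := (g * Real.log D₀.card - lam₁ * Real.log X.card -
          g * (576 * R₁ ^ 2) * nsM M₁ D₀ - w₁ * FI M₁ al X D₀) / w₂) (lam := lam₂ / w₂) (by
          intro Z' _ hne
          have h4 := ih D₀.card hlt0 D₀ rfl h₀ (fun y hy => hpos y (hsub0 hy)) X hX Z' hne
          rw [div_mul_eq_mul_div, ← sub_div, div_le_iff₀ hw2]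
          linarith)
      rw [div_mul_eq_mul_div, div_mul_eq_mul_div, ← sub_div, ← add_div, div_le_iff₀ hw2] at h3
      linarith
    obtain ⟨η₁, hη₁⟩ : ∃ η : ℝ, η = D₁.card / D.card := ⟨_, rfl⟩
    obtain ⟨η₀, hη₀⟩ : ∃ η : ℝ, η = D₀.card / D.card := ⟨_, rfl⟩
    have hη1p : 0 < η₁ := by rw [hη₁]; exact div_pos hp1 hpD
    have hη0p : 0 < η₀ := by rw [hη₀]; exact div_pos hp0 hpD
    have hηs : η₁ + η₀ = 1 := by
      rw [hη₁, hη₀, ← add_div, ← hsum, div_self hpD.ne']
    have hlog : Real.log D.card = η₁ * Real.log D₁.card + η₀ * Real.log D₀.card + hh η₁ η₀ := by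
      have e1 : Real.log η₁ = Real.log D₁.card - Real.log D.card := by
        rw [hη₁, Real.log_div hp1.ne' hpD.ne']
      have e0 : Real.log η₀ = Real.log D₀.card - Real.log D.card := by
        rw [hη₀, Real.log_div hp0.ne' hpD.ne']
      unfold hh
      rw [e1, e0]
      have : η₁ = 1 - η₀ := by linarith
      rw [this]
      ring
    have he1 : 0 ≤ Ent (piA q l) X / X.card := div_nonneg (Ent_nonneg _ _) (Nat.cast_nonneg _)
    have he0 : 0 ≤ Ent (piB q) Z / Z.card := div_nonneg (Ent_nonneg _ _) (Nat.cast_nonneg _)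
    have hns1 : (nsM M₁ D₁ : ℝ) ≤ nsM M₁ D := by exact_mod_cast nsM_mono hsub1
    have hns0 : (nsM M₁ D₀ : ℝ) ≤ nsM M₁ D := by exact_mod_cast nsM_mono hsub0
    have hG0 : 0 ≤ g * (576 * R₁ ^ 2) := by positivity
    have hGs : 0 ≤ g * (576 * R₁ ^ 2) * (nsM M₁ D - η₁ * nsM M₁ D₁ - η₀ * nsM M₁ D₀) := by
      apply mul_nonneg hG0
      have m1 := mul_le_mul_of_nonneg_left hns1 hη1p.le
      have m0 := mul_le_mul_of_nonneg_left hns0 hη0p.le
      have : η₁ * (nsM M₁ D : ℝ) + η₀ * nsM M₁ D = nsM M₁ D := by rw [← add_mul, hηs, one_mul]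
      linarith
    have hsupA : η₁ * (w₁ * FI M₁ al X D₁) + η₀ * (w₁ * FI M₁ al X D₀) ≤ w₁ * FI M₁ al X D := by
      have h3 := FI_super (M := M₁) (α := al) hX hdis hun h₁ h₀
      rw [← hη₁, ← hη₀] at h3
      have h4 := mul_le_mul_of_nonneg_left h3 hw1.le
      linarith
    have hsupB : η₀ * (w₂ * FI M₂ be Z D₀) + η₁ * (w₂ * FI M₂ be Z D₁) ≤ w₂ * FI M₂ be Z D := by
      have h3 := FI_super (M := M₂) (α := be) hZ hdis.symm hun' h₀ h₁
      rw [← hη₁, ← hη₀] at h3
      have h4 := mul_le_mul_of_nonneg_left h3 hw2.le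
      linarith
    have hcA : 0 ≤ lam₁ * η₁ * (Ent (piA q l) X / X.card) := by positivity
    have hcB : 0 ≤ lam₂ * η₀ * (Ent (piB q) Z / Z.card) := by positivity
    apply combine hηs hη1p.le hη0p.le ih1 ih0 hlog
    by_cases hc0 : η₀ ≤ 1 / (576 * R₁ ^ 2)
    · -- D₀ is rare: sums
      have h3 := FI_rare S₁.hM1 (piA q l) (α := al) hX hdis hun h₁ h₀ hA1
        ((Icc 1 M₁).filter (fun m => ¬ q ∣ m)) (filter_subset _ _) (mainB_half hqp.two_le)
        (by
          intro m hm y hy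
          rw [mem_filter, mem_Icc] at hm
          exact hA0m y hy m hm.1.1 hm.2)
        hR1 hlam1 S₁.hg S₁.hw3 (by rw [← hη₀]; exact hc0)
      rw [← hη₁, ← hη₀] at h3
      linarith
    by_cases hc1 : η₁ ≤ 1 / (576 * R₂ ^ 2)
    · -- D₁ is rare: products
      have h3 := FI_rare S₂.hM1 (piB q) (α := be) hZ hdis.symm hun' h₀ h₁ hB0
        (Icc 1 M₂) (subset_refl _) (by rw [Nat.card_Icc]; omega)
        (by
          intro m hm y hy
          rw [mem_Icc] at hm
          exact hB1 y hy m hm.1)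
        hR2 hlam2 S₂.hg S₂.hw3 (by rw [← hη₁]; exact hc1)
      rw [← hη₁, ← hη₀, hh_symm] at h3
      linarith
    push Not at hc0 hc1
    have hl2 : hh η₁ η₀ ≤ Real.log 2 := hh_le hηs
    have hlog2 : Real.log 2 ≤ 1 := by
      have := Real.log_two_lt_d9
      linarith
    have hgh : g * hh η₁ η₀ ≤ g := by
      calc g * hh η₁ η₀ ≤ g * 1 :=
            mul_le_mul_of_nonneg_left (hl2.trans hlog2) hg0.le
        _ = _ := mul_one _
    by_cases hqK : q ≤ M₁
    · -- small prime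
      have hlt : (nsM M₁ D₀ : ℝ) + 1 ≤ nsM M₁ D := by
        exact_mod_cast nsM_lt hsub0 hqp hqK ⟨y₁, hy₁, y₂, hy₂, hq⟩ hD₀v
      have h3 : g ≤ g * (576 * R₁ ^ 2) * (nsM M₁ D - η₁ * nsM M₁ D₁ - η₀ * nsM M₁ D₀) := by
        have m1 := mul_le_mul_of_nonneg_left hns1 hη1p.le
        have m0 := mul_le_mul_of_nonneg_left hlt hη0p.le
        have e1 : η₁ * (nsM M₁ D : ℝ) + η₀ * nsM M₁ D = nsM M₁ D := by
          rw [← add_mul, hηs, one_mul]
        have h4 : η₀ ≤ nsM M₁ D - η₁ * nsM M₁ D₁ - η₀ * nsM M₁ D₀ := by linarith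
        have h5 : 1 ≤ 576 * R₁ ^ 2 * (nsM M₁ D - η₁ * nsM M₁ D₁ - η₀ * nsM M₁ D₀) := by
          have h6 : 1 / (576 * R₁ ^ 2) ≤ nsM M₁ D - η₁ * nsM M₁ D₁ - η₀ * nsM M₁ D₀ := by
            linarith
          rw [div_le_iff₀ (by positivity)] at h6
          linarith
        have h7 := mul_le_mul_of_nonneg_left h5 hg0.le
        linarith
      linarith
    push Not at hqK
    have hgε : g = 1 - ε := P.hg
    have hA0q : ∀ y ∈ D₀, ∀ j : ℕ, 1 ≤ j → j < M₁ → j • (piA q l (al y) - 0) ≠ 0 :=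
      fun y hy j hj1 hj2 => hA0 y hy j hj1 (by omega)
    have hB1q : ∀ y ∈ D₁, ∀ j : ℕ, 1 ≤ j → j < M₂ → j • (piB q (be y) - (l : ℤ)) ≠ 0 :=
      fun y hy j hj1 _ => hB1 y hy j hj1
    -- large entropies pay
    have hbigB : ¬ Ent (piB q) Z / Z.card ≤ (1 - ε) * Real.log (ε * M₂ / 4) →
        g * (β * η₀) ≤ lam₂ * η₀ * (Ent (piB q) Z / Z.card) := by
      intro h
      push Not at h
      have h3 := mul_le_mul_of_nonneg_left h.le (show 0 ≤ lam₂ * η₀ by positivity)
      have h4 : lam₂ * η₀ * ((1 - ε) * Real.log (ε * M₂ / 4)) =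
          (1 - ε) * (lam₂ * Real.log (ε * M₂ / 4) * η₀) := by ring
      rw [h4, S₂.hlam, ← hgε] at h3
      exact h3
    have hbigA : ¬ Ent (piA q l) X / X.card ≤ (1 - ε) * Real.log (ε * M₁ / 4) →
        g * (α * η₁) ≤ lam₁ * η₁ * (Ent (piA q l) X / X.card) := by
      intro h
      push Not at h
      have h3 := mul_le_mul_of_nonneg_left h.le (show 0 ≤ lam₁ * η₁ by positivity)
      have h4 : lam₁ * η₁ * ((1 - ε) * Real.log (ε * M₁ / 4)) =
          (1 - ε) * (lam₁ * Real.log (ε * M₁ / 4) * η₁) := by ring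
      rw [h4, S₁.hlam, ← hgε] at h3
      exact h3
    have hκ0 := P.hκ0
    have hκ1 := P.hκ1
    by_cases hk1 : η₁ ≤ κ
    · -- D₁ is small: products
      by_cases heB : Ent (piB q) Z / Z.card ≤ (1 - ε) * Real.log (ε * M₂ / 4)
      · have h3 := S₂.mid hε0 hε1 (piB q) (α := be) hZ hdis.symm hun' h₀ h₁ hB0 hB1q heB
          (t := 1 / (576 * R₂ ^ 2) / 2) (by
            have h4 := S₂.hw2
            have h5 : w₂ * (1 / (576 * R₂ ^ 2) / 2) * ε = w₂ * ε / (2 * (576 * R₂ ^ 2)) := by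
              field_simp
            rw [h5, le_div_iff₀ (by positivity)]
            linarith) (by
            rw [← hη₁, ← hη₀]
            have h4 : 1 / 2 ≤ η₀ := by linarith
            have h5 : 1 / 2 * (1 / (576 * R₂ ^ 2)) ≤ η₀ * η₁ :=
              mul_le_mul h4 hc1.le (by positivity) hη0p.le
            linarith)
        rw [← hη₁, ← hη₀] at h3
        linarith
      · have h3 := hbigB heB
        have h4 := P.h1 η₁ η₀ hη1p hη0p hηs hk1
        have h5 := mul_le_mul_of_nonneg_left h4 hg0.le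
        linarith
    by_cases hk0 : η₀ ≤ κ
    · -- D₀ is small: sums
      by_cases heA : Ent (piA q l) X / X.card ≤ (1 - ε) * Real.log (ε * M₁ / 4)
      · have h3 := S₁.mid hε0 hε1 (piA q l) (α := al) hX hdis hun h₁ h₀ hA1 hA0q heA
          (t := 1 / (576 * R₁ ^ 2) / 2) (by
            have h4 := S₁.hw2
            have h5 : w₁ * (1 / (576 * R₁ ^ 2) / 2) * ε = w₁ * ε / (2 * (576 * R₁ ^ 2)) := by
              field_simp
            rw [h5, le_div_iff₀ (by positivity)]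
            linarith) (by
            rw [← hη₁, ← hη₀]
            have h4 : 1 / 2 ≤ η₁ := by linarith
            have h5 : 1 / 2 * (1 / (576 * R₁ ^ 2)) ≤ η₁ * η₀ :=
              mul_le_mul h4 hc0.le (by positivity) hη1p.le
            linarith)
        rw [← hη₁, ← hη₀] at h3
        linarith
      · have h3 := hbigA heA
        have h4 := P.h2 η₁ η₀ hη1p hη0p hηs hk0
        have h5 := mul_le_mul_of_nonneg_left h4 hg0.le
        linarith
    push Not at hk1 hk0
    have hprod : κ / 2 ≤ η₁ * η₀ := by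
      rcases le_total η₁ η₀ with h | h
      · have h4 : 1 / 2 ≤ η₀ := by linarith
        have := mul_le_mul hk1.le h4 (by norm_num) hη1p.le
        linarith
      · have h4 : 1 / 2 ≤ η₁ := by linarith
        have := mul_le_mul h4 hk0.le hκ0.le hη1p.le
        linarith
    by_cases heA : Ent (piA q l) X / X.card ≤ (1 - ε) * Real.log (ε * M₁ / 4)
    · have h3 := S₁.mid hε0 hε1 (piA q l) (α := al) hX hdis hun h₁ h₀ hA1 hA0q heA
        (t := κ / 2) (by
          have h4 := S₁.hw1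
          linarith) (by
          rw [← hη₁, ← hη₀]
          exact hprod)
      rw [← hη₁, ← hη₀] at h3
      linarith
    by_cases heB : Ent (piB q) Z / Z.card ≤ (1 - ε) * Real.log (ε * M₂ / 4)
    · have h3 := S₂.mid hε0 hε1 (piB q) (α := be) hZ hdis.symm hun' h₀ h₁ hB0 hB1q heB
        (t := κ / 2) (by
          have h4 := S₂.hw1
          linarith) (by
          rw [← hη₁, ← hη₀, mul_comm]
          exact hprod)
      rw [← hη₁, ← hη₀] at h3
      linarith
    -- both entropies are large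
    have h5 := hbigA heA
    have h6 := hbigB heB
    have h7 := gibbs P.hab hη1p hη0p hηs
    have h8 := mul_le_mul_of_nonneg_left h7 hg0.le
    rw [mul_add] at h8
    linarith

end Pool.Agent.Helper24.ES
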