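import Pool.Agent.Helper24.ES.SideT
import Pool.Agent.Helper24.ES.MainB

set_option autoImplicit false

/-!
MP_120218_co, squad ES: the main induction for theorem T.
-/

open Finset
open Pool.Agent.Helper84.SP

namespace Pool.Agent.Helper24.ES

/-- parameters of theorem T -/
structure PT (ε g lam₁ lam₂ R₁ R₂ Lam K T : ℝ) (M : ℕ) : Prop where
  hε0 : 0 < ε
  hε1 : ε ≤ 1 / 2
  hg : g = 1 - ε
  hlam1 : 0 < lam₁
  hlam2 : 0 < lam₂
  hR1 : 1 ≤ R₁
  hgR1 : lam₁ * R₁ = g
  hR2 : 1 ≤ R₂
  hgR2 : g ≤ lam₂ * R₂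
  hLam : Real.log (8 * R₂) + 3 + Real.log (1 / ε) ≤ Lam
  hLam0 : 0 ≤ Lam
  hK : ∀ u : ℝ, K ≤ u → Real.log (8 * R₂) + Real.log u + 3 ≤ ε * u
  hsm1 : ∀ u : ℝ, 2 * Lam + 49 ≤ u → R₂ * Real.exp (-u) * u ^ 2 ≤ 1 / 8
  hsm2 : ∀ u : ℝ, K ≤ u → R₂ * Real.exp (-u) * u ^ 2 ≤ 1 / 8
  hT : 1 < T
  hlT : 4 * Lam + 100 ≤ lam₁ * Real.log T
  hK0 : 0 ≤ K
  hTM : 8 * T * Real.exp K ≤ M

theorem mainT {ε g lam₁ lam₂ R₁ R₂ Lam K T : ℝ} {M : ℕ}
    (P : PT ε g lam₁ lam₂ R₁ R₂ Lam K T M) :
    ∀ n : ℕ, ∀ D : Finset ℕ, D.card = n → D.Nonempty → (∀ y ∈ D, 0 < y) →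
      ∀ X : Finset ℤ, X.Nonempty → ∀ Z : Finset (ℕ →₀ ℤ), Z.Nonempty →
        g * Real.log D.card - lam₁ * Real.log X.card - lam₂ * Real.log Z.card -
          g * (576 * R₁ ^ 2) * nsM M D ≤ 400 * FI M al X D + I be Z D := by
  classical
  intro n
  induction n using Nat.strong_induction_on with
  | _ n ih =>
  intro D hcard hDne hpos X hX Z hZ
  have hR1 := P.hR1
  have hR2 := P.hR2
  have hR10 : 0 < R₁ := by linarith
  have hε0 := P.hε0
  have hgdef := P.hg
  have hε1 := P.hε1
  have hg0 : 0 < g := by linarith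
  have hg1 : g ≤ 1 := by linarith
  have hlam1 := P.hlam1
  have hlam2 := P.hlam2
  have hT := P.hT
  have hK0 := P.hK0
  have hLam0 := P.hLam0
  have hlT := P.hlT
  have hexpK : 1 ≤ Real.exp K := Real.one_le_exp hK0
  have hTM := P.hTM
  have hTM8 : 8 * T ≤ M := by
    refine le_trans ?_ hTM
    exact le_mul_of_one_le_right (by linarith) hexpK
  have hM8 : (8 : ℝ) < M := by linarith
  have hM1 : 1 ≤ M := by
    have : (1 : ℝ) < M := by linarith
    exact_mod_cast this.le
  have hX1 : (1 : ℝ) ≤ X.card := by exact_mod_cast card_pos.2 hX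
  have hZ1 : (1 : ℝ) ≤ Z.card := by exact_mod_cast card_pos.2 hZ
  have hlX : 0 ≤ Real.log X.card := Real.log_nonneg hX1
  have hlZ : 0 ≤ Real.log Z.card := Real.log_nonneg hZ1
  by_cases h1 : D.card = 1
  · -- base
    rw [h1]
    have h2 := FI_nonneg M al X D
    have h3 := I_nonneg be Z D
    have h4 : 0 ≤ lam₁ * Real.log X.card := mul_nonneg hlam1.le hlX
    have h4' : 0 ≤ lam₂ * Real.log Z.card := mul_nonneg hlam2.le hlZ
    have h5 : 0 ≤ g * (576 * R₁ ^ 2) * (nsM M D : ℝ) := by positivity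
    simp only [Nat.cast_one, Real.log_one, mul_zero]
    linarith
  · have h2 : 1 < D.card := by
      have := card_pos.2 hDne
      omega
    -- a prime whose valuation is not constant
    obtain ⟨y₁, hy₁, y₂, hy₂, hne⟩ := one_lt_card.1 h2
    obtain ⟨q, hq⟩ : ∃ q, y₁.factorization q ≠ y₂.factorization q := by
      by_contra hcon
      push Not at hcon
      exact hne (Nat.eq_of_factorization_eq (hpos _ hy₁).ne' (hpos _ hy₂).ne' hcon)
    have hqp : q.Prime := by
      by_contra hqp
      rw [Nat.factorization_eq_zero_of_not_prime _ hqp,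
        Nat.factorization_eq_zero_of_not_prime _ hqp] at hq
      exact hq rfl
    obtain ⟨ym, hym, hmin⟩ := exists_min_image D (fun y => y.factorization q) hDne
    set l := ym.factorization q with hl
    set D₀ := D.filter (fun y => y.factorization q = l) with hD₀
    set D₁ := D.filter (fun y => ¬ y.factorization q = l) with hD₁
    have hdis : Disjoint D₁ D₀ := (disjoint_filter_filter_not D D _).symm
    have hun : D = D₁ ∪ D₀ := by
      rw [union_comm]; exact (filter_union_filter_not_eq _ D).symm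
    have hun' : D = D₀ ∪ D₁ := (filter_union_filter_not_eq _ D).symm
    have h₀ : D₀.Nonempty := ⟨ym, mem_filter.2 ⟨hym, rfl⟩⟩
    have h₁ : D₁.Nonempty := by
      by_contra hcon
      rw [not_nonempty_iff_eq_empty] at hcon
      have hall : ∀ y ∈ D, y.factorization q = l := by
        intro y hy
        by_contra hy'
        have : y ∈ D₁ := mem_filter.2 ⟨hy, hy'⟩
        rw [hcon] at this
        exact notMem_empty _ this
      exact hq ((hall y₁ hy₁).trans (hall y₂ hy₂).symm)
    have hD₀v : ∀ y ∈ D₀, y.factorization q = l := fun y hy => (mem_filter.1 hy).2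
    have hD₁v : ∀ y ∈ D₁, l < y.factorization q := fun y hy =>
      lt_of_le_of_ne (hmin y (mem_filter.1 hy).1) (Ne.symm (mem_filter.1 hy).2)
    have hsub0 : D₀ ⊆ D := filter_subset _ _
    have hsub1 : D₁ ⊆ D := filter_subset _ _
    have hp1 : (0 : ℝ) < D₁.card := by exact_mod_cast card_pos.2 h₁
    have hp0 : (0 : ℝ) < D₀.card := by exact_mod_cast card_pos.2 h₀
    have hsumN : D.card = D₁.card + D₀.card := by
      rw [hun, card_union_of_disjoint hdis]
    have hsum : (D.card : ℝ) = D₁.card + D₀.card := by exact_mod_cast hsumN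
    have hpD : (0 : ℝ) < D.card := by linarith
    have hlt1 : D₁.card < n := by
      have := card_pos.2 h₀
      omega
    have hlt0 : D₀.card < n := by
      have := card_pos.2 h₁
      omega
    -- arithmetic of the two homomorphisms
    have hA1 : ∀ y ∈ D₁, piA q l (al y) = 0 := by
      intro y hy
      rw [piA_al, ZMod.natCast_eq_zero_iff]
      exact (hqp.pow_dvd_iff_le_factorization (hpos y (hsub1 hy)).ne').2 (hD₁v y hy)
    have hA0d : ∀ y ∈ D₀, ∀ j : ℕ, 1 ≤ j → ¬ q ∣ j → j • (piA q l (al y) - 0) ≠ 0 := by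
      intro y hy j hj1 hj2 h
      rw [sub_zero, piA_al, nsmul_eq_mul, ← Nat.cast_mul, ZMod.natCast_eq_zero_iff] at h
      have hy0 : y ≠ 0 := (hpos y (hsub0 hy)).ne'
      have h3 := (hqp.pow_dvd_iff_le_factorization (mul_ne_zero (by omega) hy0)).1 h
      rw [Nat.factorization_mul (by omega) hy0] at h3
      simp only [Finsupp.coe_add, Pi.add_apply] at h3
      rw [hD₀v y hy, Nat.factorization_eq_zero_of_not_dvd (n := j) (p := q) hj2] at h3
      omega
    have hB0 : ∀ y ∈ D₀, piB q (be y) = (l : ℤ) := by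
      intro y hy
      rw [piB_be, hD₀v y hy]
    have hB1' : ∀ y ∈ D₁, piB q (be y) ≠ (l : ℤ) := by
      intro y hy
      rw [piB_be]
      have := hD₁v y hy
      omega
    -- induction hypotheses
    have ih1 : g * Real.log D₁.card - lam₁ * Real.log X.card - lam₂ * Real.log Z.card -
          g * (576 * R₁ ^ 2) * nsM M D₁ + lam₁ * (Ent (piA q l) X / X.card) ≤
        400 * FI M al X D₁ + I be Z D₁ := by
      have h3 := classes_FI (α := al) hM1 (piA q l) hX h₁ hA1
        (w := (g * Real.log D₁.card - lam₂ * Real.log Z.card -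
          g * (576 * R₁ ^ 2) * nsM M D₁ - I be Z D₁) / 400) (lam := lam₁ / 400) (by
          intro X' _ hne
          have h4 := ih D₁.card hlt1 D₁ rfl h₁ (fun y hy => hpos y (hsub1 hy)) X' hne Z hZ
          rw [div_mul_eq_mul_div, ← sub_div, div_le_iff₀ (by norm_num)]
          linarith)
      rw [div_mul_eq_mul_div, div_mul_eq_mul_div, ← sub_div, ← add_div,
        div_le_iff₀ (by norm_num)] at h3
      linarith
    have ih0 : g * Real.log D₀.card - lam₁ * Real.log X.card - lam₂ * Real.log Z.card -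
          g * (576 * R₁ ^ 2) * nsM M D₀ + lam₂ * (Ent (piB q) Z / Z.card) ≤
        400 * FI M al X D₀ + I be Z D₀ := by
      have h3 := classes_I (α := be) (piB q) hZ h₀ hB0
        (w := g * Real.log D₀.card - lam₁ * Real.log X.card -
          g * (576 * R₁ ^ 2) * nsM M D₀ - 400 * FI M al X D₀) (lam := lam₂) (by
          intro Z' _ hne
          have h4 := ih D₀.card hlt0 D₀ rfl h₀ (fun y hy => hpos y (hsub0 hy)) X hX Z' hne
          linarith)
      linarith
    obtain ⟨η₁, hη₁⟩ : ∃ η : ℝ, η = D₁.card / D.card := ⟨_, rfl⟩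
    obtain ⟨η₀, hη₀⟩ : ∃ η : ℝ, η = D₀.card / D.card := ⟨_, rfl⟩
    have hη1p : 0 < η₁ := by rw [hη₁]; exact div_pos hp1 hpD
    have hη0p : 0 < η₀ := by rw [hη₀]; exact div_pos hp0 hpD
    have hηs : η₁ + η₀ = 1 := by
      rw [hη₁, hη₀, ← add_div, ← hsum, div_self hpD.ne']
    have hlog : Real.log D.card = η₁ * Real.log D₁.card + η₀ * Real.log D₀.card + hh η₁ η₀ := by
      have e1 : Real.log η₁ = Real.log D₁.card - Real.log D.card := by
        rw [hη₁, Real.log_div hp1.ne' hpD.ne']
      have e0 : Real.log η₀ = Real.log D₀.card - Real.log D.card := by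
        rw [hη₀, Real.log_div hp0.ne' hpD.ne']
      unfold hh
      rw [e1, e0]
      have : η₁ = 1 - η₀ := by linarith
      rw [this]
      ring
    have he1 : 0 ≤ Ent (piA q l) X / X.card := div_nonneg (Ent_nonneg _ _) (Nat.cast_nonneg _)
    have he0 : 0 ≤ Ent (piB q) Z / Z.card := div_nonneg (Ent_nonneg _ _) (Nat.cast_nonneg _)
    have hns1 : (nsM M D₁ : ℝ) ≤ nsM M D := by exact_mod_cast nsM_mono hsub1
    have hns0 : (nsM M D₀ : ℝ) ≤ nsM M D := by exact_mod_cast nsM_mono hsub0
    have hG0 : 0 ≤ g * (576 * R₁ ^ 2) := by positivity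
    have hGs : 0 ≤ g * (576 * R₁ ^ 2) * (nsM M D - η₁ * nsM M D₁ - η₀ * nsM M D₀) := by
      apply mul_nonneg hG0
      have m1 := mul_le_mul_of_nonneg_left hns1 hη1p.le
      have m0 := mul_le_mul_of_nonneg_left hns0 hη0p.le
      have : η₁ * (nsM M D : ℝ) + η₀ * nsM M D = nsM M D := by rw [← add_mul, hηs, one_mul]
      linarith
    have hsupA : η₁ * (400 * FI M al X D₁) + η₀ * (400 * FI M al X D₀) ≤
        400 * FI M al X D := by
      have h3 := FI_super (M := M) (α := al) hX hdis hun h₁ h₀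
      rw [← hη₁, ← hη₀] at h3
      linarith
    have hsupB : η₀ * I be Z D₀ + η₁ * I be Z D₁ ≤ I be Z D := by
      have h3 := I_super (α := be) hZ hdis.symm hun' h₀ h₁
      rw [← hη₁, ← hη₀] at h3
      exact h3
    have hcA : 0 ≤ lam₁ * η₁ * (Ent (piA q l) X / X.card) := by positivity
    have hcB : 0 ≤ lam₂ * η₀ * (Ent (piB q) Z / Z.card) := by positivity
    have hl2 : hh η₁ η₀ ≤ Real.log 2 := hh_le hηs
    have hlog2 : Real.log 2 ≤ 7 / 10 := by
      have := Real.log_two_lt_d9
      linarith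
    have hhh0 : 0 ≤ hh η₁ η₀ := by
      unfold hh
      have a1 : η₁ * Real.log η₁ ≤ 0 :=
        mul_nonpos_of_nonneg_of_nonpos hη1p.le (Real.log_nonpos hη1p.le (by linarith))
      have a0 : η₀ * Real.log η₀ ≤ 0 :=
        mul_nonpos_of_nonneg_of_nonpos hη0p.le (Real.log_nonpos hη0p.le (by linarith))
      linarith
    have hghh : g * hh η₁ η₀ ≤ hh η₁ η₀ := mul_le_of_le_one_left hhh0 hg1
    have hgh : g * hh η₁ η₀ ≤ g := by
      calc g * hh η₁ η₀ ≤ g * 1 :=
            mul_le_mul_of_nonneg_left (hl2.trans (by linarith)) hg0.le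
        _ = _ := mul_one _
    apply combine hηs hη1p.le hη0p.le ih1 ih0 hlog
    by_cases hc0 : η₀ ≤ 1 / (576 * R₁ ^ 2)
    · -- D₀ is rare: sums
      have hBc : M ≤ 2 * ((Icc 1 M).filter (fun m => ¬ q ∣ m)).card := by
        have h3 := card_filter_add_card_filter_not (s := Icc 1 M) (fun m => q ∣ m)
        have h4 : ((Icc 1 M).filter (fun m => q ∣ m)).card = M / q := by
          have h5 := Nat.Ioc_filter_dvd_card_eq_div M q
          have h6 : Icc 1 M = Ioc 0 M := by
            ext m
            simp only [mem_Icc, mem_Ioc]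
            omega
          rw [h6]
          exact h5
        have h5 : M / q ≤ M / 2 := Nat.div_le_div_left hqp.two_le (by norm_num)
        rw [h4, Nat.card_Icc] at h3
        omega
      have h3 := FI_rare hM1 (piA q l) (α := al) hX hdis hun h₁ h₀ hA1
        ((Icc 1 M).filter (fun m => ¬ q ∣ m)) (filter_subset _ _) hBc
        (fun m hm y hy => by
          rw [mem_filter, mem_Icc] at hm
          exact hA0d y hy m hm.1.1 hm.2)
        hR1 hlam1 P.hgR1 (w := 400) (by linarith) (by rw [← hη₀]; exact hc0)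
      rw [← hη₁, ← hη₀] at h3
      linarith
    push Not at hc0
    by_cases hqM : q ≤ M
    · -- small prime
      have hlt : (nsM M D₀ : ℝ) + 1 ≤ nsM M D := by
        exact_mod_cast nsM_lt hsub0 hqp hqM ⟨y₁, hy₁, y₂, hy₂, hq⟩ hD₀v
      have h3 : g ≤ g * (576 * R₁ ^ 2) * (nsM M D - η₁ * nsM M D₁ - η₀ * nsM M D₀) := by
        have m1 := mul_le_mul_of_nonneg_left hns1 hη1p.le
        have m0 := mul_le_mul_of_nonneg_left hlt hη0p.le
        have e1 : η₁ * (nsM M D : ℝ) + η₀ * nsM M D = nsM M D := by rw [← add_mul, hηs, one_mul]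
        have h4 : η₀ ≤ nsM M D - η₁ * nsM M D₁ - η₀ * nsM M D₀ := by linarith
        have h5 : 1 ≤ 576 * R₁ ^ 2 * (nsM M D - η₁ * nsM M D₁ - η₀ * nsM M D₀) := by
          have h6 : 1 / (576 * R₁ ^ 2) ≤ nsM M D - η₁ * nsM M D₁ - η₀ * nsM M D₀ := by linarith
          rw [div_le_iff₀ (by positivity)] at h6
          linarith
        have h7 := mul_le_mul_of_nonneg_left h5 hg0.le
        linarith
      linarith
    push Not at hqM
    have hA0 : ∀ y ∈ D₀, ∀ j : ℕ, 1 ≤ j → j < M → j • (piA q l (al y) - 0) ≠ 0 :=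
      fun y hy j hj1 hj2 => hA0d y hy j hj1 (by
        intro hd
        exact absurd (Nat.le_of_dvd (by omega) hd) (by omega))
    by_cases hb : η₀ ≤ 1 / 16
    · have h3 := FI_minor0 (piA q l) (α := al) hX hdis hun h₁ h₀ hA1 hM1 hA0 (T := T)
        (lam := lam₁) (g := g) (w := 400) hT (by linarith) hlam1 (by linarith) hg0 hg1
        (by norm_num) (by rw [← hη₀]; exact hb)
      rw [← hη₁, ← hη₀] at h3
      linarith
    push Not at hb
    have hlogT : 0 < Real.log T := Real.log_pos hT
    obtain ⟨e, he⟩ : ∃ e : ℝ, e = Ent (piA q l) X / X.card := ⟨_, rfl⟩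
    by_cases hc : 1 / 16 < η₁
    · -- both parts are large
      by_cases heA : Ent (piA q l) X / X.card ≤ 1 / 2 * Real.log (M / 8)
      · have h3 := FI_mid (piA q l) (α := al) hX hdis hun h₁ h₀ hA1 hM1 hA0 (ε := 1 / 2)
          (by norm_num) (by norm_num) (by linarith) (by
            have e1 : (1 : ℝ) / 2 * M / 4 = M / 8 := by ring
            rw [e1]
            refine heA.trans (le_of_eq ?_)
            ring)
        rw [← hη₁, ← hη₀] at h3
        have h4 : 15 / 256 ≤ η₁ * η₀ := by
          have : 0 ≤ (η₁ - 1 / 16) * (η₀ - 1 / 16) :=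
            mul_nonneg (by linarith) (by linarith)
          nlinarith
        linarith
      · push Not at heA
        have h3 : Real.log T ≤ Real.log (M / 8) :=
          Real.log_le_log (by linarith) (by linarith)
        rw [← he] at heA hcA ⊢
        have h4 : lam₁ * Real.log T ≤ lam₁ * (2 * e) :=
          mul_le_mul_of_nonneg_left (by linarith) hlam1.le
        have h5 : 50 ≤ lam₁ * e := by linarith
        have h6 : 1 / 16 * 50 ≤ η₁ * (lam₁ * e) :=
          mul_le_mul hc.le h5 (by norm_num) hη1p.le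
        linarith
    push Not at hc
    -- the part D₁ is small
    obtain ⟨u, hu⟩ : ∃ u : ℝ, u = -Real.log η₁ := ⟨_, rfl⟩
    have hexpu : Real.exp (-u) = η₁ := by rw [hu, neg_neg, Real.exp_log hη1p]
    have hhu : hh η₁ η₀ ≤ η₁ * (u + 1) := by
      have h4 := Real.one_sub_inv_le_log_of_pos hη0p
      have h5 : η₀ * (1 - η₀⁻¹) ≤ η₀ * Real.log η₀ := mul_le_mul_of_nonneg_left h4 hη0p.le
      have h6 : η₀ * (1 - η₀⁻¹) = η₀ - 1 := by field_simp
      unfold hh
      rw [hu]
      linarith
    have hfull : ∀ hsm : R₂ * η₁ * u ^ 2 ≤ 1 / 8,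
        η₀ * I be Z D₀ + η₁ * I be Z D₁ + g * hh η₁ η₀ ≤
          I be Z D + lam₂ * η₀ * (Ent (piB q) Z / Z.card) +
            η₁ * max 0 (Real.log (8 * R₂) + Real.log u + 3 - ε * u) := by
      intro hsm
      have h3 := I_full2 (piB q) (α := be) hZ hdis.symm hun' h₀ h₁ hB0 hB1' hη₁ hu hc hR2 hsm
        hlam2 hg0 hg1 P.hgR2
      rw [← hη₁, ← hη₀, hh_symm] at h3
      have e1 : 1 - g = ε := by linarith
      rw [e1] at h3
      exact h3
    by_cases heA : Ent (piA q l) X / X.card ≤ 1 / 2 * Real.log T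
    · by_cases hdM : 8 * T ≤ η₁ * M
      · have h3 := FI_minor1 (piA q l) (α := al) hX hdis hun h₁ h₀ hA1 hM1 hA0 hT
          (by rw [← hη₁]; exact hdM) heA (by rw [← hη₁]; exact hc)
        rw [← hη₁, ← hη₀] at h3
        linarith
      · push Not at hdM
        -- the part D₁ is very small: products
        have hKu : K ≤ u := by
          have h3 : η₁ * (8 * T * Real.exp K) ≤ η₁ * M :=
            mul_le_mul_of_nonneg_left hTM hη1p.le
          have h4 : η₁ * Real.exp K < 1 := by
            have h5 : (8 * T) * (η₁ * Real.exp K) < (8 * T) * 1 := by linarith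
            exact lt_of_mul_lt_mul_left h5 (by linarith)
          rw [← hexpu, ← Real.exp_add, Real.exp_lt_one_iff] at h4
          linarith
        have h3 := hfull (by
          have := P.hsm2 u hKu
          rwa [hexpu] at this)
        have h4 := P.hK u hKu
        rw [max_eq_left (by linarith), mul_zero] at h3
        linarith
    · push Not at heA
      rw [← he] at heA hcA ⊢
      have h4 : lam₁ * Real.log T ≤ lam₁ * (2 * e) :=
        mul_le_mul_of_nonneg_left (by linarith) hlam1.le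
      have h5 : 2 * Lam + 50 ≤ lam₁ * e := by linarith
      have h6 : η₁ * (2 * Lam + 50) ≤ η₁ * (lam₁ * e) := mul_le_mul_of_nonneg_left h5 hη1p.le
      by_cases hu1 : u ≤ 2 * Lam + 49
      · have h7 : η₁ * (u + 1) ≤ η₁ * (2 * Lam + 50) :=
          mul_le_mul_of_nonneg_left (by linarith) hη1p.le
        linarith
      · push Not at hu1
        have h3 := hfull (by
          have := P.hsm1 u hu1.le
          rwa [hexpu] at this)
        have hu0 : 0 < u := by linarith
        have h7 : Real.log u - ε * u ≤ Real.log (1 / ε) := by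
          have h8 := Real.log_le_sub_one_of_pos (mul_pos hε0 hu0)
          rw [Real.log_mul hε0.ne' hu0.ne'] at h8
          rw [one_div, Real.log_inv]
          linarith
        have h9 := P.hLam
        have h10 : max 0 (Real.log (8 * R₂) + Real.log u + 3 - ε * u) ≤ Lam :=
          max_le hLam0 (by linarith)
        have h11 := mul_le_mul_of_nonneg_left h10 hη1p.le
        have h12 : 0 ≤ η₁ * Lam := mul_nonneg hη1p.le hLam0
        linarith

end Pool.Agent.Helper24.ES
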