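import Pool.Agent.Helper24.ES.Defs

set_option autoImplicit false

open Finset
open Pool.Agent.Helper84.SP

namespace Pool.Agent.Helper24.ES

variable {ι G Q : Type*} [AddCommGroup G] [DecidableEq G] [AddCommGroup Q] [DecidableEq Q]

omit [DecidableEq Q] in
theorem Node2_inj {M : ℕ} {c d : Q} (h : ∀ j : ℕ, 1 ≤ j → j < M → j • d ≠ 0)
    {m n : ℕ} (hm : m ∈ Icc 1 M) (hn : n ∈ Icc 1 M) (he : c + m • d = c + n • d) : m = n := by
  have key : ∀ m n : ℕ, m ∈ Icc 1 M → n ∈ Icc 1 M → c + m • d = c + n • d → n ≤ m := by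
    intro m n hm hn he
    by_contra hlt
    push Not at hlt
    rw [mem_Icc] at hm hn
    have h1 : m • d = n • d := add_left_cancel he
    have h2 : (n - m) • d = 0 := by
      have h3 : n • d = (n - m) • d + m • d := by
        rw [← add_nsmul]; congr 1; omega
      rw [h1] at h3
      exact (left_eq_add.1 (by rw [add_comm] at h3; exact h3))
    exact h (n - m) (by omega) (by omega) h2
  exact le_antisymm (key n m hn hm he.symm) (key m n hm hn he)

/-- Lemma D: on average over the dilates there are few hits. -/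
theorem hits_sum (π : G →+ Q) {α : ι → G} {X : Finset G} {D₀ : Finset ι} {a : Q} {M : ℕ}
    (ha0 : ∀ y ∈ D₀, ∀ j : ℕ, 1 ≤ j → j < M → j • (π (α y) - a) ≠ 0) (S : Finset Q) :
    ∑ m ∈ Icc 1 M, hits π (dil m α) X D₀ S (m • a) ≤ X.card * D₀.card * S.card := by
  have hd : ∀ (m : ℕ) (y : ι), π (dil m α y) - m • a = m • (π (α y) - a) := by
    intro m y
    unfold dil
    rw [map_nsmul, nsmul_sub]
  unfold hits
  rw [sum_comm]
  have hy : ∀ y ∈ D₀, ∑ m ∈ Icc 1 M,
      (X.filter (fun x => π x + (π (dil m α y) - m • a) ∈ S)).card ≤ X.card * S.card := by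
    intro y hyD
    have h1 : ∀ m ∈ Icc 1 M, (X.filter (fun x => π x + (π (dil m α y) - m • a) ∈ S)).card
        = ∑ x ∈ X, if π x + m • (π (α y) - a) ∈ S then 1 else 0 := by
      intro m _
      rw [card_filter]
      exact sum_congr rfl (fun x _ => by rw [hd])
    rw [sum_congr rfl h1, sum_comm]
    have h2 : ∀ x ∈ X, (∑ m ∈ Icc 1 M, if π x + m • (π (α y) - a) ∈ S then 1 else 0)
        ≤ S.card := by
      intro x _
      rw [← card_filter]
      apply card_le_card_of_injOn (fun m => π x + m • (π (α y) - a))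
      · intro m hm
        exact (mem_filter.1 (mem_coe.1 hm)).2
      · intro m hm n hn he
        exact Node2_inj (ha0 y hyD) (mem_filter.1 (mem_coe.1 hm)).1
          (mem_filter.1 (mem_coe.1 hn)).1 he
    calc _ ≤ ∑ x ∈ X, S.card := sum_le_sum h2
      _ = X.card * S.card := by rw [sum_const, smul_eq_mul]
  calc _ ≤ ∑ y ∈ D₀, X.card * S.card := sum_le_sum hy
    _ = X.card * D₀.card * S.card := by rw [sum_const, smul_eq_mul]; ring

/-- Lemma E: the popular classes. -/
theorem exists_pop (π : G →+ Q) {X : Finset G} (hX : X.Nonempty) {T : ℝ} (hT : 1 < T) :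
    ∃ S : Finset Q, (S.card : ℝ) ≤ T ∧
      (off π X S / X.card : ℝ) * Real.log T ≤ Ent π X / X.card := by
  classical
  have hXc : (0 : ℝ) < X.card := by exact_mod_cast card_pos.2 hX
  refine ⟨(X.image π).filter (fun c => (X.card : ℝ) ≤ T * ((cl π X c).card : ℝ)), ?_, ?_⟩
  · set S := (X.image π).filter (fun c => (X.card : ℝ) ≤ T * ((cl π X c).card : ℝ)) with hS
    have h1 : (S.card : ℝ) * X.card ≤ T * X.card := by
      calc (S.card : ℝ) * X.card = ∑ c ∈ S, (X.card : ℝ) := by rw [sum_const, nsmul_eq_mul]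
        _ ≤ ∑ c ∈ S, T * ((cl π X c).card : ℝ) :=
            sum_le_sum (fun c hc => (mem_filter.1 hc).2)
        _ = T * ∑ c ∈ S, ((cl π X c).card : ℝ) := by rw [mul_sum]
        _ ≤ T * X.card := mul_le_mul_of_nonneg_left (sum_cl_le π X S) (by linarith)
    exact le_of_mul_le_mul_right h1 hXc
  · set S := (X.image π).filter (fun c => (X.card : ℝ) ≤ T * ((cl π X c).card : ℝ)) with hS
    have hlog : 0 < Real.log T := Real.log_pos hT
    have h2 : (off π X S : ℝ) * Real.log T ≤ Ent π X := by
      unfold off Ent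
      calc (((X.filter (fun x => π x ∉ S)).card : ℕ) : ℝ) * Real.log T
          = ∑ x ∈ X.filter (fun x => π x ∉ S), Real.log T := by rw [sum_const, nsmul_eq_mul]
        _ ≤ ∑ x ∈ X.filter (fun x => π x ∉ S),
              Real.log ((X.card : ℝ) / ((cl π X (π x)).card : ℝ)) := by
            apply sum_le_sum
            intro x hx
            rw [mem_filter] at hx
            have hpos := cl_pos (π := π) hx.1
            have h3 : ¬ ((X.card : ℝ) ≤ T * ((cl π X (π x)).card : ℝ)) := by
              intro h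
              exact hx.2 (mem_filter.2 ⟨mem_image_of_mem π hx.1, h⟩)
            push Not at h3
            apply Real.log_le_log (by linarith)
            rw [le_div_iff₀ hpos]
            exact h3.le
        _ ≤ ∑ x ∈ X, Real.log ((X.card : ℝ) / ((cl π X (π x)).card : ℝ)) := by
            apply sum_le_sum_of_subset_of_nonneg (filter_subset _ _)
            intro x hx _
            apply Real.log_nonneg
            rw [le_div_iff₀ (cl_pos hx), one_mul]
            exact_mod_cast card_le_card (cl_subset π X (π x))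
    rw [div_mul_eq_mul_div]
    exact div_le_div_of_nonneg_right h2 hXc.le

end Pool.Agent.Helper24.ES
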