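import Pool.Agent.Helper24.ES.Node1
import Pool.Agent.Helper24.ES.Node2

set_option autoImplicit false

open Finset
open Pool.Agent.Helper84.SP

namespace Pool.Agent.Helper24.ES

variable {ι G Q : Type*} [AddCommGroup G] [DecidableEq G] [AddCommGroup Q] [DecidableEq Q]

/-- Lemma N + Lemma D: the averaged node lemma. -/
theorem FI_ind [DecidableEq ι] (π : G →+ Q) {α : ι → G} {X : Finset G} {D D₁ D₀ : Finset ι}
    (hX : X.Nonempty) (hdis : Disjoint D₁ D₀) (hD : D = D₁ ∪ D₀) (h₁ : D₁.Nonempty)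
    (h₀ : D₀.Nonempty) {a : Q} (ha1 : ∀ y ∈ D₁, π (α y) = a) {M : ℕ} (hM : 1 ≤ M)
    (ha0 : ∀ y ∈ D₀, ∀ j : ℕ, 1 ≤ j → j < M → j • (π (α y) - a) ≠ 0)
    (S : Finset Q) {q r η θ ρ : ℝ} (hq0 : 0 < q) (hq1 : q < 1)
    (hr0 : 0 < r) (hr1 : r < 1) (hη : η = D₁.card / D.card) (hθ : θ = D₀.card / D.card)
    (hρ : ρ = off π X S / X.card) :
    ∃ τ : ℝ, 0 ≤ τ ∧ τ ≤ 1 ∧ τ ≤ S.card / M ∧
    η * FI M α X D₁ + θ * FI M α X D₀ +
      (η * ((1 - ρ) * Real.log (q / η) + ρ * Real.log (r / η)) +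
        θ * (τ * Real.log ((1 - q) / θ) + (1 - τ) * Real.log ((1 - r) / θ))) ≤ FI M α X D := by
  have hMp : (0 : ℝ) < M := by exact_mod_cast hM
  have hp0 : (0 : ℝ) < D₀.card := by exact_mod_cast card_pos.2 h₀
  have hXp : (0 : ℝ) < X.card := by exact_mod_cast card_pos.2 hX
  have hXD : (0 : ℝ) < X.card * D₀.card := mul_pos hXp hp0
  obtain ⟨t, ht⟩ : ∃ t : ℕ → ℝ, ∀ m, t m =
      hits π (dil m α) X D₀ S (m • a) / (X.card * D₀.card) := ⟨_, fun _ => rfl⟩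
  have ht0 : ∀ m, 0 ≤ t m := fun m => by
    rw [ht]
    exact div_nonneg (Nat.cast_nonneg _) hXD.le
  have ht1 : ∀ m, t m ≤ 1 := fun m => by
    rw [ht, div_le_one hXD]
    have h1 : hits π (dil m α) X D₀ S (m • a) ≤ X.card * D₀.card := by
      unfold hits
      calc _ ≤ ∑ _y ∈ D₀, X.card := sum_le_sum fun y _ => card_filter_le _ _
        _ = X.card * D₀.card := by rw [sum_const, smul_eq_mul, mul_comm]
    exact_mod_cast h1
  have hcardM : ∑ _m ∈ Icc 1 M, (1 : ℝ) = M := by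
    rw [sum_const, Nat.card_Icc]
    simp
  refine ⟨(∑ m ∈ Icc 1 M, t m) / M, div_nonneg (sum_nonneg fun m _ => ht0 m) hMp.le, ?_, ?_, ?_⟩
  · rw [div_le_one hMp]
    calc ∑ m ∈ Icc 1 M, t m ≤ ∑ _m ∈ Icc 1 M, (1 : ℝ) := sum_le_sum fun m _ => ht1 m
      _ = M := hcardM
  · apply div_le_div_of_nonneg_right _ hMp.le
    have h1 := hits_sum π (α := α) (X := X) (D₀ := D₀) (a := a) (M := M) ha0 S
    have h2 : (∑ m ∈ Icc 1 M, (hits π (dil m α) X D₀ S (m • a) : ℝ)) ≤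
        X.card * D₀.card * S.card := by exact_mod_cast h1
    have h3 : ∑ m ∈ Icc 1 M, t m =
        (∑ m ∈ Icc 1 M, (hits π (dil m α) X D₀ S (m • a) : ℝ)) / (X.card * D₀.card) := by
      rw [sum_div]
      exact sum_congr rfl fun m _ => ht m
    rw [h3, div_le_iff₀ hXD]
    linarith
  · have hI : ∀ m ∈ Icc 1 M, η * I (dil m α) X D₁ + θ * I (dil m α) X D₀ +
        (η * ((1 - ρ) * Real.log (q / η) + ρ * Real.log (r / η)) +
          θ * (t m * Real.log ((1 - q) / θ) + (1 - t m) * Real.log ((1 - r) / θ))) ≤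
        I (dil m α) X D := by
      intro m _
      have ha1' : ∀ y ∈ D₁, π (dil m α y) = m • a := by
        intro y hy
        unfold dil
        rw [map_nsmul, ha1 y hy]
      exact I_ind π hX hdis hD h₁ h₀ ha1' S hq0 hq1 hr0 hr1 hη hθ hρ (ht m)
    have hs := sum_le_sum hI
    unfold FI
    rw [le_div_iff₀ hMp]
    refine le_trans (le_of_eq ?_) hs
    simp only [sum_add_distrib, ← mul_sum, ← sum_mul, sum_sub_distrib, hcardM]
    simp only [sum_const, Nat.card_Icc, nsmul_eq_mul, Nat.add_sub_cancel]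
    field_simp

end Pool.Agent.Helper24.ES
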