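import Pool.Agent.Helper24.ES.Defs

set_option autoImplicit false

open Finset
open Pool.Agent.Helper84.SP

namespace Pool.Agent.Helper24.ES

variable {ι G Q : Type*} [AddCommGroup G] [DecidableEq G] [AddCommGroup Q] [DecidableEq Q]

omit [AddCommGroup G] [DecidableEq G] in
theorem Node1_sum_ite (X : Finset G) (p : G → Prop) [DecidablePred p] (u v : ℝ) :
    ∑ x ∈ X, (if p x then u else v) =
      ((X.filter p).card : ℝ) * u + ((X.card : ℝ) - (X.filter p).card) * v := by
  have h := card_filter_add_card_filter_not (s := X) p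
  have h' : ((X.filter p).card : ℝ) + (X.filter (fun x => ¬ p x)).card = X.card := by
    exact_mod_cast h
  rw [sum_ite, sum_const, sum_const, nsmul_eq_mul, nsmul_eq_mul, ← h']
  ring

/-- Lemma N, unnormalised. -/
theorem node_ind [DecidableEq ι] (π : G →+ Q) {α : ι → G} {X : Finset G} {D D₁ D₀ : Finset ι}
    (hdis : Disjoint D₁ D₀) (hD : D = D₁ ∪ D₀) (h₁ : D₁.Nonempty) (h₀ : D₀.Nonempty) {a : Q}
    (ha1 : ∀ y ∈ D₁, π (α y) = a) (S : Finset Q) {q r : ℝ} (hq0 : 0 < q) (hq1 : q < 1)
    (hr0 : 0 < r) (hr1 : r < 1) :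
    J α X D₁ + J α X D₀ +
      D₁.card * (((X.card : ℝ) - off π X S) * Real.log (q / (D₁.card / D.card)) +
        off π X S * Real.log (r / (D₁.card / D.card))) +
      ((hits π α X D₀ S a : ℝ) * Real.log ((1 - q) / (D₀.card / D.card)) +
        ((X.card : ℝ) * D₀.card - hits π α X D₀ S a) *
          Real.log ((1 - r) / (D₀.card / D.card))) ≤ J α X D := by
  have hp1 : (0 : ℝ) < D₁.card := by exact_mod_cast card_pos.2 h₁
  have hp0 : (0 : ℝ) < D₀.card := by exact_mod_cast card_pos.2 h₀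
  have hsplit := J_split (α := α) (X := X) hdis hD h₁ h₀
    (fun x => if π x - a ∈ S then q else r)
    (fun x => if π x - a ∈ S then 1 - q else 1 - r)
    (fun x => by
      split_ifs
      · exact hq0
      · exact hr0)
    (fun x => by
      split_ifs
      · linarith
      · linarith)
    (fun x => by
      split_ifs
      · linarith
      · linarith)
  refine le_trans (le_of_eq ?_) hsplit
  have hdiv : ∀ c t : ℝ, (D.card : ℝ) / c * t = t / (c / D.card) := by
    intro c t
    rw [div_div_eq_mul_div, div_mul_eq_mul_div, mul_comm]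
  -- the part `D₁`
  have e1 : ∑ x ∈ X, ∑ y ∈ D₁, Real.log ((D.card : ℝ) / D₁.card *
      (if π (x + α y) - a ∈ S then q else r)) =
      D₁.card * (((X.card : ℝ) - off π X S) * Real.log (q / (D₁.card / D.card)) +
        off π X S * Real.log (r / (D₁.card / D.card))) := by
    have h1 : ∀ x ∈ X, ∑ y ∈ D₁, Real.log ((D.card : ℝ) / D₁.card *
        (if π (x + α y) - a ∈ S then q else r)) =
        (D₁.card : ℝ) * (if π x ∉ S then Real.log (r / (D₁.card / D.card)) else
          Real.log (q / (D₁.card / D.card))) := by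
      intro x _
      rw [← nsmul_eq_mul, ← sum_const]
      apply sum_congr rfl
      intro y hy
      have e2 : π (x + α y) - a = π x := by rw [map_add, ha1 y hy, add_sub_cancel_right]
      rw [e2]
      by_cases h : π x ∈ S
      · rw [if_pos h, if_neg (not_not.2 h), hdiv]
      · rw [if_neg h, if_pos h, hdiv]
    rw [sum_congr rfl h1, ← mul_sum, Node1_sum_ite X (fun x => π x ∉ S)]
    unfold off
    ring
  -- the part `D₀`
  have e0 : ∑ x ∈ X, ∑ y ∈ D₀, Real.log ((D.card : ℝ) / D₀.card *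
      (if π (x + α y) - a ∈ S then 1 - q else 1 - r)) =
      (hits π α X D₀ S a : ℝ) * Real.log ((1 - q) / (D₀.card / D.card)) +
        ((X.card : ℝ) * D₀.card - hits π α X D₀ S a) *
          Real.log ((1 - r) / (D₀.card / D.card)) := by
    have h1 : ∀ y ∈ D₀, ∑ x ∈ X, Real.log ((D.card : ℝ) / D₀.card *
        (if π (x + α y) - a ∈ S then 1 - q else 1 - r)) =
        ((X.filter (fun x => π x + (π (α y) - a) ∈ S)).card : ℝ) *
          Real.log ((1 - q) / (D₀.card / D.card)) +
        ((X.card : ℝ) - (X.filter (fun x => π x + (π (α y) - a) ∈ S)).card) *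
          Real.log ((1 - r) / (D₀.card / D.card)) := by
      intro y _
      rw [← Node1_sum_ite X (fun x => π x + (π (α y) - a) ∈ S)]
      apply sum_congr rfl
      intro x _
      have e2 : π (x + α y) - a = π x + (π (α y) - a) := by rw [map_add, add_sub_assoc]
      rw [e2]
      by_cases h : π x + (π (α y) - a) ∈ S
      · rw [if_pos h, if_pos h, hdiv]
      · rw [if_neg h, if_neg h, hdiv]
    rw [sum_comm, sum_congr rfl h1, sum_add_distrib, ← sum_mul, ← sum_mul, sum_sub_distrib,
      sum_const, nsmul_eq_mul]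
    unfold hits
    push_cast
    ring
  rw [e1, e0]
  ring

/-- Lemma N, normalised. -/
theorem I_ind [DecidableEq ι] (π : G →+ Q) {α : ι → G} {X : Finset G} {D D₁ D₀ : Finset ι}
    (hX : X.Nonempty) (hdis : Disjoint D₁ D₀) (hD : D = D₁ ∪ D₀) (h₁ : D₁.Nonempty)
    (h₀ : D₀.Nonempty) {a : Q}
    (ha1 : ∀ y ∈ D₁, π (α y) = a) (S : Finset Q) {q r η θ ρ τ : ℝ} (hq0 : 0 < q) (hq1 : q < 1)
    (hr0 : 0 < r) (hr1 : r < 1) (hη : η = D₁.card / D.card) (hθ : θ = D₀.card / D.card)
    (hρ : ρ = off π X S / X.card) (hτ : τ = hits π α X D₀ S a / (X.card * D₀.card)) :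
    η * I α X D₁ + θ * I α X D₀ +
      (η * ((1 - ρ) * Real.log (q / η) + ρ * Real.log (r / η)) +
        θ * (τ * Real.log ((1 - q) / θ) + (1 - τ) * Real.log ((1 - r) / θ))) ≤ I α X D := by
  have hp1 : (0 : ℝ) < D₁.card := by exact_mod_cast card_pos.2 h₁
  have hp0 : (0 : ℝ) < D₀.card := by exact_mod_cast card_pos.2 h₀
  have hXp : (0 : ℝ) < X.card := by exact_mod_cast card_pos.2 hX
  have hsum : (D.card : ℝ) = D₁.card + D₀.card := by
    rw [hD, card_union_of_disjoint hdis]
    push_cast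
    ring
  have hpD : (0 : ℝ) < D.card := by linarith
  have hn := node_ind π (α := α) (X := X) hdis hD h₁ h₀ ha1 S hq0 hq1 hr0 hr1
  rw [← hη, ← hθ] at hn
  have hρ' : (off π X S : ℝ) = ρ * X.card := by
    rw [hρ, div_mul_cancel₀ _ hXp.ne']
  have hτ' : (hits π α X D₀ S a : ℝ) = τ * (X.card * D₀.card) := by
    rw [hτ, div_mul_cancel₀ _ (mul_pos hXp hp0).ne']
  have hη' : (D₁.card : ℝ) = η * D.card := by rw [hη, div_mul_cancel₀ _ hpD.ne']
  have hθ' : (D₀.card : ℝ) = θ * D.card := by rw [hθ, div_mul_cancel₀ _ hpD.ne']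
  have hI := I_split (α := α) (X := X) (D := D) (D₁ := D₁) (D₀ := D₀)
    (t := η * ((1 - ρ) * Real.log (q / η) + ρ * Real.log (r / η)) +
        θ * (τ * Real.log ((1 - q) / θ) + (1 - τ) * Real.log ((1 - r) / θ))) hX hp1 hp0 hpD (by
      refine le_trans (le_of_eq ?_) hn
      rw [hρ', hτ', hη', hθ']
      ring)
  rw [← hη, ← hθ] at hI
  exact hI

end Pool.Agent.Helper24.ES
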