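import Pool.Agent.Helper24.ES.MainB

set_option autoImplicit false

/-!
MP_120218_co, squad ES: choice of the parameters in theorem B.
-/

open Finset
open Pool.Agent.Helper84.SP

namespace Pool.Agent.Helper24.ES

/-- growth: a cubic polynomial in `H` is eventually below a small exponential -/
theorem ParamB_growth {ε a b s : ℝ} (hε0 : 0 < ε) (ha : 0 ≤ a) (hb : 0 ≤ b) (hs : 0 < s) :
    ∃ H₀ : ℝ, 1 ≤ H₀ ∧ ∀ H : ℝ, H₀ ≤ H →
      (2 * (a + b * H ^ 2) * s * H / ε + 2) * (4 / ε + 1) ≤ Real.exp (ε / (1 + ε) * H) := by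
  have hδ : 0 < ε / (1 + ε) := by positivity
  have h1 := isLittleO_pow_exp_pos_mul_atTop (k := 3) hδ
  obtain ⟨C, hC⟩ : ∃ C : ℝ, C = (2 * (a + b) * s / ε + 2) * (4 / ε + 1) := ⟨_, rfl⟩
  have hC0 : 0 < C := by rw [hC]; positivity
  have h2 := h1.bound (show 0 < 1 / C by positivity)
  obtain ⟨H₁, hH₁⟩ := Filter.eventually_atTop.1 h2
  refine ⟨max H₁ 1, le_max_right _ _, fun H hH => ?_⟩
  have hH1 : 1 ≤ H := (le_max_right _ _).trans hH
  have hH0 : 0 < H := by linarith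
  have h3 := hH₁ H ((le_max_left _ _).trans hH)
  rw [Real.norm_of_nonneg (by positivity), Real.norm_of_nonneg (by positivity)] at h3
  have h4 : C * H ^ 3 ≤ Real.exp (ε / (1 + ε) * H) := by
    have h5 := mul_le_mul_of_nonneg_left h3 hC0.le
    have h6 : C * (1 / C * Real.exp (ε / (1 + ε) * H)) = Real.exp (ε / (1 + ε) * H) := by
      field_simp
    rw [h6] at h5
    exact h5
  refine le_trans ?_ h4
  rw [hC]
  have h7 : 2 * (a + b * H ^ 2) * s * H / ε + 2 ≤ (2 * (a + b) * s / ε + 2) * H ^ 3 := by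
    have hH2 : 1 ≤ H ^ 2 := one_le_pow₀ hH1
    have hH3 : 1 ≤ H ^ 3 := one_le_pow₀ hH1
    have h8 : a + b * H ^ 2 ≤ (a + b) * H ^ 2 := by nlinarith
    have h9 : 2 * (a + b * H ^ 2) * s * H / ε ≤ 2 * ((a + b) * H ^ 2) * s * H / ε := by
      gcongr
    have h10 : 2 * ((a + b) * H ^ 2) * s * H / ε = 2 * (a + b) * s / ε * H ^ 3 := by ring
    rw [h10] at h9
    linarith
  have h11 : (0 : ℝ) ≤ 4 / ε + 1 := by positivity
  calc (2 * (a + b * H ^ 2) * s * H / ε + 2) * (4 / ε + 1)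
      ≤ ((2 * (a + b) * s / ε + 2) * H ^ 3) * (4 / ε + 1) :=
        mul_le_mul_of_nonneg_right h7 h11
    _ = (2 * (a + b) * s / ε + 2) * (4 / ε + 1) * H ^ 3 := by ring

/-- one side: for all large `h` there are a number `M` of dilates and a number `J` of steps -/
theorem sideParams {ε κ α s : ℝ} (hε0 : 0 < ε) (hε1 : ε < 1) (hκ : 0 < κ) (hα : 0 < α)
    (hs : 0 < s) : ∃ k₀ : ℕ, ∀ h : ℕ, k₀ ≤ h → ∃ (M J : ℕ) (lam R w : ℝ),
      SB ε (1 - ε) κ α lam R w M ∧ 1 ≤ J ∧ J * M ≤ h ∧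
      lam * (s * Real.log h) ≤ (1 + ε) * (α * s) ∧ w * (s * Real.log h / J) ≤ ε / 2 := by
  have hg : 0 < 1 - ε := by linarith
  have hg1 : 1 - ε ≤ 1 := by linarith
  obtain ⟨a, ha⟩ : ∃ a : ℝ, a = 32 / (κ * ε) + 12 := ⟨_, rfl⟩
  obtain ⟨b, hb⟩ : ∃ b : ℝ, b = 32 * 576 / (α ^ 2 * ε) := ⟨_, rfl⟩
  have ha0 : 0 < a := by rw [ha]; positivity
  have hb0 : 0 < b := by rw [hb]; positivity
  obtain ⟨H₀, hH₀1, hH₀⟩ := ParamB_growth (a := a) (b := b) hε0 ha0.le hb0.le hs
  have ht : Filter.Tendsto (fun h : ℕ => Real.log (h : ℝ)) Filter.atTop Filter.atTop :=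
    Real.tendsto_log_atTop.comp tendsto_natCast_atTop_atTop
  obtain ⟨k₀, hk₀⟩ := Filter.eventually_atTop.1
    (ht.eventually_ge_atTop (max H₀ ((1 + ε) * (α / (1 - ε)))))
  refine ⟨max k₀ 1, fun h hh => ?_⟩
  have hh1 : 1 ≤ h := (le_max_right _ _).trans hh
  have hhp : (0 : ℝ) < h := by exact_mod_cast hh1
  have hH := hk₀ h ((le_max_left _ _).trans hh)
  obtain ⟨H, hHd⟩ : ∃ H : ℝ, H = Real.log h := ⟨_, rfl⟩
  rw [← hHd] at hH
  rw [← hHd]
  have hH0 : H₀ ≤ H := (le_max_left _ _).trans hH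
  have hH2 : (1 + ε) * (α / (1 - ε)) ≤ H := (le_max_right _ _).trans hH
  have hH1 : 1 ≤ H := hH₀1.trans hH0
  have hHp : 0 < H := by linarith
  have hexpH : Real.exp H = h := by rw [hHd, Real.exp_log hhp]
  have hgr := hH₀ H hH0
  obtain ⟨w, hw⟩ : ∃ w : ℝ, w = a + b * H ^ 2 := ⟨_, rfl⟩
  rw [← hw] at hgr
  have hw0 : 0 < w := by rw [hw]; positivity
  obtain ⟨J, hJ⟩ : ∃ J : ℕ, J = ⌈2 * w * s * H / ε⌉₊ + 1 := ⟨_, rfl⟩
  have hJ1 : 1 ≤ J := by omega
  have hJp : (0 : ℝ) < J := by exact_mod_cast hJ1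
  have hJlow : 2 * w * s * H / ε ≤ J := by
    rw [hJ]
    push_cast
    have := Nat.le_ceil (2 * w * s * H / ε)
    linarith
  have hJup : (J : ℝ) ≤ 2 * w * s * H / ε + 2 := by
    rw [hJ]
    push_cast
    have := (Nat.ceil_lt_add_one (show 0 ≤ 2 * w * s * H / ε by positivity)).le
    linarith
  have hJM : J * (h / J) ≤ h := Nat.mul_div_le h J
  obtain ⟨M, hM⟩ : ∃ M : ℕ, M = h / J := ⟨_, rfl⟩
  rw [← hM] at hJM
  -- lower bound for `M`
  have hMlow : (h : ℝ) / J - 1 ≤ M := by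
    have h1 : h < J * (h / J + 1) := Nat.lt_mul_div_succ h (by omega)
    rw [← hM] at h1
    have h2 : (h : ℝ) < J * (M + 1) := by exact_mod_cast h1
    rw [sub_le_iff_le_add, div_le_iff₀ hJp]
    linarith
  have hMup : (M : ℝ) ≤ h := by
    rw [hM]
    exact_mod_cast Nat.div_le_self h J
  have hE : Real.exp (H / (1 + ε)) ≤ ε * M / 4 := by
    have h1 : Real.exp (ε / (1 + ε) * H) * Real.exp (H / (1 + ε)) = h := by
      rw [← Real.exp_add, ← hexpH]
      congr 1
      field_simp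
      ring
    have hE1 : 1 ≤ Real.exp (H / (1 + ε)) := Real.one_le_exp (by positivity)
    have h2 : (J : ℝ) * (4 / ε + 1) ≤ Real.exp (ε / (1 + ε) * H) :=
      le_trans (mul_le_mul_of_nonneg_right hJup (by positivity)) hgr
    have h3 : (J : ℝ) * (4 / ε + 1) * Real.exp (H / (1 + ε)) ≤ h := by
      rw [← h1]
      exact mul_le_mul_of_nonneg_right h2 (Real.exp_pos _).le
    have h4 : (4 / ε + 1) * Real.exp (H / (1 + ε)) ≤ h / J := by
      rw [le_div_iff₀ hJp]
      linarith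
    have h5 : 4 / ε * Real.exp (H / (1 + ε)) ≤ M := by linarith
    have h6 := mul_le_mul_of_nonneg_left h5 hε0.le
    have h7 : ε * (4 / ε * Real.exp (H / (1 + ε))) = 4 * Real.exp (H / (1 + ε)) := by
      field_simp
    rw [h7] at h6
    linarith
  have hEp : 1 < Real.exp (H / (1 + ε)) := Real.one_lt_exp_iff.2 (by positivity)
  have hM4 : 0 < ε * M / 4 := by linarith
  obtain ⟨L, hL⟩ : ∃ L : ℝ, L = Real.log (ε * M / 4) := ⟨_, rfl⟩
  have hLlow : H / (1 + ε) ≤ L := by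
    rw [hL, Real.le_log_iff_exp_le hM4]
    exact hE
  have hLup : L ≤ H := by
    rw [hL, hHd]
    apply Real.log_le_log hM4
    have h1 : ε * M ≤ 1 * M := mul_le_mul_of_nonneg_right hε1.le (Nat.cast_nonneg _)
    have h2 : (0 : ℝ) ≤ M := Nat.cast_nonneg _
    linarith
  have hLp : 0 < L := lt_of_lt_of_le (by positivity) hLlow
  have hLα : α / (1 - ε) ≤ L := by
    refine le_trans ?_ hLlow
    rw [le_div_iff₀ (by positivity)]
    linarith
  refine ⟨M, J, α / L, (1 - ε) * L / α, w, ?_, hJ1, hJM, ?_, ?_⟩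
  · refine ⟨?_, ?_, ?_, ?_, ?_, ?_, ?_, ?_⟩
    · linarith
    · rw [← hL]
      field_simp
    · positivity
    · rw [le_div_iff₀ hα]
      rw [div_le_iff₀ hg] at hLα
      linarith
    · field_simp
    · have h1 : 32 / (κ * ε) ≤ w := by
        rw [hw, ha]
        have : 0 ≤ b * H ^ 2 := by positivity
        linarith
      rw [div_le_iff₀ (by positivity)] at h1
      linarith
    · have h1 : b * H ^ 2 ≤ w := by
        rw [hw]
        linarith
      have h2 : (1 - ε) * (576 * ((1 - ε) * L / α) ^ 2) ≤ 576 * (H / α) ^ 2 := by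
        have h3 : (1 - ε) * L / α ≤ H / α := by
          apply div_le_div_of_nonneg_right _ hα.le
          calc (1 - ε) * L ≤ 1 * L := mul_le_mul_of_nonneg_right hg1 hLp.le
            _ = L := one_mul _
            _ ≤ H := hLup
        have h4 : ((1 - ε) * L / α) ^ 2 ≤ (H / α) ^ 2 :=
          pow_le_pow_left₀ (by positivity) h3 2
        calc (1 - ε) * (576 * ((1 - ε) * L / α) ^ 2)
            ≤ 1 * (576 * ((1 - ε) * L / α) ^ 2) :=
              mul_le_mul_of_nonneg_right hg1 (by positivity)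
          _ = 576 * ((1 - ε) * L / α) ^ 2 := one_mul _
          _ ≤ 576 * (H / α) ^ 2 := by linarith
      have h5 : b * H ^ 2 * ε = 32 * (576 * (H / α) ^ 2) := by
        rw [hb]
        field_simp
      have h6 : b * H ^ 2 * ε ≤ w * ε := mul_le_mul_of_nonneg_right h1 hε0.le
      linarith
    · have h1 : 12 ≤ w := by
        rw [hw, ha]
        have : 0 ≤ b * H ^ 2 := by positivity
        have : 0 ≤ 32 / (κ * ε) := by positivity
        linarith
      linarith
  · have h1 : H ≤ (1 + ε) * L := by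
      rw [div_le_iff₀ (by positivity)] at hLlow
      linarith
    have h2 : α / L * (s * H) ≤ α / L * (s * ((1 + ε) * L)) := by
      gcongr
    have h3 : α / L * (s * ((1 + ε) * L)) = (1 + ε) * (α * s) := by
      field_simp
    linarith
  · have h1 : w * (s * H / J) = w * s * H / J := by ring
    rw [h1, div_le_iff₀ hJp]
    rw [div_le_iff₀ hε0] at hJlow
    linarith

end Pool.Agent.Helper24.ES
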