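import Pool.Agent.Helper24.ES.MainT

set_option autoImplicit false

open Finset
open Pool.Agent.Helper84.SP

namespace Pool.Agent.Helper24.ES

/-- `exp (-u) u ^ 2` is small for large `u`. -/
theorem paramT_small {R Lam : ℝ} (hR : 0 < R) (hL0 : 0 ≤ Lam) (hL : Real.log (8 * R) ≤ Lam)
    {u : ℝ} (hu : 2 * Lam + 49 ≤ u) : R * Real.exp (-u) * u ^ 2 ≤ 1 / 8 := by
  have hu49 : 49 ≤ u := by linarith
  have h1 : R * Real.exp (-(u / 2)) ≤ 1 / 4 := by
    have h2 : 8 * R ≤ Real.exp (u / 2) := by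
      have h3 : Real.exp (Real.log (8 * R)) ≤ Real.exp (u / 2) := by
        apply Real.exp_le_exp.2
        linarith
      rwa [Real.exp_log (by positivity)] at h3
    rw [Real.exp_neg]
    have hp : 0 < Real.exp (u / 2) := Real.exp_pos _
    rw [← div_eq_mul_inv, div_le_iff₀ hp]
    linarith
  have h2 : Real.exp (-(u / 2)) * u ^ 2 ≤ 1 / 2 := by
    have h3 : (u / 2) ^ 4 / 24 ≤ Real.exp (u / 2) := by
      have h4 := Real.pow_div_factorial_le_exp (u / 2) (by linarith) 4
      have h5 : ((Nat.factorial 4 : ℕ) : ℝ) = 24 := by norm_num [Nat.factorial]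
      rwa [h5] at h4
    have h4 : 2 * u ^ 2 ≤ Real.exp (u / 2) := by
      refine le_trans ?_ h3
      have h5 : (768 : ℝ) ≤ u ^ 2 := by nlinarith
      have h6 : 0 ≤ u ^ 2 := by positivity
      nlinarith
    rw [Real.exp_neg]
    have hp : 0 < Real.exp (u / 2) := Real.exp_pos _
    rw [inv_mul_eq_div, div_le_iff₀ hp]
    linarith
  have h3 : Real.exp (-u) = Real.exp (-(u / 2)) * Real.exp (-(u / 2)) := by
    rw [← Real.exp_add]
    congr 1
    ring
  have h4 : 0 ≤ R * Real.exp (-(u / 2)) := by positivity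
  have h5 : 0 ≤ Real.exp (-(u / 2)) * u ^ 2 := by positivity
  calc R * Real.exp (-u) * u ^ 2
      = (R * Real.exp (-(u / 2))) * (Real.exp (-(u / 2)) * u ^ 2) := by rw [h3]; ring
    _ ≤ 1 / 4 * (1 / 2) := mul_le_mul h1 h2 h5 (by norm_num)
    _ = 1 / 8 := by norm_num

/-- `log (8 R) + log u + 3 ≤ ε u` for large `u`. -/
theorem paramT_log {R Lam ε : ℝ} (hε : 0 < ε) (hL0 : 0 ≤ Lam)
    (hL : Real.log (8 * R) + 3 + Real.log (1 / ε) ≤ Lam)
    {u : ℝ} (hu : 2 / ε * (2 * Lam + 50) ≤ u) :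
    Real.log (8 * R) + Real.log u + 3 ≤ ε * u := by
  have hu0 : 0 < u := lt_of_lt_of_le (by positivity) hu
  have h1 : 2 * Lam + 50 ≤ ε / 2 * u := by
    have h2 : ε / 2 * (2 / ε * (2 * Lam + 50)) ≤ ε / 2 * u :=
      mul_le_mul_of_nonneg_left hu (by positivity)
    have h3 : ε / 2 * (2 / ε * (2 * Lam + 50)) = 2 * Lam + 50 := by
      field_simp
    linarith
  have h2 : Real.log (ε / 2 * u) ≤ ε / 2 * u - 1 := Real.log_le_sub_one_of_pos (by positivity)
  have h3 : Real.log (ε / 2 * u) = Real.log u - Real.log (1 / ε) - Real.log 2 := by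
    rw [Real.log_mul (by positivity) (by positivity), Real.log_div (by positivity) (by norm_num),
      one_div, Real.log_inv]
    ring
  have h4 : Real.log 2 ≤ 1 := by
    have := Real.log_two_lt_d9
    linarith
  linarith

theorem paramT : ∃ C₁ : ℝ, 0 < C₁ ∧ ∀ (k : ℕ) (ε b : ℝ), 2 ≤ k → 0 < ε → ε ≤ 1 / 2 → 1 ≤ b →
    ∃ (g lam₁ lam₂ R₁ R₂ Lam K T : ℝ) (M : ℕ), PT ε g lam₁ lam₂ R₁ R₂ Lam K T M ∧
      lam₁ * b = ε ∧ lam₂ * k = ε ∧ Real.log M ≤ C₁ * (b / ε) * Real.log (k / ε) := by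
  refine ⟨300, by norm_num, ?_⟩
  intro k ε b hk hε0 hε1 hb
  have hkr : (2 : ℝ) ≤ (k : ℝ) := by exact_mod_cast hk
  have hk0 : (0 : ℝ) < (k : ℝ) := by linarith
  have hb0 : 0 < b := by linarith
  have h1ε : 2 ≤ 1 / ε := by
    rw [le_div_iff₀ hε0]
    linarith
  have hkε : 4 ≤ (k : ℝ) / ε := by
    rw [le_div_iff₀ hε0]
    nlinarith
  have hR20 : 0 < (k : ℝ) / ε := by positivity
  set L : ℝ := Real.log (k / ε) with hLdef
  have hlog2 : 0.69 ≤ Real.log 2 ∧ Real.log 2 ≤ 0.6932 := by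
    have h1 := Real.log_two_gt_d9
    have h2 := Real.log_two_lt_d9
    constructor <;> linarith
  have hL1 : 1 ≤ L := by
    have h4 : Real.log 4 ≤ L := Real.log_le_log (by norm_num) hkε
    have h5 : Real.log 4 = 2 * Real.log 2 := by
      rw [show (4 : ℝ) = 2 ^ 2 by norm_num, Real.log_pow]
      norm_num
    linarith [hlog2.1]
  have hlog8 : Real.log (8 * (k / ε)) = 3 * Real.log 2 + L := by
    rw [Real.log_mul (by norm_num) (by positivity), show (8 : ℝ) = 2 ^ 3 by norm_num,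
      Real.log_pow, ← hLdef]
    norm_num
  have hl1ε0 : 0 ≤ Real.log (1 / ε) := Real.log_nonneg (by linarith)
  have hl1ε : Real.log (1 / ε) ≤ L := by
    apply Real.log_le_log (by positivity)
    apply div_le_div_of_nonneg_right _ hε0.le
    linarith
  set Lam : ℝ := Real.log (8 * (k / ε)) + 3 + Real.log (1 / ε) with hLam
  have hLam0 : 0 ≤ Lam := by
    rw [hLam, hlog8]
    linarith [hlog2.1]
  have hLamL : Lam ≤ 8 * L := by
    rw [hLam, hlog8]
    linarith [hlog2.2]
  have hlog8Lam : Real.log (8 * (k / ε)) ≤ Lam := by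
    rw [hLam]
    linarith
  set K : ℝ := 2 / ε * (2 * Lam + 50) with hK
  have h2ε : 4 ≤ 2 / ε := by
    rw [le_div_iff₀ hε0]
    linarith
  have hKbig : 2 * Lam + 49 ≤ K := by
    rw [hK]
    nlinarith
  have hK0 : 0 ≤ K := by linarith
  set E : ℝ := (4 * Lam + 100) / (ε / b) with hE
  have hE0 : 0 < E := by positivity
  refine ⟨1 - ε, ε / b, ε / k, (1 - ε) / (ε / b), k / ε, Lam, K, Real.exp E,
    ⌈8 * Real.exp E * Real.exp K⌉₊, ?_, ?_, ?_, ?_⟩
  · refine
      { hε0 := hε0
        hε1 := hε1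
        hg := rfl
        hlam1 := by positivity
        hlam2 := by positivity
        hR1 := ?_
        hgR1 := ?_
        hR2 := by linarith
        hgR2 := ?_
        hLam := le_rfl
        hLam0 := hLam0
        hK := fun u hu => paramT_log hε0 hLam0 le_rfl hu
        hsm1 := fun u hu => paramT_small hR20 hLam0 hlog8Lam hu
        hsm2 := fun u hu => paramT_small hR20 hLam0 hlog8Lam (le_trans hKbig hu)
        hT := ?_
        hlT := ?_
        hK0 := hK0
        hTM := Nat.le_ceil _ }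
    · rw [le_div_iff₀ (by positivity), one_mul, div_le_iff₀ hb0]
      nlinarith
    · field_simp
    · have : ε / (k : ℝ) * ((k : ℝ) / ε) = 1 := by field_simp
      rw [this]
      linarith
    · rw [← Real.exp_zero]
      exact Real.exp_lt_exp.2 hE0
    · rw [Real.log_exp, hE]
      have : ε / b * ((4 * Lam + 100) / (ε / b)) = 4 * Lam + 100 := by
        field_simp
      rw [this]
  · field_simp
  · field_simp
  · have hM1 : ((⌈8 * Real.exp E * Real.exp K⌉₊ : ℕ) : ℝ) ≤ 8 * Real.exp E * Real.exp K + 1 :=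
      (Nat.ceil_lt_add_one (by positivity)).le
    have hEK : 1 ≤ Real.exp E * Real.exp K := by
      rw [← Real.exp_add]
      exact Real.one_le_exp (by linarith)
    have hM2 : ((⌈8 * Real.exp E * Real.exp K⌉₊ : ℕ) : ℝ) ≤ 16 * (Real.exp E * Real.exp K) := by
      nlinarith
    have hM0 : (0 : ℝ) < ((⌈8 * Real.exp E * Real.exp K⌉₊ : ℕ) : ℝ) := by
      exact_mod_cast Nat.ceil_pos.2 (by positivity)
    have hlog16 : Real.log 16 ≤ 3 := by
      rw [show (16 : ℝ) = 2 ^ 4 by norm_num, Real.log_pow]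
      have := hlog2.2
      norm_num
      linarith
    have hM3 : Real.log ((⌈8 * Real.exp E * Real.exp K⌉₊ : ℕ) : ℝ) ≤ 3 + (E + K) := by
      refine le_trans (Real.log_le_log hM0 hM2) ?_
      rw [Real.log_mul (by norm_num) (by positivity), ← Real.exp_add, Real.log_exp]
      linarith
    have hbε : 1 ≤ b / ε := by
      rw [le_div_iff₀ hε0]
      linarith
    have hEe : E = b / ε * (4 * Lam + 100) := by
      rw [hE]
      field_simp
    have hKe : K ≤ b / ε * (4 * Lam + 100) := by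
      have h1 : K = 1 / ε * (4 * Lam + 100) := by
        rw [hK]
        ring
      rw [h1]
      apply mul_le_mul_of_nonneg_right _ (by linarith)
      exact div_le_div_of_nonneg_right hb hε0.le
    have h132 : 4 * Lam + 100 ≤ 132 * L := by linarith
    have h1 : b / ε * (4 * Lam + 100) ≤ b / ε * (132 * L) :=
      mul_le_mul_of_nonneg_left h132 (by linarith)
    have h2 : 1 ≤ b / ε * L := by nlinarith
    calc Real.log ((⌈8 * Real.exp E * Real.exp K⌉₊ : ℕ) : ℝ) ≤ 3 + (E + K) := hM3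
      _ ≤ 3 * (b / ε * L) + (b / ε * (132 * L) + b / ε * (132 * L)) := by
          linarith
      _ ≤ 300 * (b / ε) * L := by nlinarith

end Pool.Agent.Helper24.ES
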