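import Pool.Agent.Helper24.ES.ParamB
import Pool.Agent.Helper24.ES.Iter

set_option autoImplicit false

open Finset
open Pool.Agent.Helper84.SP

namespace Pool.Agent.Helper24.ES

theorem posB_nsM_le (M : ℕ) (D : Finset ℕ) : nsM M D ≤ M + 1 := by
  unfold nsM
  exact (card_filter_le _ _).trans (by rw [card_range])

/-- the exponents `α`, `β` belonging to `s`, `p` -/
theorem posB_exps {s p : ℝ} (hs : 0 < s) (hp : 0 < p) :
    0 < Real.log ((s + p) / s) ∧ 0 < Real.log ((s + p) / p) ∧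
      Real.exp (-Real.log ((s + p) / s)) + Real.exp (-Real.log ((s + p) / p)) = 1 ∧
      Real.log ((s + p) / s) * s + Real.log ((s + p) / p) * p =
        (s + p) * Real.binEntropy (s / (s + p)) := by
  have hsp : 0 < s + p := by linarith
  refine ⟨?_, ?_, ?_, ?_⟩
  · apply Real.log_pos
    rw [lt_div_iff₀ hs]
    linarith
  · apply Real.log_pos
    rw [lt_div_iff₀ hp]
    linarith
  · rw [Real.exp_neg, Real.exp_log (by positivity), Real.exp_neg, Real.exp_log (by positivity)]
    field_simp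
  · have h1 : 1 - s / (s + p) = p / (s + p) := by
      field_simp
      ring
    rw [Real.binEntropy, h1, inv_div, inv_div]
    field_simp

/-- the case of positive integers: both sides cannot be small -/
theorem posB {s p : ℝ} (hs : 0 < s) (hp : 0 < p)
    (hsp : (s + p) * Real.binEntropy (s / (s + p)) < 1) :
    ∃ k₀ : ℕ, ∃ L : ℕ → ℝ, ∀ A : Finset ℕ, A.Nonempty → (∀ y ∈ A, 0 < y) →
      ∀ h k : ℕ, k₀ ≤ h → k₀ ≤ k →
      Real.log (it al A h).card ≤ s * Real.log h * Real.log A.card →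
      Real.log (it be A k).card ≤ p * Real.log k * Real.log A.card →
      Real.log A.card ≤ L h := by
  obtain ⟨hα, hβ, hab, hx⟩ := posB_exps hs hp
  obtain ⟨α, hαdef⟩ : ∃ α : ℝ, α = Real.log ((s + p) / s) := ⟨_, rfl⟩
  obtain ⟨β, hβdef⟩ : ∃ β : ℝ, β = Real.log ((s + p) / p) := ⟨_, rfl⟩
  rw [← hαdef] at hα hab hx
  rw [← hβdef] at hβ hab hx
  rw [← hx] at hsp
  have hx0 : 0 < α * s + β * p := by positivity
  obtain ⟨ε, hεdef⟩ : ∃ ε : ℝ, ε = (1 - (α * s + β * p)) / 5 := ⟨_, rfl⟩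
  have hε0 : 0 < ε := by rw [hεdef]; linarith
  have hε1 : ε < 1 := by rw [hεdef]; linarith
  have hεx : (1 + ε) * (α * s + β * p) ≤ 1 - 4 * ε := by
    rw [hεdef]
    nlinarith
  obtain ⟨κ, hκ0, hκ1, hk1, hk2⟩ := exists_kap hα hβ
  have P : PB ε (1 - ε) α β κ :=
    ⟨hε0, hε1, rfl, hα, hβ, hab.le, hκ0, hκ1, hk1, hk2⟩
  obtain ⟨k₁, hk₁⟩ := sideParams (s := s) hε0 hε1 hκ0 hα hs
  obtain ⟨k₂, hk₂⟩ := sideParams (s := p) hε0 hε1 hκ0 hβ hp
  choose! M J lam R w hS hJ hJM hlam hw using hk₁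
  choose! M' J' lam' R' w' hS' hJ' hJM' hlam' hw' using hk₂
  refine ⟨max k₁ k₂, fun h => (1 - ε) * (576 * R h ^ 2) * (M h + 1) / (2 * ε), ?_⟩
  intro A hA hpos h k hh hk hlt hlt'
  have hh1 : k₁ ≤ h := le_trans (le_max_left _ _) hh
  have hk1 : k₂ ≤ k := le_trans (le_max_right _ _) hk
  have hM : ∀ {ε g κ α lam R w : ℝ} {M : ℕ}, SB ε g κ α lam R w M → 1 ≤ M := by
    intro ε g κ α lam R w M S
    rcases Nat.eq_zero_or_pos M with h0 | h0
    · have := S.hM
      rw [h0] at this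
      norm_num at this
    · exact h0
  obtain ⟨X, hX, hXc, hXF⟩ := it_pigeonM (α := al) hA (hM (hS h hh1)) (hJ h hh1) (hJM h hh1) hlt
  obtain ⟨Z, hZ, hZc, hZF⟩ := it_pigeonM (α := be) hA (hM (hS' k hk1)) (hJ' k hk1) (hJM' k hk1)
    hlt'
  have key := mainB P (hS h hh1) (hS' k hk1) A.card A rfl hA hpos X hX Z hZ
  have hN : 0 ≤ Real.log A.card := Real.log_natCast_nonneg _
  have hg : 0 < 1 - ε := by linarith
  have hwp : 0 ≤ w h := by
    have := (hS h hh1).hw3
    linarith
  have hwp' : 0 ≤ w' k := by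
    have := (hS' k hk1).hw3
    linarith
  have e1 : lam h * Real.log X.card ≤ (1 + ε) * (α * s) * Real.log A.card :=
    calc lam h * Real.log X.card ≤ lam h * (s * Real.log h * Real.log A.card) :=
          mul_le_mul_of_nonneg_left hXc (hS h hh1).hlam0.le
      _ = lam h * (s * Real.log h) * Real.log A.card := by ring
      _ ≤ (1 + ε) * (α * s) * Real.log A.card := mul_le_mul_of_nonneg_right (hlam h hh1) hN
  have e2 : lam' k * Real.log Z.card ≤ (1 + ε) * (β * p) * Real.log A.card :=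
    calc lam' k * Real.log Z.card ≤ lam' k * (p * Real.log k * Real.log A.card) :=
          mul_le_mul_of_nonneg_left hZc (hS' k hk1).hlam0.le
      _ = lam' k * (p * Real.log k) * Real.log A.card := by ring
      _ ≤ (1 + ε) * (β * p) * Real.log A.card := mul_le_mul_of_nonneg_right (hlam' k hk1) hN
  have e3 : w h * FI (M h) al X A ≤ ε / 2 * Real.log A.card :=
    calc w h * FI (M h) al X A ≤ w h * (s * Real.log h / J h * Real.log A.card) :=
          mul_le_mul_of_nonneg_left hXF hwp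
      _ = w h * (s * Real.log h / J h) * Real.log A.card := by ring
      _ ≤ ε / 2 * Real.log A.card := mul_le_mul_of_nonneg_right (hw h hh1) hN
  have e4 : w' k * FI (M' k) be Z A ≤ ε / 2 * Real.log A.card :=
    calc w' k * FI (M' k) be Z A ≤ w' k * (p * Real.log k / J' k * Real.log A.card) :=
          mul_le_mul_of_nonneg_left hZF hwp'
      _ = w' k * (p * Real.log k / J' k) * Real.log A.card := by ring
      _ ≤ ε / 2 * Real.log A.card := mul_le_mul_of_nonneg_right (hw' k hk1) hN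
  have e5 : (1 - ε) * (576 * R h ^ 2) * (nsM (M h) A : ℝ) ≤
      (1 - ε) * (576 * R h ^ 2) * (M h + 1) := by
    apply mul_le_mul_of_nonneg_left _ (by positivity)
    exact_mod_cast posB_nsM_le (M h) A
  have e6 : (1 + ε) * (α * s + β * p) * Real.log A.card ≤ (1 - 4 * ε) * Real.log A.card :=
    mul_le_mul_of_nonneg_right hεx hN
  show Real.log A.card ≤ (1 - ε) * (576 * R h ^ 2) * (M h + 1) / (2 * ε)
  rw [le_div_iff₀ (by positivity)]
  nlinarith

end Pool.Agent.Helper24.ES
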