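import Pool.Agent.Helper24.ES.PosB

set_option autoImplicit false

/-!
MP_120218_co, squad ES: theorem B for sets of positive integers, with an explicit error term.
-/

open Finset
open Pool.Agent.Helper84.SP

namespace Pool.Agent.Helper24.ES

theorem SB.one_le {ε g κ α lam R w : ℝ} {M : ℕ} (S : SB ε g κ α lam R w M) : 1 ≤ M := by
  rcases Nat.eq_zero_or_pos M with h0 | h0
  · have := S.hM
    rw [h0] at this
    norm_num at this
  · exact h0

/-- the error term of theorem B -/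
theorem posB2_err {ε κ α lam R w : ℝ} {M h : ℕ} (S : SB ε (1 - ε) κ α lam R w M) (hε0 : 0 < ε)
    (hε1 : ε < 1) (hα : 0 < α) (hMh : M ≤ h) (hh : 1 ≤ h) :
    (1 - ε) * (576 * R ^ 2) * (M + 1) / (2 * ε) ≤
      576 / (α ^ 2 * ε) * (h * Real.log h ^ 2) := by
  have hM4 : (1 : ℝ) < ε * M / 4 := by
    have := S.hM
    linarith
  have hM0 : (0 : ℝ) < M := by exact_mod_cast S.one_le
  have hhp : (0 : ℝ) < h := by exact_mod_cast hh
  have hMh' : (M : ℝ) ≤ h := by exact_mod_cast hMh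
  obtain ⟨L, hL⟩ : ∃ L : ℝ, L = Real.log (ε * M / 4) := ⟨_, rfl⟩
  have hL0 : 0 < L := by rw [hL]; exact Real.log_pos hM4
  have hLh : L ≤ Real.log h := by
    rw [hL]
    apply Real.log_le_log (by linarith)
    nlinarith
  have h1 : lam * L = α := by rw [hL]; exact S.hlam
  have h2 : lam * R = 1 - ε := S.hg
  have hlam := S.hlam0
  have hR : R * α = (1 - ε) * L := by
    rw [← h1, ← h2]
    ring
  have hR1 := S.hR
  have hR2 : R ≤ Real.log h / α := by
    rw [le_div_iff₀ hα, hR]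
    calc (1 - ε) * L ≤ 1 * L := mul_le_mul_of_nonneg_right (by linarith) hL0.le
      _ = L := one_mul _
      _ ≤ Real.log h := hLh
  have hRsq : R ^ 2 ≤ (Real.log h / α) ^ 2 := pow_le_pow_left₀ (by linarith) hR2 2
  have hM1 : (M : ℝ) + 1 ≤ 2 * h := by
    have : (1 : ℝ) ≤ h := by exact_mod_cast hh
    linarith
  rw [div_le_iff₀ (by positivity)]
  calc (1 - ε) * (576 * R ^ 2) * (M + 1) ≤ 1 * (576 * (Real.log h / α) ^ 2) * (2 * h) := by
        apply mul_le_mul _ hM1 (by positivity) (by positivity)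
        apply mul_le_mul (by linarith) (by linarith) (by positivity) (by norm_num)
    _ = 576 / (α ^ 2 * ε) * (h * Real.log h ^ 2) * (2 * ε) := by
        field_simp

/-- Theorem B for positive integers: explicit error term. -/
theorem posB_explicit {s p : ℝ} (hs : 0 < s) (hp : 0 < p)
    (hsp : (s + p) * Real.binEntropy (s / (s + p)) < 1) :
    ∃ k₀ : ℕ, ∃ C : ℝ, 0 < C ∧ ∀ A : Finset ℕ, A.Nonempty → (∀ y ∈ A, 0 < y) →
      ∀ h k : ℕ, k₀ ≤ h → k₀ ≤ k →
      Real.log (it al A h).card ≤ s * Real.log h * Real.log A.card →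
      Real.log (it be A k).card ≤ p * Real.log k * Real.log A.card →
      Real.log A.card ≤ C * (h * Real.log h ^ 2) := by
  obtain ⟨hα, hβ, hab, hx⟩ := posB_exps hs hp
  obtain ⟨α, hαdef⟩ : ∃ α : ℝ, α = Real.log ((s + p) / s) := ⟨_, rfl⟩
  obtain ⟨β, hβdef⟩ : ∃ β : ℝ, β = Real.log ((s + p) / p) := ⟨_, rfl⟩
  rw [← hαdef] at hα hab hx
  rw [← hβdef] at hβ hab hx
  rw [← hx] at hsp
  have hx0 : 0 < α * s + β * p := by positivity
  obtain ⟨ε, hεdef⟩ : ∃ ε : ℝ, ε = (1 - (α * s + β * p)) / 5 := ⟨_, rfl⟩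
  have hε0 : 0 < ε := by rw [hεdef]; linarith
  have hε1 : ε < 1 := by rw [hεdef]; linarith
  have hεx : (1 + ε) * (α * s + β * p) ≤ 1 - 4 * ε := by
    rw [hεdef]
    nlinarith
  obtain ⟨κ, hκ0, hκ1, hk1, hk2⟩ := exists_kap hα hβ
  have P : PB ε (1 - ε) α β κ :=
    ⟨hε0, hε1, rfl, hα, hβ, hab.le, hκ0, hκ1, hk1, hk2⟩
  obtain ⟨k₁, hk₁⟩ := sideParams (s := s) hε0 hε1 hκ0 hα hs
  obtain ⟨k₂, hk₂⟩ := sideParams (s := p) hε0 hε1 hκ0 hβ hp
  choose! M J lam R w hS hJ hJM hlam hw using hk₁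
  choose! M' J' lam' R' w' hS' hJ' hJM' hlam' hw' using hk₂
  refine ⟨max (max k₁ k₂) 1, 576 / (α ^ 2 * ε), by positivity, ?_⟩
  intro A hA hpos h k hh hk hlt hlt'
  have hh1 : k₁ ≤ h := le_trans (le_max_left _ _) (le_trans (le_max_left _ _) hh)
  have hh2 : 1 ≤ h := le_trans (le_max_right _ _) hh
  have hk1 : k₂ ≤ k := le_trans (le_max_right _ _) (le_trans (le_max_left _ _) hk)
  obtain ⟨X, hX, hXc, hXF⟩ := it_pigeonM (α := al) hA (hS h hh1).one_le (hJ h hh1) (hJM h hh1) hlt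
  obtain ⟨Z, hZ, hZc, hZF⟩ := it_pigeonM (α := be) hA (hS' k hk1).one_le (hJ' k hk1) (hJM' k hk1)
    hlt'
  have key := mainB P (hS h hh1) (hS' k hk1) A.card A rfl hA hpos X hX Z hZ
  have hN : 0 ≤ Real.log A.card := Real.log_natCast_nonneg _
  have hg : 0 < 1 - ε := by linarith
  have hwp : 0 ≤ w h := by
    have := (hS h hh1).hw3
    linarith
  have hwp' : 0 ≤ w' k := by
    have := (hS' k hk1).hw3
    linarith
  have e1 : lam h * Real.log X.card ≤ (1 + ε) * (α * s) * Real.log A.card :=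
    calc lam h * Real.log X.card ≤ lam h * (s * Real.log h * Real.log A.card) :=
          mul_le_mul_of_nonneg_left hXc (hS h hh1).hlam0.le
      _ = lam h * (s * Real.log h) * Real.log A.card := by ring
      _ ≤ (1 + ε) * (α * s) * Real.log A.card := mul_le_mul_of_nonneg_right (hlam h hh1) hN
  have e2 : lam' k * Real.log Z.card ≤ (1 + ε) * (β * p) * Real.log A.card :=
    calc lam' k * Real.log Z.card ≤ lam' k * (p * Real.log k * Real.log A.card) :=
          mul_le_mul_of_nonneg_left hZc (hS' k hk1).hlam0.le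
      _ = lam' k * (p * Real.log k) * Real.log A.card := by ring
      _ ≤ (1 + ε) * (β * p) * Real.log A.card := mul_le_mul_of_nonneg_right (hlam' k hk1) hN
  have e3 : w h * FI (M h) al X A ≤ ε / 2 * Real.log A.card :=
    calc w h * FI (M h) al X A ≤ w h * (s * Real.log h / J h * Real.log A.card) :=
          mul_le_mul_of_nonneg_left hXF hwp
      _ = w h * (s * Real.log h / J h) * Real.log A.card := by ring
      _ ≤ ε / 2 * Real.log A.card := mul_le_mul_of_nonneg_right (hw h hh1) hN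
  have e4 : w' k * FI (M' k) be Z A ≤ ε / 2 * Real.log A.card :=
    calc w' k * FI (M' k) be Z A ≤ w' k * (p * Real.log k / J' k * Real.log A.card) :=
          mul_le_mul_of_nonneg_left hZF hwp'
      _ = w' k * (p * Real.log k / J' k) * Real.log A.card := by ring
      _ ≤ ε / 2 * Real.log A.card := mul_le_mul_of_nonneg_right (hw' k hk1) hN
  have e5 : (1 - ε) * (576 * R h ^ 2) * (nsM (M h) A : ℝ) ≤
      (1 - ε) * (576 * R h ^ 2) * (M h + 1) := by
    apply mul_le_mul_of_nonneg_left _ (by positivity)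
    exact_mod_cast posB_nsM_le (M h) A
  have e6 : (1 + ε) * (α * s + β * p) * Real.log A.card ≤ (1 - 4 * ε) * Real.log A.card :=
    mul_le_mul_of_nonneg_right hεx hN
  have hMh : M h ≤ h := by
    have h1 := hJM h hh1
    have h2 := hJ h hh1
    calc M h = 1 * M h := (one_mul _).symm
      _ ≤ J h * M h := Nat.mul_le_mul_right _ h2
      _ ≤ h := h1
  refine le_trans ?_ (posB2_err (hS h hh1) hε0 hε1 hα hMh hh2)
  rw [le_div_iff₀ (by positivity)]
  nlinarith

end Pool.Agent.Helper24.ES
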