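import Pool.Agent.Helper24.ES.KeyT
import Pool.Agent.Helper24.ES.Digits

set_option autoImplicit false

open Finset
open Pool.Agent.Helper84.SP

namespace Pool.Agent.Helper24.ES

open scoped Pointwise in
theorem PosT_card_one (A : Finset ℕ) : (it al A 1).card = A.card := by
  rw [Digits_it, one_nsmul]
  exact card_image_of_injective _ Digits_al_inj

/-- growth under a dilate gives growth of the sumset -/
theorem PosT_dig {A : Finset ℕ} (hA : A.Nonempty) {b M : ℕ} (hb : 2 ≤ b) (hM : 1 ≤ M) {t : ℝ}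
    (ht : t ≤ FI M al (it al A 1) A) :
    t * Real.log b ≤ (Real.log M + Real.log b) *
      (Real.log (it al A (2 * b)).card - Real.log A.card) := by
  obtain ⟨m, hm, hle⟩ := exists_dil (α := al) (it_nonempty (α := al) hA 1) hA hM
  rw [PosT_card_one] at hle
  have hmM : m ≤ M := (mem_Icc.1 hm).2
  have hlt : m < b ^ (Nat.log b M + 1) :=
    lt_of_le_of_lt hmM (Nat.lt_pow_succ_log_self (by omega) M)
  have hd := dil_digits hA hb _ m hlt
  set Δ : ℝ := Real.log (it al A (2 * b)).card - Real.log A.card with hΔ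
  have hA0 : (0 : ℝ) < A.card := by exact_mod_cast card_pos.2 hA
  have hΔ0 : 0 ≤ Δ := by
    have h1 : (it al A 1).card ≤ (it al A (2 * b)).card := it_mono (α := al) hA (by omega)
    rw [PosT_card_one] at h1
    have h2 := Real.log_le_log hA0 (by exact_mod_cast h1 : (A.card : ℝ) ≤ (it al A (2 * b)).card)
    linarith
  have hb0 : (1 : ℝ) < b := by exact_mod_cast (by omega : 1 < b)
  have hlb : 0 < Real.log b := Real.log_pos hb0
  have h3 : t ≤ ((Nat.log b M + 1 : ℕ) : ℝ) * Δ := by linarith
  have h4 : (Nat.log b M : ℝ) * Real.log b ≤ Real.log M := by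
    rw [← Real.log_pow]
    apply Real.log_le_log (by positivity)
    exact_mod_cast Nat.pow_log_le_self b (by omega)
  have h5 : ((Nat.log b M + 1 : ℕ) : ℝ) * Real.log b ≤ Real.log M + Real.log b := by
    push_cast
    linarith
  calc t * Real.log b ≤ ((Nat.log b M + 1 : ℕ) : ℝ) * Δ * Real.log b :=
        mul_le_mul_of_nonneg_right h3 hlb.le
    _ = ((Nat.log b M + 1 : ℕ) : ℝ) * Real.log b * Δ := by ring
    _ ≤ (Real.log M + Real.log b) * Δ := mul_le_mul_of_nonneg_right h5 hΔ0

/-- `log h ≤ 3 log (h / 2)` -/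
theorem PosT_half {h : ℕ} (hh : 4 ≤ h) :
    Real.log h ≤ 3 * Real.log ((h / 2 : ℕ) : ℝ) := by
  have h1 : 2 ≤ h / 2 := by omega
  have h2 : h ≤ 2 * (h / 2) + 1 := by omega
  have h3 : h ≤ (h / 2) ^ 3 := by
    set b := h / 2
    nlinarith [mul_le_mul h1 h1 (by norm_num) (by omega), pow_succ b 2, pow_two b,
      mul_le_mul (mul_le_mul h1 h1 (by norm_num) (by omega)) (le_refl b) (by omega)
        (by positivity)]
  have h4 : (h : ℝ) ≤ ((h / 2 : ℕ) : ℝ) ^ 3 := by exact_mod_cast h3
  have h5 := Real.log_le_log (by exact_mod_cast (by omega : 0 < h)) h4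
  rw [Real.log_pow] at h5
  push_cast at h5 ⊢
  linarith

/-- small `h` -/
theorem PosT_small {A : Finset ℕ} (hA : A.Nonempty) {h M : ℕ} (hh : 2 ≤ h) (hM : 1 ≤ M)
    {t : ℝ} (ht0 : 0 ≤ t) (ht : t ≤ FI M al (it al A 1) A) :
    t * Real.log h ≤ (8 * Real.log M + 8 * Real.log h) *
      (Real.log (it al A h).card - Real.log A.card) := by
  have hA0 : (0 : ℝ) < A.card := by exact_mod_cast card_pos.2 hA
  have hM0 : 0 ≤ Real.log M := Real.log_nonneg (by exact_mod_cast hM)
  have hh1 : 0 < Real.log h := Real.log_pos (by exact_mod_cast (by omega : 1 < h))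
  have hpos : ∀ n, (0 : ℝ) < (it al A n).card := fun n => by
    exact_mod_cast card_pos.2 (it_nonempty (α := al) hA n)
  have hmono : ∀ m n : ℕ, m ≤ n → Real.log (it al A m).card ≤ Real.log (it al A n).card :=
    fun m n hmn => Real.log_le_log (hpos m) (by exact_mod_cast it_mono (α := al) hA hmn)
  have hΔ0 : 0 ≤ Real.log (it al A h).card - Real.log A.card := by
    have h1 := hmono 1 h (by omega)
    rw [PosT_card_one] at h1
    linarith
  by_cases h4 : 4 ≤ h
  · have h1 := PosT_dig hA (b := h / 2) (by omega) hM ht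
    have h2 := hmono (2 * (h / 2)) h (by omega)
    have h3 := PosT_half h4
    have hb1 : 0 < Real.log ((h / 2 : ℕ) : ℝ) :=
      Real.log_pos (by exact_mod_cast (by omega : 1 < h / 2))
    have hbh : Real.log ((h / 2 : ℕ) : ℝ) ≤ Real.log h :=
      Real.log_le_log (by exact_mod_cast (by omega : 0 < h / 2))
        (by exact_mod_cast (by omega : h / 2 ≤ h))
    set lb := Real.log ((h / 2 : ℕ) : ℝ) with hlb
    set Δ := Real.log (it al A h).card - Real.log A.card with hΔ
    have h5 : t * lb ≤ (Real.log M + lb) * Δ := by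
      refine h1.trans (mul_le_mul_of_nonneg_left ?_ (by linarith))
      linarith
    calc t * Real.log h ≤ t * (3 * lb) := mul_le_mul_of_nonneg_left h3 ht0
      _ = 3 * (t * lb) := by ring
      _ ≤ 3 * ((Real.log M + lb) * Δ) := by linarith
      _ = (3 * Real.log M + 3 * lb) * Δ := by ring
      _ ≤ (8 * Real.log M + 8 * Real.log h) * Δ := by
          apply mul_le_mul_of_nonneg_right _ hΔ0
          linarith
  · have h1 := PosT_dig hA (b := 2) le_rfl hM ht
    have h2 := pluen hA (2 * 2)
    have h3 := hmono 2 h hh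
    have hlh : Real.log h ≤ 2 * Real.log 2 := by
      have h5 : (h : ℝ) ≤ 2 ^ 2 := by
        have : h ≤ 2 ^ 2 := by omega
        exact_mod_cast this
      have h6 := Real.log_le_log (by exact_mod_cast (by omega : 0 < h)) h5
      rw [Real.log_pow] at h6
      push_cast at h6
      linarith
    have hl2 : Real.log 2 ≤ Real.log h :=
      Real.log_le_log (by norm_num) (by exact_mod_cast hh)
    have hl20 : 0 < Real.log 2 := Real.log_pos (by norm_num)
    push_cast at h1 h2
    set Δ := Real.log (it al A h).card - Real.log A.card with hΔ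
    have h7 : Real.log (it al A (2 * 2)).card - Real.log A.card ≤ 4 * Δ := by
      linarith
    have h8 : t * Real.log 2 ≤ (Real.log M + Real.log 2) * (4 * Δ) :=
      h1.trans (mul_le_mul_of_nonneg_left h7 (by linarith))
    calc t * Real.log h ≤ t * (2 * Real.log 2) := mul_le_mul_of_nonneg_left hlh ht0
      _ = 2 * (t * Real.log 2) := by ring
      _ ≤ 2 * ((Real.log M + Real.log 2) * (4 * Δ)) := by linarith
      _ = (8 * Real.log M + 8 * Real.log 2) * Δ := by ring
      _ ≤ (8 * Real.log M + 8 * Real.log h) * Δ := by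
          apply mul_le_mul_of_nonneg_right _ hΔ0
          linarith

/-- numerical inequality for large `h` -/
theorem PosT_sqrt {h M : ℕ} (hh : 16 ≤ h) (hM : 1 ≤ M) (hMh : Real.log M ≤ 1 / 2 * Real.log h) :
    M ≤ h ∧ Real.sqrt h ≤ 2 * ((h / M : ℕ) : ℝ) := by
  have hM0 : (0 : ℝ) < M := by exact_mod_cast hM
  have hh0 : (0 : ℝ) < h := by exact_mod_cast (by omega : 0 < h)
  have h1 : (M : ℝ) ^ 2 ≤ h := by
    rw [← Real.log_le_log_iff (by positivity) hh0, Real.log_pow]
    push_cast
    linarith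
  have h2 : (M : ℝ) ≤ Real.sqrt h := Real.le_sqrt_of_sq_le h1
  have h3 : M ≤ h := by
    have : M ^ 2 ≤ h := by exact_mod_cast h1
    nlinarith
  have h4 : (4 : ℝ) ≤ Real.sqrt h := by
    apply Real.le_sqrt_of_sq_le
    have : (16 : ℝ) ≤ h := by exact_mod_cast hh
    linarith
  refine ⟨h3, ?_⟩
  have h5 : (h : ℝ) < M * ((h / M : ℕ) + 1) := by
    exact_mod_cast Nat.lt_mul_div_succ h hM
  have h6 : Real.sqrt h * Real.sqrt h = h := Real.mul_self_sqrt hh0.le
  have h7 : Real.sqrt h < ((h / M : ℕ) : ℝ) + 1 := by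
    by_contra hcon
    push Not at hcon
    have h8 : (M : ℝ) * (((h / M : ℕ) : ℝ) + 1) ≤ Real.sqrt h * Real.sqrt h :=
      mul_le_mul h2 hcon (by positivity) (Real.sqrt_nonneg _)
    rw [h6] at h8
    linarith
  linarith

theorem posT : ∃ c : ℝ, 0 < c ∧ ∀ (k : ℕ) (ε : ℝ), 2 ≤ k → 0 < ε → ε ≤ 1 → ∃ L : ℕ → ℝ,
    ∀ A : Finset ℕ, A.Nonempty → (∀ y ∈ A, 0 < y) → ∀ h : ℕ, 2 ≤ h →
      Real.log (it be A k).card ≤ (1 - ε) * k * Real.log A.card →
      Real.log (it al A h).card ≤
        (1 + c * (ε ^ 2 / Real.log (k / ε)) * Real.log h) * Real.log A.card →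
      Real.log A.card ≤ L h := by
  obtain ⟨c₁, C₁, hc₁, hC₁, hkey⟩ := keyT
  set C : ℝ := 2 * C₁ + 8 / c₁ + 4 with hC
  have hC0 : 0 < C := by positivity
  set W : ℝ := 16 * C₁ + 16 * C + 32 with hW
  have hW0 : 0 < W := by positivity
  refine ⟨c₁ / (2 * c₁ * C + 2 * W), by positivity, ?_⟩
  set c : ℝ := c₁ / (2 * c₁ * C + 2 * W) with hc
  have hc0 : 0 < c := by positivity
  have hcC : c ≤ 1 / (2 * C) := by
    rw [hc, div_le_div_iff₀ (by positivity) (by positivity)]
    nlinarith
  have hcW : c * W ≤ c₁ / 2 := by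
    rw [hc, div_mul_eq_mul_div, div_le_div_iff₀ (by positivity) (by norm_num)]
    have : 0 < c₁ * (2 * c₁ * C) := by positivity
    nlinarith
  intro k ε hk hε0 hε1
  have hkr : (2 : ℝ) ≤ (k : ℝ) := by exact_mod_cast hk
  set L₀ : ℝ := Real.log (k / ε) with hL₀
  have hL₀2 : Real.log 2 ≤ L₀ := by
    apply Real.log_le_log (by norm_num)
    rw [le_div_iff₀ hε0]
    nlinarith
  have hlog2 : 1 / 2 ≤ Real.log 2 := by
    have := Real.log_two_gt_d9
    linarith
  have hL₀0 : 1 / 2 ≤ L₀ := by linarith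
  have hL₀p : 0 < L₀ := by linarith
  have H : ∀ b : ℝ, ∃ (M : ℕ) (L : ℝ), 1 ≤ b → 1 ≤ M ∧ Real.log M ≤ C₁ * (b / ε) * L₀ ∧
      ∀ A : Finset ℕ, A.Nonempty → (∀ y ∈ A, 0 < y) → L ≤ Real.log A.card →
        Real.log (it be A k).card ≤ (1 - ε) * k * Real.log A.card →
        ∀ X : Finset ℤ, X.Nonempty → Real.log X.card ≤ b * Real.log A.card →
          c₁ * ε * Real.log A.card ≤ FI M al X A := by
    intro b
    by_cases hb : 1 ≤ b
    · obtain ⟨M, L, hML⟩ := hkey k ε b hk hε0 hε1 hb
      exact ⟨M, L, fun _ => hML⟩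
    · exact ⟨0, 0, fun h => absurd h hb⟩
  choose M L hML using H
  refine ⟨fun h => max 0 (max (L 2) (L (ε * Real.log h / (C * L₀)))), ?_⟩
  intro A hA hApos h hh hprod hsumc
  by_contra hcon
  push Not at hcon
  have hN0 : 0 < Real.log A.card := lt_of_le_of_lt (le_max_left _ _) hcon
  have hN1 : L 2 < Real.log A.card :=
    lt_of_le_of_lt ((le_max_left _ _).trans (le_max_right _ _)) hcon
  have hN2 : L (ε * Real.log h / (C * L₀)) < Real.log A.card :=
    lt_of_le_of_lt ((le_max_right _ _).trans (le_max_right _ _)) hcon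
  set N : ℝ := Real.log A.card with hN
  have hh1 : 0 < Real.log h := Real.log_pos (by exact_mod_cast (by omega : 1 < h))
  by_cases hcase : ε * Real.log h ≤ 2 * C * L₀
  · obtain ⟨hM1, hM2, hM3⟩ := hML 2 (by norm_num)
    have hX := hM3 A hA hApos hN1.le hprod (it al A 1) (it_nonempty (α := al) hA 1)
      (by rw [PosT_card_one]; linarith)
    have h1 := PosT_small hA hh hM1 (by positivity) hX
    set Δ := Real.log (it al A h).card - N with hΔ
    have hlogM0 : 0 ≤ Real.log (M 2) := Real.log_nonneg (by exact_mod_cast hM1)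
    have h2 : Δ ≤ c * (ε ^ 2 / L₀) * Real.log h * N := by
      linarith
    have h3 : c₁ * ε * N * Real.log h ≤
        (8 * Real.log (M 2) + 8 * Real.log h) * (c * (ε ^ 2 / L₀) * Real.log h * N) :=
      h1.trans (mul_le_mul_of_nonneg_left h2 (by positivity))
    have h4 : c₁ * ε ≤ (8 * Real.log (M 2) + 8 * Real.log h) * (c * (ε ^ 2 / L₀)) := by
      have h5 : c₁ * ε * (N * Real.log h) ≤
          (8 * Real.log (M 2) + 8 * Real.log h) * (c * (ε ^ 2 / L₀)) * (N * Real.log h) := by
        calc c₁ * ε * (N * Real.log h) = c₁ * ε * N * Real.log h := by ring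
          _ ≤ _ := h3
          _ = _ := by ring
      exact le_of_mul_le_mul_right h5 (by positivity)
    have h6 : ε * (8 * Real.log (M 2) + 8 * Real.log h) ≤ W * L₀ := by
      have h7 : ε * Real.log (M 2) ≤ 2 * C₁ * L₀ := by
        calc ε * Real.log (M 2) ≤ ε * (C₁ * (2 / ε) * L₀) :=
              mul_le_mul_of_nonneg_left hM2 hε0.le
          _ = 2 * C₁ * L₀ := by field_simp
      calc ε * (8 * Real.log (M 2) + 8 * Real.log h)
          = 8 * (ε * Real.log (M 2)) + 8 * (ε * Real.log h) := by ring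
        _ ≤ 8 * (2 * C₁ * L₀) + 8 * (2 * C * L₀) := by linarith
        _ = (16 * C₁ + 16 * C) * L₀ := by ring
        _ ≤ W * L₀ := by
            apply mul_le_mul_of_nonneg_right _ hL₀p.le
            rw [hW]
            linarith
    have h8 : c₁ * ε ≤ c * W * ε := by
      calc c₁ * ε ≤ (8 * Real.log (M 2) + 8 * Real.log h) * (c * (ε ^ 2 / L₀)) := h4
        _ = (ε * (8 * Real.log (M 2) + 8 * Real.log h)) * (c * (ε / L₀)) := by ring
        _ ≤ (W * L₀) * (c * (ε / L₀)) := mul_le_mul_of_nonneg_right h6 (by positivity)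
        _ = c * W * ε := by field_simp
    have h9 : c₁ ≤ c * W := le_of_mul_le_mul_right h8 hε0
    linarith
  · push Not at hcase
    set b : ℝ := ε * Real.log h / (C * L₀) with hb
    have hb2 : 2 < b := by
      rw [hb, lt_div_iff₀ (by positivity)]
      linarith
    obtain ⟨hM1, hM2, hM3⟩ := hML b (by linarith)
    have hMh : Real.log (M b) ≤ 1 / 2 * Real.log h := by
      refine hM2.trans ?_
      have h1 : C₁ * (b / ε) * L₀ = C₁ / C * Real.log h := by
        rw [hb]
        field_simp
      rw [h1]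
      apply mul_le_mul_of_nonneg_right _ hh1.le
      rw [div_le_div_iff₀ hC0 (by norm_num), hC]
      have : 0 < 8 / c₁ := by positivity
      linarith
    have hh16 : 16 ≤ h := by
      by_contra hlt
      push Not at hlt
      have h1 : Real.log h ≤ 4 * Real.log 2 := by
        have h2 : (h : ℝ) ≤ 2 ^ 4 := by
          have : h ≤ 2 ^ 4 := by omega
          exact_mod_cast this
        have h3 := Real.log_le_log (by exact_mod_cast (by omega : 0 < h)) h2
        rw [Real.log_pow] at h3
        push_cast at h3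
        linarith
      have h4 : 2 * C * L₀ < 4 * L₀ := by
        calc 2 * C * L₀ < ε * Real.log h := hcase
          _ ≤ 1 * Real.log h := mul_le_mul_of_nonneg_right hε1 hh1.le
          _ ≤ 4 * L₀ := by linarith
      have h5 : 2 * C < 4 := lt_of_mul_lt_mul_right h4 hL₀p.le
      have h6 : 0 < 8 / c₁ := by positivity
      linarith
    obtain ⟨hMle, hsq⟩ := PosT_sqrt hh16 hM1 hMh
    set J : ℕ := h / M b with hJ
    have hJ1 : 1 ≤ J := Nat.div_pos hMle hM1
    have hJM : J * M b ≤ h := Nat.div_mul_le_self h (M b)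
    have hle : Real.log (it al A h).card ≤ b * N := by
      refine hsumc.trans (mul_le_mul_of_nonneg_right ?_ hN0.le)
      have h1 : c * (ε ^ 2 / L₀) * Real.log h ≤ b / 2 := by
        have h2 : c * ε ≤ 1 / (2 * C) := by
          calc c * ε ≤ c * 1 := mul_le_mul_of_nonneg_left hε1 hc0.le
            _ ≤ 1 / (2 * C) := by linarith
        calc c * (ε ^ 2 / L₀) * Real.log h = (c * ε) * (ε * Real.log h / L₀) := by ring
          _ ≤ 1 / (2 * C) * (ε * Real.log h / L₀) :=
              mul_le_mul_of_nonneg_right h2 (by positivity)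
          _ = b / 2 := by
              rw [hb]
              field_simp
      linarith
    obtain ⟨X, hXne, hXc, hXF⟩ := it_pigeonM (α := al) hA hM1 hJ1 hJM hle
    have h1 := hM3 A hA hApos hN2.le hprod X hXne hXc
    have h2 : c₁ * ε * N ≤ b / J * N := h1.trans hXF
    have h3 : c₁ * ε ≤ b / J := le_of_mul_le_mul_right h2 hN0
    have hJ0 : (0 : ℝ) < J := by exact_mod_cast hJ1
    rw [le_div_iff₀ hJ0] at h3
    have hsq0 : 0 < Real.sqrt h := Real.sqrt_pos.2 (by exact_mod_cast (by omega : 0 < h))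
    have h4 : Real.log h < 2 * Real.sqrt h := by
      have h5 : Real.log h = 2 * Real.log (Real.sqrt h) := by
        rw [Real.log_sqrt (by positivity)]
        ring
      have h6 := Real.log_le_sub_one_of_pos hsq0
      rw [h5]
      linarith
    have h7 : b ≤ 2 * ε * Real.log h / C := by
      rw [hb, div_le_div_iff₀ (by positivity) hC0]
      have : 0 ≤ ε * Real.log h * C := by positivity
      nlinarith
    have h8 : c₁ * ε * Real.sqrt h < 8 * ε * Real.sqrt h / C := by
      calc c₁ * ε * Real.sqrt h ≤ c₁ * ε * (2 * J) :=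
            mul_le_mul_of_nonneg_left hsq (by positivity)
        _ = 2 * (c₁ * ε * J) := by ring
        _ ≤ 2 * b := by linarith
        _ ≤ 2 * (2 * ε * Real.log h / C) := by linarith
        _ = 4 * ε / C * Real.log h := by ring
        _ < 4 * ε / C * (2 * Real.sqrt h) := mul_lt_mul_of_pos_left h4 (by positivity)
        _ = 8 * ε * Real.sqrt h / C := by ring
    have h9 : 8 * ε * Real.sqrt h / C ≤ c₁ * ε * Real.sqrt h := by
      rw [div_le_iff₀ hC0]
      have h10 : 8 ≤ c₁ * C := by
        have h11 : c₁ * C = 2 * (c₁ * C₁) + 8 + 4 * c₁ := by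
          rw [hC]
          field_simp
        rw [h11]
        have : 0 < c₁ * C₁ := by positivity
        linarith
      have h12 : 0 < ε * Real.sqrt h := by positivity
      nlinarith
    linarith

end Pool.Agent.Helper24.ES
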