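import Pool.Agent.Helper24.ES.Defs

set_option autoImplicit false

open Finset
open Pool.Agent.Helper84.SP

namespace Pool.Agent.Helper24.ES

theorem SideB2_term {α η : ℝ} (hη : 0 < η) : -(η * Real.log η) ≤ α * η + Real.exp (-α) - η := by
  have h1 : Real.log (Real.exp (-α) / η) ≤ Real.exp (-α) / η - 1 :=
    Real.log_le_sub_one_of_pos (by positivity)
  rw [Real.log_div (Real.exp_pos _).ne' hη.ne', Real.log_exp] at h1
  have h2 := mul_le_mul_of_nonneg_left h1 hη.le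
  have h3 : η * (Real.exp (-α) / η - 1) = Real.exp (-α) - η := by
    field_simp
  rw [h3] at h2
  linarith

/-- Gibbs' inequality -/
theorem gibbs {α β η θ : ℝ} (hab : Real.exp (-α) + Real.exp (-β) ≤ 1) (hη : 0 < η)
    (hθ : 0 < θ) (h : η + θ = 1) : hh η θ ≤ α * η + β * θ := by
  have h1 := SideB2_term (α := α) hη
  have h2 := SideB2_term (α := β) hθ
  unfold hh
  linarith

theorem SideB2_small {η θ : ℝ} (hη : 0 < η) (hθ : 0 < θ) (h : η + θ = 1) :
    hh η θ ≤ 3 * Real.sqrt η := by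
  have hs0 : 0 < Real.sqrt η := Real.sqrt_pos.2 hη
  have hs : Real.sqrt η ^ 2 = η := Real.sq_sqrt hη.le
  have hs1 : Real.sqrt η ≤ 1 := Real.sqrt_le_one.2 (by linarith)
  -- the first term
  have h1 : -(η * Real.log η) ≤ 2 * Real.sqrt η := by
    have h2 : Real.log (1 / Real.sqrt η) ≤ 1 / Real.sqrt η - 1 :=
      Real.log_le_sub_one_of_pos (by positivity)
    have h3 : Real.log η = 2 * Real.log (Real.sqrt η) := by
      conv_lhs => rw [← hs]
      rw [Real.log_pow]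
      norm_num
    have h4 : Real.log (1 / Real.sqrt η) = - Real.log (Real.sqrt η) := by
      rw [one_div, Real.log_inv]
    rw [h4] at h2
    have h5 : -(η * Real.log η) = 2 * (η * (- Real.log (Real.sqrt η))) := by
      rw [h3]
      ring
    have h6 : η * (- Real.log (Real.sqrt η)) ≤ η * (1 / Real.sqrt η - 1) :=
      mul_le_mul_of_nonneg_left h2 hη.le
    have h7 : η * (1 / Real.sqrt η) = Real.sqrt η := by
      rw [mul_one_div, div_eq_iff hs0.ne', ← sq, hs]
    nlinarith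
  -- the second term
  have h2 : -(θ * Real.log θ) ≤ η := by
    have h3 : Real.log (1 / θ) ≤ 1 / θ - 1 := Real.log_le_sub_one_of_pos (by positivity)
    rw [one_div, Real.log_inv] at h3
    have h4 := mul_le_mul_of_nonneg_left h3 hθ.le
    have h5 : θ * (θ⁻¹ - 1) = 1 - θ := by
      field_simp
    rw [h5] at h4
    linarith
  have h3 : η ≤ Real.sqrt η := by
    nlinarith
  unfold hh
  linarith

/-- the entropy is small near the ends -/
theorem exists_kap {α β : ℝ} (hα : 0 < α) (hβ : 0 < β) : ∃ κ : ℝ, 0 < κ ∧ κ ≤ 1 / 2 ∧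
    (∀ η θ : ℝ, 0 < η → 0 < θ → η + θ = 1 → η ≤ κ → hh η θ ≤ β * θ) ∧
    (∀ η θ : ℝ, 0 < η → 0 < θ → η + θ = 1 → θ ≤ κ → hh η θ ≤ α * η) := by
  have key : ∀ γ : ℝ, 0 < γ → ∃ κ : ℝ, 0 < κ ∧ κ ≤ 1 / 2 ∧
      ∀ η θ : ℝ, 0 < η → 0 < θ → η + θ = 1 → η ≤ κ → hh η θ ≤ γ * θ := by
    intro γ hγ
    refine ⟨min (1 / 2) ((γ / 6) ^ 2), lt_min (by norm_num) (by positivity), min_le_left _ _, ?_⟩
    intro η θ hη hθ h hk
    have h1 : η ≤ 1 / 2 := hk.trans (min_le_left _ _)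
    have h2 : η ≤ (γ / 6) ^ 2 := hk.trans (min_le_right _ _)
    have h3 : Real.sqrt η ≤ γ / 6 := by
      rw [← Real.sqrt_sq (by positivity : (0 : ℝ) ≤ γ / 6)]
      exact Real.sqrt_le_sqrt h2
    have h4 := SideB2_small hη hθ h
    have h5 : 1 / 2 ≤ θ := by linarith
    nlinarith
  obtain ⟨κ₁, h10, h11, h12⟩ := key β hβ
  obtain ⟨κ₂, h20, h21, h22⟩ := key α hα
  refine ⟨min κ₁ κ₂, lt_min h10 h20, (min_le_left _ _).trans h11, ?_, ?_⟩
  · intro η θ hη hθ h hk
    exact h12 η θ hη hθ h (hk.trans (min_le_left _ _))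
  · intro η θ hη hθ h hk
    rw [hh_symm]
    exact h22 θ η hθ hη (by linarith) (hk.trans (min_le_right _ _))

end Pool.Agent.Helper24.ES
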