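import Pool.Agent.Helper24.ES.Node
import Pool.Agent.Helper24.ES.Avg
import Pool.Agent.Helper24.ES.SideB2

set_option autoImplicit false

open Finset
open Pool.Agent.Helper84.SP

namespace Pool.Agent.Helper24.ES

variable {ι G Q : Type*} [AddCommGroup G] [DecidableEq G] [AddCommGroup Q] [DecidableEq Q]

theorem SideB_num {η θ ρ τ ε : ℝ} (hη : 0 < η) (hθ : 0 < θ) (h : η + θ = 1) (hε : 0 < ε)
    (hρ : ρ ≤ 1 - ε) (hτ0 : 0 ≤ τ) (hτ : τ ≤ ε / 4) :
    η * θ * (ε / 16) ≤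
      η * ((1 - ρ) * Real.log (η * (1 + θ / 4) / η) + ρ * Real.log (η / η)) +
        θ * (τ * Real.log ((1 - η * (1 + θ / 4)) / θ) + (1 - τ) * Real.log ((1 - η) / θ)) := by
  have e1 : η * (1 + θ / 4) / η = 1 + θ / 4 := by
    field_simp
  have e2 : (1 - η * (1 + θ / 4)) / θ = 1 - η / 4 := by
    rw [div_eq_iff hθ.ne']
    have : η = 1 - θ := by linarith
    rw [this]
    ring
  have e3 : (1 - η) / θ = 1 := by
    rw [div_eq_iff hθ.ne']
    linarith
  rw [e1, e2, e3, div_self hη.ne', Real.log_one]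
  have h1 := log_one_add_ge (show 0 ≤ θ / 4 by linarith)
  have h2 := log_one_sub_ge (show η / 4 ≤ 1 / 2 by linarith)
  have h3 : 3 / 16 * θ ≤ Real.log (1 + θ / 4) := by nlinarith
  have h4 : -(3 / 8) * η ≤ Real.log (1 - η / 4) := by nlinarith
  have h5 : ε * (3 / 16 * θ) ≤ (1 - ρ) * Real.log (1 + θ / 4) := by
    have h6 : 0 ≤ Real.log (1 + θ / 4) := le_trans (by positivity) h3
    calc ε * (3 / 16 * θ) ≤ ε * Real.log (1 + θ / 4) := mul_le_mul_of_nonneg_left h3 hε.le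
      _ ≤ (1 - ρ) * Real.log (1 + θ / 4) := mul_le_mul_of_nonneg_right (by linarith) h6
  have h7 : -(ε / 4 * (3 / 8 * η)) ≤ τ * Real.log (1 - η / 4) := by
    have h8 : τ * (-(3 / 8) * η) ≤ τ * Real.log (1 - η / 4) := mul_le_mul_of_nonneg_left h4 hτ0
    have h9 : τ * (3 / 8 * η) ≤ ε / 4 * (3 / 8 * η) :=
      mul_le_mul_of_nonneg_right hτ (by positivity)
    linarith
  have h10 := mul_le_mul_of_nonneg_left h5 hη.le
  have h11 := mul_le_mul_of_nonneg_left h7 hθ.le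
  have h12 : 0 ≤ η * θ * ε := by positivity
  nlinarith

/-- gain at a splitting when the class entropy is less than `(1 - ε) log (ε M / 4)` -/
theorem FI_mid [DecidableEq ι] (π : G →+ Q) {α : ι → G} {X : Finset G} {D D₁ D₀ : Finset ι}
    (hX : X.Nonempty) (hdis : Disjoint D₁ D₀) (hD : D = D₁ ∪ D₀) (h₁ : D₁.Nonempty)
    (h₀ : D₀.Nonempty) {a : Q} (ha1 : ∀ y ∈ D₁, π (α y) = a) {M : ℕ} (hM : 1 ≤ M)
    (ha0 : ∀ y ∈ D₀, ∀ j : ℕ, 1 ≤ j → j < M → j • (π (α y) - a) ≠ 0)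
    {ε : ℝ} (hε0 : 0 < ε) (hε1 : ε ≤ 1) (hT : 4 < ε * M)
    (hE : Ent π X / X.card ≤ (1 - ε) * Real.log (ε * M / 4)) :
    (D₁.card / D.card : ℝ) * FI M α X D₁ + (D₀.card / D.card : ℝ) * FI M α X D₀ +
      (D₁.card / D.card : ℝ) * (D₀.card / D.card : ℝ) * (ε / 16) ≤ FI M α X D := by
  have hM0 : (0 : ℝ) < M := by exact_mod_cast hM
  have hT1 : 1 < ε * M / 4 := by linarith
  have hlog : 0 < Real.log (ε * M / 4) := Real.log_pos hT1
  obtain ⟨S, hS1, hS2⟩ := exists_pop π hX hT1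
  have hρ : (off π X S / X.card : ℝ) ≤ 1 - ε :=
    le_of_mul_le_mul_right (hS2.trans hE) hlog
  have hc1 : 0 < D₁.card := card_pos.2 h₁
  have hc0 : 0 < D₀.card := card_pos.2 h₀
  have hcD : D.card = D₁.card + D₀.card := by rw [hD, card_union_of_disjoint hdis]
  have hcD0 : (0 : ℝ) < D.card := by rw [hcD]; exact_mod_cast (by omega)
  set η : ℝ := (D₁.card / D.card : ℝ) with hη
  set θ : ℝ := (D₀.card / D.card : ℝ) with hθ
  have hη0 : 0 < η := div_pos (by exact_mod_cast hc1) hcD0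
  have hθ0 : 0 < θ := div_pos (by exact_mod_cast hc0) hcD0
  have hsum : η + θ = 1 := by
    rw [hη, hθ, ← add_div, div_eq_one_iff_eq hcD0.ne', hcD]
    push_cast
    ring
  obtain ⟨τ, hτ0, _, hτ2, hF⟩ := FI_ind π hX hdis hD h₁ h₀ ha1 hM ha0 S
    (q := η * (1 + θ / 4)) (r := η) (η := η) (θ := θ) (ρ := off π X S / X.card)
    (by positivity) (by nlinarith) hη0 (by linarith) hη hθ rfl
  have hτ : τ ≤ ε / 4 := by
    refine hτ2.trans ?_
    rw [div_le_iff₀ hM0]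
    linarith
  have hN := SideB_num hη0 hθ0 hsum hε0 hρ hτ0 hτ
  linarith

end Pool.Agent.Helper24.ES
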