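import Pool.Agent.Helper24.ES.Node
import Pool.Agent.Helper24.ES.Avg

set_option autoImplicit false

open Finset
open Pool.Agent.Helper84.SP

namespace Pool.Agent.Helper24.ES

variable {ι G Q : Type*} [AddCommGroup G] [DecidableEq G] [AddCommGroup Q] [DecidableEq Q]

/-- numerical bounds for the small part -/
theorem SideT0_num {η θ : ℝ} (hη : 0 < η) (hθ : 0 < θ) (h : η + θ = 1) (h16 : θ ≤ 1 / 16) :
    0 ≤ -Real.log θ ∧ 277 / 100 ≤ -Real.log θ ∧ hh η θ ≤ θ * -Real.log θ + θ := by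
  have h2 := Real.log_two_gt_d9
  have h1 : Real.log θ ≤ -(4 * Real.log 2) := by
    have h3 : Real.log θ ≤ Real.log (1 / 16) := Real.log_le_log hθ h16
    have h4 : Real.log (1 / 16 : ℝ) = -(4 * Real.log 2) := by
      rw [one_div, Real.log_inv]
      have : (16 : ℝ) = 2 ^ 4 := by norm_num
      rw [this, Real.log_pow]
      push_cast
      ring
    linarith
  have h5 : -(η * Real.log η) ≤ θ := by
    have h6 : Real.log η⁻¹ ≤ η⁻¹ - 1 := Real.log_le_sub_one_of_pos (inv_pos.2 hη)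
    rw [Real.log_inv] at h6
    have h7 : η * -Real.log η ≤ η * (η⁻¹ - 1) := mul_le_mul_of_nonneg_left h6 hη.le
    have h8 : η * (η⁻¹ - 1) = 1 - η := by
      rw [mul_sub, mul_inv_cancel₀ hη.ne', mul_one]
    linarith
  refine ⟨by linarith, by linarith, ?_⟩
  unfold hh
  linarith

/-- the final inequality -/
theorem SideT0_bracket {η θ ρ τ E lam L g : ℝ} (hη : 0 < η) (hθ : 0 < θ) (h : η + θ = 1)
    (h16 : θ ≤ 1 / 16) (hρ0 : 0 ≤ ρ) (hL : 0 < L) (hlam : 0 < lam) (hlT : 100 ≤ lam * L)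
    (hρ : ρ * L ≤ E) (hE : lam * η * E < g * hh η θ) (hg : g ≤ 1) (hτ : τ ≤ 1 / 4)
    (hh0 : 0 ≤ hh η θ) :
    hh η θ / 4 ≤ η * ((1 - ρ) * Real.log (η / η) + ρ * Real.log ((1 - √θ) / η)) +
        θ * (τ * Real.log ((1 - η) / θ) + (1 - τ) * Real.log ((1 - (1 - √θ)) / θ)) := by
  obtain ⟨hl0, hl, hhle⟩ := SideT0_num hη hθ h h16
  set l := -Real.log θ with hldef
  have e1 : (1 : ℝ) - η = θ := by linarith
  have e2 : (1 : ℝ) - (1 - √θ) = √θ := by ring
  have hs0 : 0 < √θ := Real.sqrt_pos.2 hθ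
  have hs1 : √θ ≤ 1 / 4 := by
    rw [show (1 / 4 : ℝ) = √(1 / 16) by
      rw [show (1 / 16 : ℝ) = (1 / 4) ^ 2 by norm_num, Real.sqrt_sq (by norm_num)]]
    exact Real.sqrt_le_sqrt h16
  have e3 : Real.log (√θ / θ) = l / 2 := by
    rw [Real.log_div hs0.ne' hθ.ne', Real.log_sqrt hθ.le, hldef]
    ring
  rw [e1, e2, div_self hη.ne', div_self hθ.ne', Real.log_one, e3]
  have hη1 : 15 / 16 ≤ η := by linarith
  have hη2 : η ≤ 1 := by linarith
  -- the bound for the logarithm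
  have h1 : -(4 / 3 * √θ) ≤ Real.log ((1 - √θ) / η) := by
    have h2 : Real.log (1 - √θ) ≤ Real.log ((1 - √θ) / η) := by
      apply Real.log_le_log (by linarith)
      rw [le_div_iff₀ hη]
      nlinarith
    have h3 : 1 - (1 - √θ)⁻¹ ≤ Real.log (1 - √θ) := Real.one_sub_inv_le_log_of_pos (by linarith)
    have h4 : (1 - √θ)⁻¹ ≤ 1 + 4 / 3 * √θ := by
      rw [inv_le_iff_one_le_mul₀ (by linarith)]
      nlinarith
    linarith
  -- the bound for `ρ`
  have h5 : ρ * 100 ≤ 16 / 15 * hh η θ := by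
    have h6 : lam * η * (ρ * L) ≤ lam * η * E := mul_le_mul_of_nonneg_left hρ (by positivity)
    have h7 : g * hh η θ ≤ hh η θ := by nlinarith
    have h8 : 100 * (η * ρ) ≤ lam * L * (η * ρ) :=
      mul_le_mul_of_nonneg_right hlT (by positivity)
    have h9 : 15 / 16 * (100 * ρ) ≤ η * (100 * ρ) := mul_le_mul_of_nonneg_right hη1 (by positivity)
    nlinarith
  have h6 : -(1 / 3 * ρ) ≤ η * (ρ * Real.log ((1 - √θ) / η)) := by
    have h7 : η * ρ * -(4 / 3 * √θ) ≤ η * ρ * Real.log ((1 - √θ) / η) :=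
      mul_le_mul_of_nonneg_left h1 (by positivity)
    have h8 : η * ρ * (4 / 3 * √θ) ≤ 1 * ρ * (4 / 3 * (1 / 4)) := by
      gcongr
    linarith
  have h7 : 3 / 4 * (θ * (l / 2)) ≤ (1 - τ) * (θ * (l / 2)) :=
    mul_le_mul_of_nonneg_right (by linarith) (by positivity)
  have h8 : θ * (277 / 100) ≤ θ * l := mul_le_mul_of_nonneg_left hl hθ.le
  have h9 : 0 < θ * l := by nlinarith
  nlinarith

/-- `D₀` is the small part: it pays by class entropy or by information. -/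
theorem FI_minor0 [DecidableEq ι] (π : G →+ Q) {α : ι → G} {X : Finset G} {D D₁ D₀ : Finset ι}
    (hX : X.Nonempty) (hdis : Disjoint D₁ D₀) (hD : D = D₁ ∪ D₀) (h₁ : D₁.Nonempty)
    (h₀ : D₀.Nonempty) {a : Q} (ha1 : ∀ y ∈ D₁, π (α y) = a) {M : ℕ} (hM : 1 ≤ M)
    (ha0 : ∀ y ∈ D₀, ∀ j : ℕ, 1 ≤ j → j < M → j • (π (α y) - a) ≠ 0)
    {T lam g w : ℝ} (hT : 1 < T) (hTM : 4 * T ≤ M) (hlam : 0 < lam)
    (hlT : 100 ≤ lam * Real.log T) (hg0 : 0 < g) (hg1 : g ≤ 1) (hw : 4 ≤ w)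
    (hθ : (D₀.card / D.card : ℝ) ≤ 1 / 16) :
    (D₁.card / D.card : ℝ) * (w * FI M α X D₁) + (D₀.card / D.card : ℝ) * (w * FI M α X D₀) +
      g * hh (D₁.card / D.card) (D₀.card / D.card) ≤
      w * FI M α X D + lam * (D₁.card / D.card) * (Ent π X / X.card) := by
  have hcard : (D.card : ℝ) = D₁.card + D₀.card := by
    rw [hD, Finset.card_union_of_disjoint hdis]
    push_cast
    rfl
  have hc1 : (0 : ℝ) < D₁.card := by exact_mod_cast h₁.card_pos
  have hc0 : (0 : ℝ) < D₀.card := by exact_mod_cast h₀.card_pos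
  have hcD : (0 : ℝ) < D.card := by rw [hcard]; linarith
  have hXc : (0 : ℝ) < X.card := by exact_mod_cast hX.card_pos
  have hsup := FI_super (M := M) (α := α) hX hdis hD h₁ h₀
  obtain ⟨S, hS1, hS2⟩ := exists_pop π hX hT
  set η : ℝ := D₁.card / D.card with hηdef
  set θ : ℝ := D₀.card / D.card with hθdef
  set E : ℝ := Ent π X / X.card with hEdef
  set ρ : ℝ := off π X S / X.card with hρdef
  have hη0 : 0 < η := div_pos hc1 hcD
  have hθ0 : 0 < θ := div_pos hc0 hcD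
  have hsum : η + θ = 1 := by
    rw [hηdef, hθdef, ← add_div, ← hcard, div_self hcD.ne']
  have hE0 : 0 ≤ E := div_nonneg (Ent_nonneg π X) hXc.le
  have hlog : 0 < Real.log T := Real.log_pos hT
  have hhn : 0 ≤ hh η θ := by
    unfold hh
    have h1 : Real.log η ≤ 0 := Real.log_nonpos hη0.le (by linarith)
    have h2 : Real.log θ ≤ 0 := Real.log_nonpos hθ0.le (by linarith)
    nlinarith
  by_cases hcase : g * hh η θ ≤ lam * η * E
  · have hw0 : 0 ≤ w := by linarith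
    have h1 := mul_le_mul_of_nonneg_left hsup hw0
    linarith
  · push Not at hcase
    have hs1 : √θ ≤ 1 / 4 := by
      rw [show (1 / 4 : ℝ) = √(1 / 16) by
        rw [show (1 / 16 : ℝ) = (1 / 4) ^ 2 by norm_num, Real.sqrt_sq (by norm_num)]]
      exact Real.sqrt_le_sqrt hθ
    have hs0 : 0 < √θ := Real.sqrt_pos.2 hθ0
    obtain ⟨τ, hτ0, hτ1, hτ2, hF⟩ := FI_ind π hX hdis hD h₁ h₀ ha1 hM ha0 S (q := η)
      (r := 1 - √θ) (η := η) (θ := θ) (ρ := ρ) hη0 (by linarith) (by linarith) (by linarith)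
      hηdef hθdef hρdef
    have hM0 : (0 : ℝ) < M := by exact_mod_cast hM
    have hτ : τ ≤ 1 / 4 := by
      refine hτ2.trans ?_
      rw [div_le_iff₀ hM0]
      linarith
    have hρ0 : 0 ≤ ρ := div_nonneg (Nat.cast_nonneg _) hXc.le
    have hbr := SideT0_bracket hη0 hθ0 hsum hθ hρ0 hlog hlam hlT hS2 hcase hg1 hτ hhn
    have h2 : η * FI M α X D₁ + θ * FI M α X D₀ + hh η θ / 4 ≤ FI M α X D := by linarith
    have h3 := mul_le_mul_of_nonneg_left h2 (by linarith : 0 ≤ w)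
    have h4 : 4 * (hh η θ / 4) ≤ w * (hh η θ / 4) :=
      mul_le_mul_of_nonneg_right hw (by linarith)
    have h5 : g * hh η θ ≤ hh η θ := by nlinarith
    have h6 : 0 ≤ lam * η * E := by positivity
    nlinarith

end Pool.Agent.Helper24.ES
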