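import Pool.Agent.Helper24.ES.Node
import Pool.Agent.Helper24.ES.Avg

set_option autoImplicit false

open Finset
open Pool.Agent.Helper84.SP

namespace Pool.Agent.Helper24.ES

variable {ι G Q : Type*} [AddCommGroup G] [DecidableEq G] [AddCommGroup Q] [DecidableEq Q]

theorem SideT1_real {η θ ρ τ : ℝ} (hη0 : 0 < η) (hsum : η + θ = 1) (hη : η ≤ 1 / 16)
    (hρ : ρ ≤ 1 / 2) (hτ0 : 0 ≤ τ) (hτ : τ ≤ η / 8) :
    1 / 4 * hh η θ ≤ η * ((1 - ρ) * Real.log (1 / 2 / η) + ρ * Real.log (η / η)) +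
      θ * (τ * Real.log ((1 - 1 / 2) / θ) + (1 - τ) * Real.log ((1 - η) / θ)) := by
  have hθ0 : 0 < θ := by linarith
  have hθ1 : θ ≤ 1 := by linarith
  have e1 : Real.log (η / η) = 0 := by rw [div_self hη0.ne', Real.log_one]
  have e2 : (1 - η) / θ = 1 := by
    rw [div_eq_one_iff_eq hθ0.ne']; linarith
  have e3 : Real.log ((1 - η) / θ) = 0 := by rw [e2, Real.log_one]
  have e4 : Real.log (1 / 2 / η) = -Real.log 2 - Real.log η := by
    rw [Real.log_div (by norm_num) hη0.ne', one_div, Real.log_inv]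
  have e5 : Real.log ((1 - 1 / 2) / θ) = -Real.log 2 - Real.log θ := by
    rw [Real.log_div (by norm_num) hθ0.ne']
    have : (1 - 1 / 2 : ℝ) = 2⁻¹ := by norm_num
    rw [this, Real.log_inv]
  rw [e1, e3, e4, e5]
  have hl2 : 0.6931471803 < Real.log 2 := Real.log_two_gt_d9
  have hl2' : Real.log 2 < 0.6931471808 := Real.log_two_lt_d9
  have hu : Real.log η ≤ -(4 * Real.log 2) := by
    have h1 : Real.log η ≤ Real.log (1 / 16) := Real.log_le_log hη0 hη
    have h2 : Real.log (1 / 16 : ℝ) = -(4 * Real.log 2) := by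
      rw [one_div, Real.log_inv]
      have : (16 : ℝ) = 2 ^ 4 := by norm_num
      rw [this, Real.log_pow]
      norm_num
    linarith
  have hθl : Real.log θ ≤ 0 := Real.log_nonpos hθ0.le hθ1
  have hθl2 : -(θ * Real.log θ) ≤ η := by
    have h4 := Real.one_sub_inv_le_log_of_pos hθ0
    have h5 : θ * (1 - θ⁻¹) ≤ θ * Real.log θ := mul_le_mul_of_nonneg_left h4 hθ0.le
    have h6 : θ * (1 - θ⁻¹) = θ - 1 := by field_simp
    linarith
  -- the first term
  have t1 : η * (1 / 2 * (-Real.log 2 - Real.log η)) ≤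
      η * ((1 - ρ) * (-Real.log 2 - Real.log η)) := by
    apply mul_le_mul_of_nonneg_left _ hη0.le
    apply mul_le_mul_of_nonneg_right (by linarith) (by linarith)
  -- the second term
  have t2 : -(η / 8 * Real.log 2) ≤ θ * (τ * (-Real.log 2 - Real.log θ)) := by
    have a1 : -(τ * Real.log 2) ≤ τ * (-Real.log 2 - Real.log θ) := by
      have : 0 ≤ τ * (-Real.log θ) := mul_nonneg hτ0 (by linarith)
      linarith
    have a2 : -(η / 8 * Real.log 2) ≤ -(τ * Real.log 2) := by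
      have := mul_le_mul_of_nonneg_right hτ (by linarith : 0 ≤ Real.log 2)
      linarith
    have a3 : 0 ≤ τ * Real.log 2 := mul_nonneg hτ0 (by linarith)
    have a4 : θ * (τ * Real.log 2) ≤ τ * Real.log 2 := by
      have := mul_le_mul_of_nonneg_right hθ1 a3
      linarith
    have a5 : θ * -(τ * Real.log 2) ≤ θ * (τ * (-Real.log 2 - Real.log θ)) :=
      mul_le_mul_of_nonneg_left a1 hθ0.le
    linarith
  have t3 : 1 / 4 * hh η θ ≤ η * (1 / 4 * (-Real.log η) + 1 / 4) := by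
    unfold hh
    linarith
  have t4 : η * (1 / 4 * (-Real.log η) + 1 / 4) ≤
      η * (1 / 2 * (-Real.log 2 - Real.log η) - 1 / 8 * Real.log 2) := by
    apply mul_le_mul_of_nonneg_left _ hη0.le
    linarith
  linarith

/-- `D₁` is the small part: information if the class entropy is small and `M` is large. -/
theorem FI_minor1 [DecidableEq ι] (π : G →+ Q) {α : ι → G} {X : Finset G} {D D₁ D₀ : Finset ι}
    (hX : X.Nonempty) (hdis : Disjoint D₁ D₀) (hD : D = D₁ ∪ D₀) (h₁ : D₁.Nonempty)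
    (h₀ : D₀.Nonempty) {a : Q} (ha1 : ∀ y ∈ D₁, π (α y) = a) {M : ℕ} (hM : 1 ≤ M)
    (ha0 : ∀ y ∈ D₀, ∀ j : ℕ, 1 ≤ j → j < M → j • (π (α y) - a) ≠ 0)
    {T : ℝ} (hT : 1 < T) (hTM : 8 * T ≤ (D₁.card / D.card : ℝ) * M)
    (hE : Ent π X / X.card ≤ 1 / 2 * Real.log T) (hη : (D₁.card / D.card : ℝ) ≤ 1 / 16) :
    (D₁.card / D.card : ℝ) * FI M α X D₁ + (D₀.card / D.card : ℝ) * FI M α X D₀ +
      1 / 4 * hh (D₁.card / D.card) (D₀.card / D.card) ≤ FI M α X D := by
  have c1 : (0 : ℝ) < D₁.card := by exact_mod_cast card_pos.2 h₁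
  have c0 : (0 : ℝ) < D₀.card := by exact_mod_cast card_pos.2 h₀
  have cD : (D.card : ℝ) = D₁.card + D₀.card := by
    rw [hD, card_union_of_disjoint hdis]
    push_cast
    ring
  have cDpos : (0 : ℝ) < D.card := by rw [cD]; linarith
  have hη0 : (0 : ℝ) < D₁.card / D.card := div_pos c1 cDpos
  have hsum : (D₁.card / D.card : ℝ) + D₀.card / D.card = 1 := by
    rw [← add_div, ← cD, div_self cDpos.ne']
  obtain ⟨S, hS, hoff⟩ := exists_pop π hX hT
  have hlT : 0 < Real.log T := Real.log_pos hT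
  have hρ : (off π X S / X.card : ℝ) ≤ 1 / 2 := by
    have h1 : (off π X S / X.card : ℝ) * Real.log T ≤ 1 / 2 * Real.log T := hoff.trans hE
    exact le_of_mul_le_mul_right h1 hlT
  obtain ⟨τ, hτ0, -, hτ, hmain⟩ := FI_ind (D := D) π hX hdis hD h₁ h₀ ha1 hM ha0 S
    (q := 1 / 2) (r := D₁.card / D.card) (by norm_num) (by norm_num) hη0 (by linarith)
    rfl rfl rfl
  have hMpos : (0 : ℝ) < M := by exact_mod_cast hM
  have hτ2 : τ ≤ (D₁.card / D.card : ℝ) / 8 := by
    refine hτ.trans ?_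
    rw [div_le_iff₀ hMpos]
    linarith
  have h := SideT1_real hη0 hsum hη hρ hτ0 hτ2
  linarith

end Pool.Agent.Helper24.ES
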