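import Pool.Agent.Helper24.ES.Node1
import Pool.Agent.Helper24.ES.Avg1

set_option autoImplicit false

open Finset
open Pool.Agent.Helper84.SP

namespace Pool.Agent.Helper24.ES

variable {ι G Q : Type*} [AddCommGroup G] [DecidableEq G] [AddCommGroup Q] [DecidableEq Q]

theorem SideT2_hits [DecidableEq ι] (π : G →+ Q) {α : ι → G} {X : Finset G} {D₀ : Finset ι}
    {a z : Q} (ha0 : ∀ y ∈ D₀, π (α y) ≠ a) :
    (hits π α X D₀ {z} a : ℝ) ≤ D₀.card * ((X.card : ℝ) - (cl π X z).card) := by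
  unfold hits
  push_cast
  rw [← nsmul_eq_mul, ← sum_const]
  apply sum_le_sum
  intro y hy
  have h1 : (X.filter (fun x => π x + (π (α y) - a) ∈ ({z} : Finset Q))).card +
      (cl π X z).card ≤ X.card := by
    rw [← card_union_of_disjoint]
    · exact card_le_card (union_subset (filter_subset _ _) (cl_subset _ _ _))
    · rw [disjoint_left]
      intro x hx hx'
      rw [mem_filter, mem_singleton] at hx
      rw [mem_cl] at hx'
      have h2 := hx.2
      rw [hx'.2] at h2
      have h3 : π (α y) - a = 0 := by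
        have := add_eq_left.1 h2
        exact this
      exact ha0 y hy (sub_eq_zero.1 h3)
  have h2 : ((X.filter (fun x => π x + (π (α y) - a) ∈ ({z} : Finset Q))).card : ℝ) +
      (cl π X z).card ≤ X.card := by exact_mod_cast h1
  linarith

theorem SideT2_log {s : ℝ} (hs0 : 0 ≤ s) (hs : s ≤ 1 / 2) : -(2 * s) ≤ Real.log (1 - s) := by
  have h1 : (0 : ℝ) < 1 - s := by linarith
  have h2 := Real.one_sub_inv_le_log_of_pos h1
  refine le_trans ?_ h2
  have h3 : (1 - s)⁻¹ ≤ 1 + 2 * s := by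
    rw [inv_le_iff_one_le_mul₀ h1]
    nlinarith
  linarith

/-- almost full information about a small part `D₀`, no dilates -/
theorem I_full [DecidableEq ι] (π : G →+ Q) {α : ι → G} {X : Finset G} {D D₁ D₀ : Finset ι}
    (hX : X.Nonempty) (hdis : Disjoint D₁ D₀) (hD : D = D₁ ∪ D₀) (h₁ : D₁.Nonempty)
    (h₀ : D₀.Nonempty) {a : Q} (ha1 : ∀ y ∈ D₁, π (α y) = a) (ha0 : ∀ y ∈ D₀, π (α y) ≠ a)
    {s θ E : ℝ} (hθ : θ = D₀.card / D.card) (hE : E = Ent π X / X.card) (hs : θ ≤ s)
    (hs2 : s ≤ 1 / 2) (hE1 : E ≤ 1) :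
    (D₁.card / D.card : ℝ) * I α X D₁ + (D₀.card / D.card : ℝ) * I α X D₀ +
      (θ * (1 - E) * Real.log (s / θ) - 2 * s * E) ≤ I α X D := by
  have hp1 : (0 : ℝ) < D₁.card := by exact_mod_cast card_pos.2 h₁
  have hp0 : (0 : ℝ) < D₀.card := by exact_mod_cast card_pos.2 h₀
  have hXp : (0 : ℝ) < X.card := by exact_mod_cast card_pos.2 hX
  have hsum : (D.card : ℝ) = D₁.card + D₀.card := by
    rw [hD, card_union_of_disjoint hdis]
    push_cast
    ring
  have hpD : (0 : ℝ) < D.card := by linarith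
  have hθ0 : 0 < θ := by rw [hθ]; positivity
  obtain ⟨η, hη⟩ : ∃ η : ℝ, η = D₁.card / D.card := ⟨_, rfl⟩
  have hη0 : 0 < η := by rw [hη]; positivity
  have hηθ : η + θ = 1 := by
    rw [hη, hθ, ← add_div, ← hsum, div_self hpD.ne']
  have hη1 : η < 1 := by linarith
  have hs0 : 0 < s := lt_of_lt_of_le hθ0 hs
  obtain ⟨z, hz, hzp⟩ := exists_max π hX
  have hzp' : (0 : ℝ) < (cl π X z).card := by exact_mod_cast hzp
  obtain ⟨φ, hφ⟩ : ∃ φ : ℝ, φ = (cl π X z).card / X.card := ⟨_, rfl⟩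
  have hφ0 : 0 < φ := by rw [hφ]; positivity
  have hφ1 : φ ≤ 1 := by
    rw [hφ, div_le_one hXp]
    exact_mod_cast card_le_card (cl_subset π X z)
  have hEφ : 1 - φ ≤ E := by
    have h1 := Ent_ge hX hz
    have h2 : Real.log ((X.card : ℝ) / (cl π X z).card) ≤ E := by
      rw [hE, le_div_iff₀ hXp, mul_comm]
      exact h1
    have h3 : (X.card : ℝ) / (cl π X z).card = φ⁻¹ := by
      rw [hφ, inv_div]
    rw [h3, Real.log_inv] at h2
    have h4 := Real.log_le_sub_one_of_pos hφ0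
    linarith
  have hoff : (off π X {z} : ℝ) / X.card = 1 - φ := by
    have h1 : off π X {z} + (cl π X z).card = X.card := by
      unfold off cl
      have h2 := card_filter_add_card_filter_not (s := X) (fun x => π x = z)
      simp only [mem_singleton]
      omega
    have h2 : (off π X {z} : ℝ) + (cl π X z).card = X.card := by exact_mod_cast h1
    rw [hφ, eq_sub_iff_add_eq, ← add_div, h2, div_self hXp.ne']
  obtain ⟨τ, hτ⟩ : ∃ τ : ℝ, τ = hits π α X D₀ {z} a / (X.card * D₀.card) := ⟨_, rfl⟩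
  have hτ1 : τ ≤ E := by
    refine le_trans ?_ hEφ
    rw [hτ, div_le_iff₀ (by positivity)]
    refine le_trans (SideT2_hits π ha0) (le_of_eq ?_)
    rw [hφ]
    field_simp
  have hr1 : (1 : ℝ) - s < 1 := by linarith
  have hmain := I_ind π hX hdis hD h₁ h₀ ha1 {z} hη0 hη1 (by linarith : (0 : ℝ) < 1 - s) hr1
    hη hθ hoff.symm hτ
  have e1 : (1 - η) / θ = 1 := by
    have e0 : 1 - η = θ := by linarith
    rw [e0, div_self hθ0.ne']
  rw [div_self hη0.ne', e1, Real.log_one, mul_zero, mul_zero, zero_add, zero_add] at hmain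
  rw [← hη, ← hθ]
  refine le_trans ?_ hmain
  have e2 : 1 - (1 - s) = s := by ring
  rw [e2]
  have hlog1 : -(2 * s) ≤ Real.log ((1 - s) / η) := by
    refine le_trans (SideT2_log hs0.le hs2) (Real.log_le_log (by linarith) ?_)
    rw [le_div_iff₀ hη0]
    nlinarith
  have hlog2 : 0 ≤ Real.log (s / θ) := by
    apply Real.log_nonneg
    rw [le_div_iff₀ hθ0, one_mul]
    exact hs
  have hρ0 : 0 ≤ 1 - φ := by linarith
  have h5 : -(2 * s * E) ≤ η * ((1 - φ) * Real.log ((1 - s) / η)) := by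
    have h6 : (1 - φ) * -(2 * s) ≤ (1 - φ) * Real.log ((1 - s) / η) :=
      mul_le_mul_of_nonneg_left hlog1 hρ0
    have h7 : η * ((1 - φ) * -(2 * s)) ≤ η * ((1 - φ) * Real.log ((1 - s) / η)) :=
      mul_le_mul_of_nonneg_left h6 hη0.le
    have h8 : η * ((1 - φ) * (2 * s)) ≤ E * (2 * s) := by
      have h9 : η * (1 - φ) ≤ E := by nlinarith
      nlinarith
    linarith
  have h6 : θ * (1 - E) * Real.log (s / θ) ≤ θ * ((1 - τ) * Real.log (s / θ)) := by
    rw [mul_assoc]
    apply mul_le_mul_of_nonneg_left _ hθ0.le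
    exact mul_le_mul_of_nonneg_right (by linarith) hlog2
  linarith

/-- almost full information about a small part `D₀`, with a bounded loss -/
theorem I_full2 [DecidableEq ι] (π : G →+ Q) {α : ι → G} {X : Finset G} {D D₁ D₀ : Finset ι}
    (hX : X.Nonempty) (hdis : Disjoint D₁ D₀) (hD : D = D₁ ∪ D₀) (h₁ : D₁.Nonempty)
    (h₀ : D₀.Nonempty) {a : Q} (ha1 : ∀ y ∈ D₁, π (α y) = a) (ha0 : ∀ y ∈ D₀, π (α y) ≠ a)
    {θ u R lam g : ℝ} (hθ : θ = D₀.card / D.card) (hu : u = -Real.log θ) (hθ1 : θ ≤ 1 / 16)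
    (hR : 1 ≤ R) (hsm : R * θ * u ^ 2 ≤ 1 / 8) (hlam : 0 < lam) (hg0 : 0 < g) (hg1 : g ≤ 1)
    (hgl : g ≤ lam * R) :
    (D₁.card / D.card : ℝ) * I α X D₁ + (D₀.card / D.card : ℝ) * I α X D₀ +
      g * hh (D₁.card / D.card) (D₀.card / D.card) ≤
      I α X D + lam * (D₁.card / D.card) * (Ent π X / X.card) +
        θ * max 0 (Real.log (8 * R) + Real.log u + 3 - (1 - g) * u) := by
  have hp1 : (0 : ℝ) < D₁.card := by exact_mod_cast card_pos.2 h₁
  have hp0 : (0 : ℝ) < D₀.card := by exact_mod_cast card_pos.2 h₀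
  have hXp : (0 : ℝ) < X.card := by exact_mod_cast card_pos.2 hX
  have hsum : (D.card : ℝ) = D₁.card + D₀.card := by
    rw [hD, card_union_of_disjoint hdis]
    push_cast
    ring
  have hpD : (0 : ℝ) < D.card := by linarith
  have hθ0 : 0 < θ := by rw [hθ]; positivity
  obtain ⟨η, hη⟩ : ∃ η : ℝ, η = D₁.card / D.card := ⟨_, rfl⟩
  have hη0 : 0 < η := by rw [hη]; positivity
  have hηθ : η + θ = 1 := by
    rw [hη, hθ, ← add_div, ← hsum, div_self hpD.ne']
  obtain ⟨E, hE⟩ : ∃ E : ℝ, E = Ent π X / X.card := ⟨_, rfl⟩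
  have hE0 : 0 ≤ E := by
    rw [hE]
    exact div_nonneg (Ent_nonneg _ _) hXp.le
  obtain ⟨m, hm⟩ : ∃ m : ℝ, m = max 0 (Real.log (8 * R) + Real.log u + 3 - (1 - g) * u) :=
    ⟨_, rfl⟩
  have hm0 : 0 ≤ m := by rw [hm]; exact le_max_left _ _
  have hm1 : Real.log (8 * R) + Real.log u + 3 - (1 - g) * u ≤ m := by
    rw [hm]; exact le_max_right _ _
  by_cases hcase : g * hh η θ ≤ lam * η * E
  · have h1 := I_super (α := α) hX hdis hD h₁ h₀
    rw [← hη, ← hθ, ← hE, ← hm]
    rw [← hη, ← hθ] at h1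
    have h2 : 0 ≤ θ * m := mul_nonneg hθ0.le hm0
    linarith
  · push Not at hcase
    -- size of u
    have hu1 : (27 / 10 : ℝ) ≤ u := by
      have h1 : Real.log θ ≤ Real.log (1 / 16) := Real.log_le_log hθ0 hθ1
      have h2 : Real.log (1 / 16 : ℝ) = -(4 * Real.log 2) := by
        rw [show (1 / 16 : ℝ) = ((2 : ℝ) ^ 4)⁻¹ by norm_num, Real.log_inv, Real.log_pow]
        norm_num
      have h3 := Real.log_two_gt_d9
      rw [hu]
      linarith
    have hu0 : 0 < u := by linarith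
    have hη15 : 15 / 16 ≤ η := by linarith
    have hhh : hh η θ ≤ θ * u + θ := by
      have h3 : -(η * Real.log η) ≤ θ := by
        have h4 := Real.one_sub_inv_le_log_of_pos hη0
        have h5 : η * (1 - η⁻¹) ≤ η * Real.log η := mul_le_mul_of_nonneg_left h4 hη0.le
        have h6 : η * (1 - η⁻¹) = η - 1 := by field_simp
        linarith
      unfold hh
      rw [hu]
      linarith
    have hEb : E ≤ 3 / 2 * (R * θ * u) := by
      have h1 : lam * (η * E) ≤ lam * (R * (θ * u + θ)) := by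
        have h2 : g * hh η θ ≤ lam * R * (θ * u + θ) := by
          have h3 : 0 ≤ θ * u + θ := by positivity
          calc g * hh η θ ≤ g * (θ * u + θ) := mul_le_mul_of_nonneg_left hhh hg0.le
            _ ≤ lam * R * (θ * u + θ) := mul_le_mul_of_nonneg_right hgl h3
        linarith
      have h2 : η * E ≤ R * (θ * u + θ) := le_of_mul_le_mul_left h1 hlam
      have h3 : 15 / 16 * E ≤ R * (θ * u + θ) := by nlinarith
      have h4 : θ ≤ 10 / 27 * (θ * u) := by nlinarith
      have h5 : R * θ ≤ 10 / 27 * (R * θ * u) := by nlinarith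
      have h6 : 0 ≤ R * θ * u := by positivity
      nlinarith
    have hEu : E * u ≤ 3 / 16 := by
      have h1 : E * u ≤ 3 / 2 * (R * θ * u) * u := mul_le_mul_of_nonneg_right hEb hu0.le
      nlinarith
    have hE1 : E ≤ 1 := by nlinarith
    obtain ⟨s, hs⟩ : ∃ s : ℝ, s = 1 / (8 * R * u) := ⟨_, rfl⟩
    have hRu : 0 < 8 * R * u := by positivity
    have hs0 : 0 < s := by rw [hs]; positivity
    have hRu1 : (2 : ℝ) ≤ 8 * R * u := by nlinarith
    have hs2 : s ≤ 1 / 2 := by
      rw [hs]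
      exact one_div_le_one_div_of_le (by norm_num) hRu1
    have hθs : θ ≤ s := by
      rw [hs, le_div_iff₀ hRu]
      have h1 : R * θ * u * u ≤ 1 / 8 := by nlinarith
      have h2 : R * θ * u ≤ R * θ * u * u := by
        have : 0 ≤ R * θ * u := by positivity
        nlinarith
      nlinarith
    have hfull := I_full π (α := α) hX hdis hD h₁ h₀ ha1 ha0 hθ hE hθs hs2 hE1
    rw [← hη, ← hθ, ← hE, ← hm]
    rw [← hη, ← hθ] at hfull
    have hlogs : Real.log (s / θ) = u - Real.log (8 * R) - Real.log u := by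
      rw [Real.log_div hs0.ne' hθ0.ne', hs, one_div, Real.log_inv,
        Real.log_mul (by positivity) hu0.ne', hu]
      ring
    have hlog0 : 0 ≤ Real.log (s / θ) := by
      apply Real.log_nonneg
      rw [le_div_iff₀ hθ0, one_mul]
      exact hθs
    have hlogu : Real.log (s / θ) ≤ u := by
      rw [hlogs]
      have h1 : 0 ≤ Real.log (8 * R) := Real.log_nonneg (by linarith)
      have h2 : 0 ≤ Real.log u := Real.log_nonneg (by linarith)
      linarith
    have h1 : 2 * s * E ≤ 3 / 8 * θ := by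
      have h2 : 2 * s * E ≤ 2 * s * (3 / 2 * (R * θ * u)) :=
        mul_le_mul_of_nonneg_left hEb (by positivity)
      have h3 : 2 * s * (3 / 2 * (R * θ * u)) = 3 / 8 * θ := by
        rw [hs]
        field_simp
      linarith
    have h2 : θ * E * Real.log (s / θ) ≤ 3 / 16 * θ := by
      have h3 : E * Real.log (s / θ) ≤ E * u := mul_le_mul_of_nonneg_left hlogu hE0
      have h4 : θ * (E * Real.log (s / θ)) ≤ θ * (3 / 16) :=
        mul_le_mul_of_nonneg_left (h3.trans hEu) hθ0.le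
      linarith
    have h3 : θ * (Real.log (8 * R) + Real.log u + 3 - (1 - g) * u) ≤ θ * m :=
      mul_le_mul_of_nonneg_left hm1 hθ0.le
    have h4 : g * hh η θ ≤ g * (θ * u) + θ := by
      have h5 : g * hh η θ ≤ g * (θ * u + θ) := mul_le_mul_of_nonneg_left hhh hg0.le
      have h6 : g * θ ≤ 1 * θ := mul_le_mul_of_nonneg_right hg1 hθ0.le
      linarith
    have h5 : 0 ≤ lam * η * E := by positivity
    have h6 : θ * (1 - E) * Real.log (s / θ) =
        θ * (u - Real.log (8 * R) - Real.log u) - θ * E * Real.log (s / θ) := by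
      rw [← hlogs]
      ring
    rw [h6] at hfull
    linarith

end Pool.Agent.Helper24.ES
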