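import Pool.Agent.Helper24.ES.PosB

set_option autoImplicit false

open Finset
open Pool.Agent.Helper84.SP

namespace Pool.Agent.Helper24.ES

/-- the constant of Theorem B -/
noncomputable def TopB_C (q : ℝ) (L : ℕ → ℝ) (n : ℕ) : ℝ :=
  (4 * Real.exp (max 0 (L n))) ^ (-(q * Real.log n))

theorem TopB_four (L : ℕ → ℝ) (n : ℕ) : (4 : ℝ) ≤ 4 * Real.exp (max 0 (L n)) := by
  have h1 : (1 : ℝ) ≤ Real.exp (max 0 (L n)) := Real.one_le_exp (le_max_left _ _)
  linarith

theorem TopB_C_pos (q : ℝ) (L : ℕ → ℝ) (n : ℕ) : 0 < TopB_C q L n := by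
  unfold TopB_C
  positivity

theorem TopB_C_le {q c : ℝ} (L : ℕ → ℝ) {n : ℕ} (hcq : c ≤ q * Real.log n) :
    TopB_C q L n ≤ (4 * Real.exp (max 0 (L n))) ^ (-c) := by
  unfold TopB_C
  have h4 := TopB_four L n
  exact Real.rpow_le_rpow_of_exponent_le (by linarith) (by linarith)

/-- if `M ≥ N / 4`, then `C N ^ c ≤ M ^ c` -/
theorem TopB_quarter {q c : ℝ} (L : ℕ → ℝ) {n : ℕ} (hc : 0 ≤ c) (hcq : c ≤ q * Real.log n)
    {N M : ℝ} (hN : 0 < N) (hM : N / 4 ≤ M) : TopB_C q L n * N ^ c ≤ M ^ c := by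
  have h4 := TopB_four L n
  have h1 : TopB_C q L n ≤ (4 : ℝ) ^ (-c) := by
    refine (TopB_C_le L hcq).trans ?_
    rw [Real.rpow_neg (by positivity), Real.rpow_neg (by norm_num)]
    apply inv_anti₀ (by positivity)
    exact Real.rpow_le_rpow (by norm_num) h4 hc
  calc TopB_C q L n * N ^ c ≤ (4 : ℝ) ^ (-c) * N ^ c :=
        mul_le_mul_of_nonneg_right h1 (by positivity)
    _ = (N / 4) ^ c := by
        rw [Real.rpow_neg (by norm_num), Real.div_rpow hN.le (by norm_num)]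
        field_simp
    _ ≤ M ^ c := Real.rpow_le_rpow (by positivity) hM hc

/-- if `N` is small, the bound is trivial -/
theorem TopB_small {q c : ℝ} (L : ℕ → ℝ) {n : ℕ} (hc : 0 ≤ c) (hcq : c ≤ q * Real.log n)
    {N : ℝ} (hN : 0 ≤ N) (h : N ≤ 4 * Real.exp (max 0 (L n))) : TopB_C q L n * N ^ c ≤ 1 := by
  have hpos : 0 < (4 * Real.exp (max 0 (L n))) ^ c := by positivity
  calc TopB_C q L n * N ^ c ≤ (4 * Real.exp (max 0 (L n))) ^ (-c) * N ^ c :=
        mul_le_mul_of_nonneg_right (TopB_C_le L hcq) (by positivity)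
    _ ≤ 1 := by
        rw [Real.rpow_neg (by positivity), inv_mul_le_iff₀ hpos, mul_one]
        exact Real.rpow_le_rpow hN h hc

/-- Theorem B. -/
theorem topB (s p : ℝ) (hs : 0 < s) (hp : 0 < p)
    (hsp : (s + p) * Real.binEntropy (s / (s + p)) < 1) :
    ∃ k₀ : ℕ, ∃ C : ℕ → ℝ, (∀ n, 0 < C n) ∧ ∀ A : Finset ℤ, A.Nonempty →
      (∀ h : ℕ, k₀ ≤ h → C h * (A.card : ℝ) ^ (s * Real.log h) ≤ ((hsum A h).card : ℝ)) ∨
      (∀ k : ℕ, k₀ ≤ k → C k * (A.card : ℝ) ^ (p * Real.log k) ≤ ((kprod A k).card : ℝ)) := by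
  obtain ⟨k₀, L, hL⟩ := posB hs hp hsp
  refine ⟨k₀, TopB_C (max s p) L, TopB_C_pos _ L, ?_⟩
  intro A hA
  by_contra hcon
  push Not at hcon
  obtain ⟨⟨h, hh, h1⟩, ⟨k, hk, h2⟩⟩ := hcon
  have lh : 0 ≤ Real.log (h : ℝ) := Real.log_natCast_nonneg _
  have lk : 0 ≤ Real.log (k : ℝ) := Real.log_natCast_nonneg _
  have ch : 0 ≤ s * Real.log h := mul_nonneg hs.le lh
  have ck : 0 ≤ p * Real.log k := mul_nonneg hp.le lk
  have ch' : s * Real.log h ≤ max s p * Real.log h :=
    mul_le_mul_of_nonneg_right (le_max_left _ _) lh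
  have ck' : p * Real.log k ≤ max s p * Real.log k :=
    mul_le_mul_of_nonneg_right (le_max_right _ _) lk
  have hp1 : (1 : ℝ) ≤ ((hsum A h).card : ℝ) := by exact_mod_cast card_hsum_pos hA h
  have hbig : 4 * Real.exp (max 0 (L h)) < A.card := by
    by_contra hle
    push Not at hle
    have := TopB_small L ch ch' (Nat.cast_nonneg _) hle
    linarith
  have hN4 : (4 : ℝ) < A.card := lt_of_le_of_lt (TopB_four L h) hbig
  have hN4' : 4 < A.card := by exact_mod_cast hN4
  have h0 : (0 : ℤ) ∉ A.erase 0 := by simp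
  obtain ⟨A', e, hpos, he, hA', hcard⟩ := signed (A.erase 0) h0
  have hcard1 : A.card ≤ (A.erase 0).card + 1 := by
    have := pred_card_le_card_erase (s := A) (a := (0 : ℤ))
    omega
  have hcard2 : A.card ≤ 4 * A'.card := by omega
  have hcard3 : (A.card : ℝ) / 4 ≤ A'.card := by
    have : (A.card : ℝ) ≤ 4 * A'.card := by exact_mod_cast hcard2
    linarith
  have hA'ne : A'.Nonempty := card_pos.1 (by omega)
  have hA'' : ∀ y ∈ A', e * (y : ℤ) ∈ A := fun y hy => (mem_erase.1 (hA' y hy)).2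
  have hA'pos : (0 : ℝ) < A'.card := by exact_mod_cast card_pos.2 hA'ne
  have hNpos : (0 : ℝ) < A.card := by linarith
  have q1 := TopB_quarter L ch ch' hNpos hcard3
  have q2 := TopB_quarter L ck ck' hNpos hcard3
  have t1 : ((it al A' h).card : ℝ) ≤ (hsum A h).card := by
    exact_mod_cast it_al_card he hA'' h
  have t2 : ((it be A' k).card : ℝ) ≤ (kprod A k).card := by
    exact_mod_cast it_be_card he hpos hA'' k
  have u1 : ((it al A' h).card : ℝ) < (A'.card : ℝ) ^ (s * Real.log h) := by linarith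
  have u2 : ((it be A' k).card : ℝ) < (A'.card : ℝ) ^ (p * Real.log k) := by linarith
  have hi1 : (0 : ℝ) < (it al A' h).card := by
    exact_mod_cast card_pos.2 (it_nonempty (α := al) hA'ne h)
  have hi2 : (0 : ℝ) < (it be A' k).card := by
    exact_mod_cast card_pos.2 (it_nonempty (α := be) hA'ne k)
  have l1 : Real.log (it al A' h).card ≤ s * Real.log h * Real.log A'.card := by
    have := Real.log_le_log hi1 u1.le
    rwa [Real.log_rpow hA'pos] at this
  have l2 : Real.log (it be A' k).card ≤ p * Real.log k * Real.log A'.card := by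
    have := Real.log_le_log hi2 u2.le
    rwa [Real.log_rpow hA'pos] at this
  have hfin := hL A' hA'ne hpos h k hh hk l1 l2
  have hfin2 : (A'.card : ℝ) ≤ Real.exp (max 0 (L h)) := by
    rw [← Real.exp_log hA'pos]
    exact Real.exp_le_exp.2 (hfin.trans (le_max_right _ _))
  have hcard4 : (A.card : ℝ) ≤ 4 * A'.card := by exact_mod_cast hcard2
  linarith

end Pool.Agent.Helper24.ES
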