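import Pool.Agent.Helper24.ES.PosB2

set_option autoImplicit false

/-!
MP_120218_co, squad ES: theorem B with explicit constants.
-/

open Finset
open Pool.Agent.Helper84.SP

namespace Pool.Agent.Helper24.ES

/-- Theorem B, explicit form. -/
theorem topB_explicit (s p : ℝ) (hs : 0 < s) (hp : 0 < p)
    (hsp : (s + p) * Real.binEntropy (s / (s + p)) < 1) :
    ∃ k₀ : ℕ, ∃ C : ℝ, 0 < C ∧ ∀ A : Finset ℤ, A.Nonempty →
      (∀ h : ℕ, k₀ ≤ h → Real.exp (-(C * (h * Real.log h ^ 3))) *
        (A.card : ℝ) ^ (s * Real.log h) ≤ ((hsum A h).card : ℝ)) ∨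
      (∀ k : ℕ, k₀ ≤ k → ((A.card : ℝ) / 4) ^ (p * Real.log k) ≤ ((kprod A k).card : ℝ)) := by
  obtain ⟨k₀, C, hC, hL⟩ := posB_explicit hs hp hsp
  refine ⟨max k₀ 3, s * (C + 2), by positivity, ?_⟩
  intro A hA
  by_contra hcon
  push Not at hcon
  obtain ⟨⟨h, hh, h1⟩, ⟨k, hk, h2⟩⟩ := hcon
  have hh0 : k₀ ≤ h := (le_max_left _ _).trans hh
  have hh3 : 3 ≤ h := (le_max_right _ _).trans hh
  have hk0 : k₀ ≤ k := (le_max_left _ _).trans hk
  have hh3' : (3 : ℝ) ≤ h := by exact_mod_cast hh3
  have lh : 1 ≤ Real.log (h : ℝ) := by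
    rw [Real.le_log_iff_exp_le (by linarith)]
    have := Real.exp_one_lt_d9
    linarith
  have lk : 0 ≤ Real.log (k : ℝ) := Real.log_natCast_nonneg _
  obtain ⟨H, hH⟩ : ∃ H : ℝ, H = Real.log (h : ℝ) := ⟨_, rfl⟩
  have ck : 0 ≤ p * Real.log k := mul_nonneg hp.le lk
  rw [← hH] at lh h1
  have hp1 : (1 : ℝ) ≤ ((hsum A h).card : ℝ) := by exact_mod_cast card_hsum_pos hA h
  have hNpos : (0 : ℝ) < A.card := by exact_mod_cast card_pos.2 hA
  have hNexp : (A.card : ℝ) ^ (s * H) = Real.exp (Real.log A.card * (s * H)) :=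
    Real.rpow_def_of_pos hNpos _
  -- the set is large
  have hbig : C * (h * H ^ 2) + 2 < Real.log A.card := by
    by_contra hle
    push Not at hle
    have h3 : Real.exp (-(s * (C + 2) * (h * H ^ 3))) * (A.card : ℝ) ^ (s * H) ≤ 1 := by
      rw [hNexp, ← Real.exp_add]
      apply Real.exp_le_one_iff.2
      have h4 : Real.log A.card * (s * H) ≤ (C * (h * H ^ 2) + 2) * (s * H) :=
        mul_le_mul_of_nonneg_right hle (by positivity)
      have h5 : (1 : ℝ) ≤ h * H ^ 2 := by
        have : (1 : ℝ) ≤ H ^ 2 := one_le_pow₀ lh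
        nlinarith
      have h6 : (C * (h * H ^ 2) + 2) * (s * H) ≤ ((C + 2) * (h * H ^ 2)) * (s * H) := by
        apply mul_le_mul_of_nonneg_right _ (by positivity)
        nlinarith
      have h7 : ((C + 2) * (h * H ^ 2)) * (s * H) = s * (C + 2) * (h * H ^ 3) := by ring
      linarith
    linarith
  have hN4 : (4 : ℝ) < A.card := by
    have h3 : (2 : ℝ) < Real.log A.card := by
      have : 0 ≤ C * (h * H ^ 2) := by positivity
      linarith
    rw [Real.lt_log_iff_exp_lt hNpos] at h3
    have h4 : (4 : ℝ) < Real.exp 2 := by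
      have h5 := Real.exp_one_gt_d9
      have h6 : Real.exp 2 = Real.exp 1 * Real.exp 1 := by
        rw [← Real.exp_add]
        norm_num
      rw [h6]
      nlinarith
    linarith
  have hN4' : 4 < A.card := by exact_mod_cast hN4
  have h0 : (0 : ℤ) ∉ A.erase 0 := by simp
  obtain ⟨A', e, hpos, he, hA', hcard⟩ := signed (A.erase 0) h0
  have hcard1 : A.card ≤ (A.erase 0).card + 1 := by
    have := pred_card_le_card_erase (s := A) (a := (0 : ℤ))
    omega
  have hcard2 : A.card ≤ 4 * A'.card := by omega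
  have hcard3 : (A.card : ℝ) / 4 ≤ A'.card := by
    have : (A.card : ℝ) ≤ 4 * A'.card := by exact_mod_cast hcard2
    linarith
  have hA'ne : A'.Nonempty := card_pos.1 (by omega)
  have hA'' : ∀ y ∈ A', e * (y : ℤ) ∈ A := fun y hy => (mem_erase.1 (hA' y hy)).2
  have hA'pos : (0 : ℝ) < A'.card := by exact_mod_cast card_pos.2 hA'ne
  have t1 : ((it al A' h).card : ℝ) ≤ (hsum A h).card := by
    exact_mod_cast it_al_card he hA'' h
  have t2 : ((it be A' k).card : ℝ) ≤ (kprod A k).card := by
    exact_mod_cast it_be_card he hpos hA'' k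
  have hi1 : (0 : ℝ) < (it al A' h).card := by
    exact_mod_cast card_pos.2 (it_nonempty (α := al) hA'ne h)
  have hi2 : (0 : ℝ) < (it be A' k).card := by
    exact_mod_cast card_pos.2 (it_nonempty (α := be) hA'ne k)
  -- comparison of the logarithms
  have hlog4 : Real.log A.card ≤ Real.log A'.card + 2 := by
    have h3 : (A.card : ℝ) ≤ 4 * A'.card := by exact_mod_cast hcard2
    have h4 := Real.log_le_log hNpos h3
    rw [Real.log_mul (by norm_num) hA'pos.ne'] at h4
    have h5 : Real.log 4 ≤ 2 := by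
      rw [Real.log_le_iff_le_exp (by norm_num)]
      have h5 := Real.exp_one_gt_d9
      have h6 : Real.exp 2 = Real.exp 1 * Real.exp 1 := by
        rw [← Real.exp_add]
        norm_num
      rw [h6]
      nlinarith
    linarith
  have l1 : Real.log (it al A' h).card ≤ s * Real.log h * Real.log A'.card := by
    rw [← hH]
    have u1 : ((it al A' h).card : ℝ) ≤
        Real.exp (-(s * (C + 2) * (h * H ^ 3))) * (A.card : ℝ) ^ (s * H) := by linarith
    rw [hNexp, ← Real.exp_add] at u1
    have u2 := Real.log_le_log hi1 u1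
    rw [Real.log_exp] at u2
    have u3 : Real.log A.card * (s * H) ≤ (Real.log A'.card + 2) * (s * H) :=
      mul_le_mul_of_nonneg_right hlog4 (by positivity)
    have u4 : 2 * (s * H) ≤ s * (C + 2) * (h * H ^ 3) := by
      have h5 : (1 : ℝ) ≤ h * H ^ 2 := by
        have : (1 : ℝ) ≤ H ^ 2 := one_le_pow₀ lh
        nlinarith
      have h6 : s * (C + 2) * (h * H ^ 3) = ((C + 2) * (h * H ^ 2)) * (s * H) := by ring
      rw [h6]
      apply mul_le_mul_of_nonneg_right _ (by positivity)
      nlinarith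
    have u5 : (Real.log A'.card + 2) * (s * H) =
        s * H * Real.log A'.card + 2 * (s * H) := by ring
    linarith
  have l2 : Real.log (it be A' k).card ≤ p * Real.log k * Real.log A'.card := by
    have u2 : ((it be A' k).card : ℝ) ≤ (A'.card : ℝ) ^ (p * Real.log k) := by
      have u3 : ((A.card : ℝ) / 4) ^ (p * Real.log k) ≤ (A'.card : ℝ) ^ (p * Real.log k) :=
        Real.rpow_le_rpow (by positivity) hcard3 ck
      linarith
    have := Real.log_le_log hi2 u2
    rwa [Real.log_rpow hA'pos] at this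
  have hfin := hL A' hA'ne hpos h k hh0 hk0 l1 l2
  rw [← hH] at hfin
  linarith

end Pool.Agent.Helper24.ES
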