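import Pool.Agent.Helper24.ES.PosT

set_option autoImplicit false

open Finset
open Pool.Agent.Helper84.SP

namespace Pool.Agent.Helper24.ES

/-- The constants of Theorem T: exponent `e`, bound `l` for `log |A'|`. -/
noncomputable def topT_K (e l : ℝ) : ℝ := (4 * Real.exp (max l 0)) ^ (-e)

theorem topT_four_le (l : ℝ) : (4 : ℝ) ≤ 4 * Real.exp (max l 0) := by
  have h1 : (1 : ℝ) ≤ Real.exp (max l 0) := Real.one_le_exp (le_max_right _ _)
  linarith

theorem topT_K_pos (e l : ℝ) : 0 < topT_K e l := by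
  unfold topT_K
  positivity

/-- if `M ≥ N / 4`, then `4 ^ (-e) N ^ e ≤ M ^ e` -/
theorem topT_quarter0 {e N M : ℝ} (he : 0 ≤ e) (hN : 0 < N) (hM : N / 4 ≤ M) :
    (4 : ℝ) ^ (-e) * N ^ e ≤ M ^ e := by
  calc (4 : ℝ) ^ (-e) * N ^ e = (N / 4) ^ e := by
        rw [Real.rpow_neg (by norm_num), Real.div_rpow hN.le (by norm_num)]
        field_simp
    _ ≤ M ^ e := Real.rpow_le_rpow (by positivity) hM he

theorem topT_quarter {e l N M : ℝ} (he : 0 ≤ e) (hN : 0 < N) (hM : N / 4 ≤ M) :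
    topT_K e l * N ^ e ≤ M ^ e := by
  have h4 := topT_four_le l
  have h1 : topT_K e l ≤ (4 : ℝ) ^ (-e) := by
    unfold topT_K
    rw [Real.rpow_neg (by positivity), Real.rpow_neg (by norm_num)]
    apply inv_anti₀ (by positivity)
    exact Real.rpow_le_rpow (by norm_num) h4 he
  exact (mul_le_mul_of_nonneg_right h1 (by positivity)).trans (topT_quarter0 he hN hM)

/-- if `N` is small, the bound is trivial -/
theorem topT_small {e l N : ℝ} (he : 0 ≤ e) (hN : 0 ≤ N) (h : N ≤ 4 * Real.exp (max l 0)) :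
    topT_K e l * N ^ e ≤ 1 := by
  have hpos : 0 < (4 * Real.exp (max l 0)) ^ e := by positivity
  unfold topT_K
  rw [Real.rpow_neg (by positivity), inv_mul_le_iff₀ hpos, mul_one]
  exact Real.rpow_le_rpow hN h he

/-- Theorem T. -/
theorem topT : ∃ c : ℝ, 0 < c ∧ ∀ (k : ℕ) (ε : ℝ), 2 ≤ k → 0 < ε → ε ≤ 1 →
    ∃ C : ℕ → ℝ, (∀ n, 0 < C n) ∧ ∀ A : Finset ℤ, A.Nonempty →
      C 0 * (A.card : ℝ) ^ ((1 - ε) * k) ≤ ((kprod A k).card : ℝ) ∨
      ∀ h : ℕ, 1 ≤ h → C h * (A.card : ℝ) ^ (1 + c * (ε ^ 2 / Real.log (k / ε)) * Real.log h) ≤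
        ((hsum A h).card : ℝ) := by
  obtain ⟨c, hc, hpos⟩ := posT
  refine ⟨c, hc, ?_⟩
  intro k ε hk hε hε1
  obtain ⟨L, hL⟩ := hpos k ε hk hε hε1
  obtain ⟨e, he⟩ : ∃ e : ℕ → ℝ, ∀ h, e h = 1 + c * (ε ^ 2 / Real.log (k / ε)) * Real.log h :=
    ⟨_, fun _ => rfl⟩
  obtain ⟨E, hE⟩ : ∃ E : ℝ, E = (1 - ε) * k := ⟨_, rfl⟩
  have hk2 : (2 : ℝ) ≤ k := by exact_mod_cast hk
  have hE0 : 0 ≤ E := by
    rw [hE]
    apply mul_nonneg <;> linarith
  have hkε : 1 ≤ (k : ℝ) / ε := by
    rw [le_div_iff₀ hε]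
    linarith
  have hlog : 0 ≤ Real.log ((k : ℝ) / ε) := Real.log_nonneg hkε
  have he1 : ∀ h, 1 ≤ e h := by
    intro h
    have h1 : 0 ≤ Real.log (h : ℝ) := Real.log_natCast_nonneg h
    have h2 : 0 ≤ c * (ε ^ 2 / Real.log (k / ε)) * Real.log h := by positivity
    rw [he]
    linarith
  have he0 : ∀ h, 0 ≤ e h := fun h => zero_le_one.trans (he1 h)
  refine ⟨fun n => if n = 0 then (4 : ℝ) ^ (-E) else topT_K (e n) (L n), ?_, ?_⟩
  · intro n
    by_cases hn : n = 0
    · simp only [hn, if_true]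
      positivity
    · simp only [hn, if_false]
      exact topT_K_pos _ _
  intro A hA
  by_contra hcon
  push Not at hcon
  obtain ⟨h2, ⟨h, hh, h1⟩⟩ := hcon
  have hhne : h ≠ 0 := by omega
  simp only [if_true] at h2
  simp only [hhne, if_false] at h1
  rw [← he] at h1
  rw [← hE] at h2
  have hp1 : (1 : ℝ) ≤ ((hsum A h).card : ℝ) := by exact_mod_cast card_hsum_pos hA h
  have hbig : 4 * Real.exp (max (L h) 0) < A.card := by
    by_contra hle
    push Not at hle
    have := topT_small (he0 h) (Nat.cast_nonneg _) hle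
    linarith
  have hN4 : (4 : ℝ) < A.card := lt_of_le_of_lt (topT_four_le (L h)) hbig
  have hN4' : 4 < A.card := by exact_mod_cast hN4
  have h0 : (0 : ℤ) ∉ A.erase 0 := by simp
  obtain ⟨A', s, hpos', hs, hA', hcard⟩ := signed (A.erase 0) h0
  have hcard1 : A.card ≤ (A.erase 0).card + 1 := by
    have := pred_card_le_card_erase (s := A) (a := (0 : ℤ))
    omega
  have hcard2 : A.card ≤ 4 * A'.card := by omega
  have hcard3 : (A.card : ℝ) / 4 ≤ A'.card := by
    have : (A.card : ℝ) ≤ 4 * A'.card := by exact_mod_cast hcard2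
    linarith
  have hA'ne : A'.Nonempty := card_pos.1 (by omega)
  have hA'' : ∀ y ∈ A', s * (y : ℤ) ∈ A := fun y hy => (mem_erase.1 (hA' y hy)).2
  have hA'pos : (0 : ℝ) < A'.card := by exact_mod_cast card_pos.2 hA'ne
  have hNpos : (0 : ℝ) < A.card := by linarith
  have q1 := topT_quarter (l := L h) (he0 h) hNpos hcard3
  have q2 := topT_quarter0 hE0 hNpos hcard3
  have t1 : ((it al A' h).card : ℝ) ≤ (hsum A h).card := by
    exact_mod_cast it_al_card hs hA'' h
  have t2 : ((it be A' k).card : ℝ) ≤ (kprod A k).card := by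
    exact_mod_cast it_be_card hs hpos' hA'' k
  have s1 : (A'.card : ℝ) ≤ (it al A' h).card := by
    have : Set.InjOn al A' := by
      intro x _ y _ hxy
      unfold al at hxy
      exact_mod_cast hxy
    exact_mod_cast it_card_ge hA'ne this hh
  have u1 : ((it al A' h).card : ℝ) < (A'.card : ℝ) ^ (e h) := by linarith
  have u2 : ((it be A' k).card : ℝ) < (A'.card : ℝ) ^ E := by linarith
  have hh2 : 2 ≤ h := by
    by_contra hlt
    have hh1 : h = 1 := by omega
    have : e h = 1 := by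
      rw [he, hh1]
      simp
    rw [this, Real.rpow_one] at u1
    linarith
  have hi1 : (0 : ℝ) < (it al A' h).card := by linarith
  have hi2 : (0 : ℝ) < (it be A' k).card := by
    exact_mod_cast card_pos.2 (it_nonempty hA'ne k)
  have l1 : Real.log (it al A' h).card ≤ e h * Real.log A'.card := by
    have := Real.log_le_log hi1 u1.le
    rwa [Real.log_rpow hA'pos] at this
  have l2 : Real.log (it be A' k).card ≤ (1 - ε) * k * Real.log A'.card := by
    have := Real.log_le_log hi2 u2.le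
    rwa [Real.log_rpow hA'pos, hE] at this
  rw [he] at l1
  have hfin := hL A' hA'ne hpos' h hh2 l2 l1
  have hfin2 : (A'.card : ℝ) ≤ Real.exp (max (L h) 0) := by
    rw [← Real.exp_log hA'pos]
    exact Real.exp_le_exp.2 (hfin.trans (le_max_left _ _))
  have hcard4 : (A.card : ℝ) ≤ 4 * A'.card := by exact_mod_cast hcard2
  linarith

end Pool.Agent.Helper24.ES
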